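import Pool.Agent.Lib.MP_c77dc5_gt.Defs
import Pool.Agent.Shared.Sing.Fund

/-! The geometry of connected sums: collapse maps, charts, compactness. -/

set_option linter.unusedSectionVars false

namespace Pool.Agent.Lib.MP_c77dc5_gt

open Set Filter Topology Metric Pool.Agent.Shared.Sing

variable {A : Type*} [NormedAddCommGroup A] [NormedSpace ℝ A] [ProperSpace A]

/-- The inversion of the punctured unit ball, extended by zero. -/
noncomputable def flip (v : A) : A := (max (1 - ‖v‖) 0 / ‖v‖) • v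

lemma flip_smul {u : A} (hu : ‖u‖ = 1) {t : ℝ} (h0 : 0 < t) (h1 : t < 1) :
    flip (t • u) = (1 - t) • u := by
  rw [flip, norm_smul, hu, Real.norm_of_nonneg h0.le, mul_one, max_eq_left (by linarith),
    smul_smul, div_mul_cancel₀ _ h0.ne']

lemma flip_out {v : A} (h : 1 ≤ ‖v‖) : flip v = 0 := by
  rw [flip, max_eq_right (by linarith), zero_div, zero_smul]

lemma polar {v : A} (h : v ≠ 0) : ∃ u : A, ‖u‖ = 1 ∧ v = ‖v‖ • u :=
  ⟨‖v‖⁻¹ • v, norm_smul_inv_norm h, by rw [smul_inv_smul₀ (norm_ne_zero_iff.2 h)]⟩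

variable {M M₁ M₂ X : Type*} [TopologicalSpace M] [TopologicalSpace M₁] [TopologicalSpace M₂]
  [TopologicalSpace X] [T2Space M] [T2Space M₁] [T2Space M₂]

/-- The collapse of the complement of a coordinate disc. -/
noncomputable def col (e : A → M) : M → A := Function.extend e flip 0

lemma col_apply {e : A → M} (he : IsOpenEmbedding e) (v : A) : col e (e v) = flip v :=
  he.injective.extend_apply _ _ v

lemma col_cont {e : A → M} (he : IsOpenEmbedding e) : ContinuousOn (col e) {e 0}ᶜ := fun y hy => by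
  refine ContinuousAt.continuousWithinAt ?_
  by_cases h : y ∈ e '' closedBall 0 1
  · obtain ⟨v, -, rfl⟩ := h
    have : ‖v‖ ≠ 0 := fun h => hy (congrArg e (norm_eq_zero.1 h))
    rw [← he.continuousAt_iff, show col e ∘ e = flip from funext (col_apply he)]
    unfold flip
    fun_prop (disch := assumption)
  · refine (continuousAt_const (y := (0 : A))).congr ?_
    filter_upwards [((isCompact_closedBall (0 : A) 1).image he.continuous).isClosed.isOpen_compl.mem_nhds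
      h] with z hz
    by_cases h' : ∃ v, e v = z
    · obtain ⟨v, rfl⟩ := h'
      rw [col_apply he, flip_out (not_lt.1 fun h => hz ⟨v, by simpa using h.le, rfl⟩)]
    · exact (Function.extend_apply' flip (0 : M → A) _ h').symm

lemma col_ne {e : A → M} (he : IsOpenEmbedding e) {y : M} (hy : y ≠ e 0) (h : col e y ≠ 0) :
    ∃ u : A, ‖u‖ = 1 ∧ ∃ t : ℝ, 0 < t ∧ t < 1 ∧ y = e (t • u) ∧ col e y = (1 - t) • u := by
  obtain ⟨v, rfl⟩ : ∃ v, e v = y := by_contra fun h' => h (Function.extend_apply' _ _ _ h')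
  rw [col_apply he] at h ⊢
  have h0 : v ≠ 0 := fun h => hy (congrArg e h)
  obtain ⟨u, hu, h1⟩ := polar h0
  have h2 : ‖v‖ < 1 := not_le.1 fun h' => h (flip_out h')
  exact ⟨u, hu, _, norm_pos_iff.2 h0, h2, congrArg e h1,
    (congrArg flip h1).trans (flip_smul hu (norm_pos_iff.2 h0) h2)⟩

/-- One half of the structure of a connected sum `X`: `f₁` collapses `X` onto `M₁`, it is a chart
`φ` away from the centre, and it factors through the disc `e₁` on the other side. -/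
structure Half (e₁ : A → M₁) (e₂ : A → M₂) (f₁ : X → M₁) (f₂ : X → M₂) : Prop where
  emb : IsOpenEmbedding e₁
  cont : Continuous f₁
  chart : ∃ φ : OpenPartialHomeomorph X M₁, ⇑φ = f₁ ∧ φ.source = f₁ ⁻¹' {e₁ 0}ᶜ ∧
    φ.target = {e₁ 0}ᶜ
  cov : ∀ x, f₁ x ≠ e₁ 0 ∨ f₂ x ≠ e₂ 0
  disc : ∀ x, f₂ x ≠ e₂ 0 → f₁ x = e₁ (col e₂ (f₂ x))

lemma exists_chart [Nonempty X] {f : X → M} (hf : Continuous f) {a : M} {i : {x // x ≠ a} → X}
    (hi : Continuous i) (h1 : ∀ x, f (i x) = x) (h2 : ∀ x (h : f x ≠ a), i ⟨f x, h⟩ = x) :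
    ∃ φ : OpenPartialHomeomorph X M, ⇑φ = f ∧ φ.source = f ⁻¹' {a}ᶜ ∧ φ.target = {a}ᶜ := by
  classical
  let g : M → X := fun m => if h : m ≠ a then i ⟨m, h⟩ else Classical.arbitrary X
  have hg : ∀ m (h : m ≠ a), g m = i ⟨m, h⟩ := fun m h => dif_pos h
  exact ⟨⟨⟨⟨f, g, f ⁻¹' {a}ᶜ, {a}ᶜ, fun _ h => h, fun m h => by
      rw [hg m h, mem_preimage, h1]; exact h, fun x h => (hg _ h).trans (h2 x h),
      fun m h => by rw [hg m h, h1]⟩, hf.continuousOn, continuousOn_iff_continuous_domRestrict.2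
      (hi.congr fun m => (hg m m.2).symm)⟩, isOpen_compl_singleton.preimage hf,
    isOpen_compl_singleton⟩, rfl, rfl, rfl⟩

theorem connSum_half {n : ℕ} {e₁ : EuclideanSpace ℝ (Fin n) → M₁}
    {e₂ : EuclideanSpace ℝ (Fin n) → M₂} (h₁ : IsOpenEmbedding e₁) (h₂ : IsOpenEmbedding e₂)
    [Nonempty (ConnSum e₁ e₂)] : ∃ (f₁ : ConnSum e₁ e₂ → M₁) (f₂ : ConnSum e₁ e₂ → M₂),
      Half e₁ e₂ f₁ f₂ ∧ Half e₂ e₁ f₂ f₁ := by
  let f₁ : ConnSum e₁ e₂ → M₁ := Quot.lift (Sum.elim (↑) fun y => e₁ (col e₂ y)) (by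
    rintro _ _ ⟨x, y, rfl, rfl, u, hu, t, t0, t1, hx, hy⟩
    simp [hx, hy, col_apply h₂, flip_smul hu (sub_pos.2 t1) (sub_lt_self 1 t0)])
  let f₂ : ConnSum e₁ e₂ → M₂ := Quot.lift (Sum.elim (fun x => e₂ (col e₁ x)) (↑)) (by
    rintro _ _ ⟨x, y, rfl, rfl, u, hu, t, t0, t1, hx, hy⟩
    simp [hx, hy, col_apply h₁, flip_smul hu t0 t1])
  have c₁ : Continuous f₁ := continuous_quot_lift _
    (continuous_subtype_val.sumElim (h₁.continuous.comp (col_cont h₂).domRestrict))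
  have c₂ : Continuous f₂ := continuous_quot_lift _
    ((h₂.continuous.comp (col_cont h₁).domRestrict).sumElim continuous_subtype_val)
  have b₁ : ∀ x (h : f₁ x ≠ e₁ 0), Quot.mk _ (.inl ⟨f₁ x, h⟩) = x := by
    rintro ⟨x | y⟩ h
    · rfl
    obtain ⟨u, hu, t, t0, t1, h1, h2⟩ := col_ne h₂ y.2 fun h' => h (congrArg e₁ h')
    exact Quot.sound ⟨_, y, rfl, rfl, u, hu, 1 - t, sub_pos.2 t1, sub_lt_self 1 t0,
      congrArg e₁ h2, by rwa [sub_sub_cancel]⟩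
  have b₂ : ∀ x (h : f₂ x ≠ e₂ 0), Quot.mk _ (.inr ⟨f₂ x, h⟩) = x := by
    rintro ⟨y | x⟩ h
    · obtain ⟨u, hu, t, t0, t1, h1, h2⟩ := col_ne h₁ y.2 fun h' => h (congrArg e₂ h')
      exact (Quot.sound ⟨y, _, rfl, rfl, u, hu, t, t0, t1, h1, congrArg e₂ h2⟩).symm
    · rfl
  have hc : ∀ x, f₁ x ≠ e₁ 0 ∨ f₂ x ≠ e₂ 0 := by
    rintro ⟨x | y⟩
    exacts [.inl x.2, .inr y.2]
  exact ⟨f₁, f₂, ⟨h₁, c₁, exists_chart c₁ (continuous_quot_mk.comp continuous_inl) (fun _ => rfl)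
    b₁, hc, fun x h => (congrArg f₁ (b₂ x h)).symm⟩, ⟨h₂, c₂, exists_chart c₂
      (continuous_quot_mk.comp continuous_inr) (fun _ => rfl) b₂, fun x => (hc x).symm,
      fun x h => (congrArg f₂ (b₁ x h)).symm⟩⟩

variable {e₁ : A → M₁} {e₂ : A → M₂} {f₁ : X → M₁} {f₂ : X → M₂}

lemma Half.inj (H : Half e₁ e₂ f₁ f₂) {x y : X} (hx : f₁ x ≠ e₁ 0) (h : f₁ x = f₁ y) : x = y := by
  obtain ⟨φ, rfl, h1, -⟩ := H.chart
  exact φ.injOn (h1 ▸ hx) (h1 ▸ (h ▸ hx : φ y ≠ e₁ 0)) h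

lemma Half.t2 (H : Half e₁ e₂ f₁ f₂) (H' : Half e₂ e₁ f₂ f₁) : T2Space X :=
  .of_injective_continuous (f := fun x => (f₁ x, f₂ x)) (fun x _ h => (H.cov x).elim
    (fun a => H.inj a (congrArg Prod.fst h)) fun a => H'.inj a (congrArg Prod.snd h))
    (H.cont.prodMk H'.cont)

lemma Half.cpt [CompactSpace M₁] (H : Half e₁ e₂ f₁ f₂) :
    IsCompact (f₁ ⁻¹' (e₁ '' ball 0 (1 / 2))ᶜ) := by
  obtain ⟨φ, rfl, h1, h2⟩ := H.chart
  have h3 : (e₁ '' ball 0 (1 / 2))ᶜ ⊆ {e₁ 0}ᶜ :=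
    compl_subset_compl.2 (singleton_subset_iff.2 ⟨0, by simp, rfl⟩)
  have := (H.emb.isOpenMap _ isOpen_ball).isClosed_compl.isCompact.image_of_continuousOn
    (φ.continuousOn_symm.mono (h2 ▸ h3))
  rwa [φ.symm_image_eq_source_inter_preimage (h2 ▸ h3), h1,
    inter_eq_right.2 (preimage_mono h3)] at this

lemma Half.far (H : Half e₁ e₂ f₁ f₂) (H' : Half e₂ e₁ f₂ f₁) {x : X} (h : f₂ x ≠ e₂ 0)
    (h1 : f₁ x ∈ e₁ '' ball 0 (1 / 2)) : f₂ x ∉ e₂ '' ball 0 (1 / 2) := by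
  rintro ⟨w, w1, w2⟩
  rw [H.disc x h, H.emb.injective.mem_set_image, ← w2, col_apply H'.emb] at h1
  have h0 : w ≠ 0 := fun h' => h (by rw [← w2, h'])
  obtain ⟨u, hu, h2⟩ := polar h0
  rw [mem_ball_zero_iff] at w1 h1
  rw [h2, flip_smul hu (norm_pos_iff.2 h0) (by linarith), norm_smul, hu,
    Real.norm_of_nonneg (by linarith)] at h1
  linarith

lemma Half.compact [CompactSpace M₁] [CompactSpace M₂] (H : Half e₁ e₂ f₁ f₂)
    (H' : Half e₂ e₁ f₂ f₁) : CompactSpace X :=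
  ⟨(H.cpt.union H'.cpt).of_isClosed_subset isClosed_univ fun x _ => by
    by_contra h
    simp only [mem_union, mem_preimage, mem_compl_iff, not_or, not_not] at h
    exact (H.cov x).elim (fun a => H'.far H a h.2 h.1) fun a => H.far H' a h.1 h.2⟩

lemma Half.loc {n : ℕ} [ChartedSpace (EuclideanSpace ℝ (Fin n)) M₁] (H : Half e₁ e₂ f₁ f₂) {x : X}
    (h : f₁ x ≠ e₁ 0) : ∃ φ : OpenPartialHomeomorph X (Fin n → ℝ), x ∈ φ.source := by
  obtain ⟨φ, rfl, h1, -⟩ := H.chart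
  exact ⟨(φ.trans (chartAt (EuclideanSpace ℝ (Fin n)) (φ x))).transHomeomorph
    (EuclideanSpace.equiv (Fin n) ℝ).toHomeomorph, h1.ge h, mem_chart_source _ _⟩

lemma Half.locEuc {n : ℕ} [ChartedSpace (EuclideanSpace ℝ (Fin n)) M₁]
    [ChartedSpace (EuclideanSpace ℝ (Fin n)) M₂] (H : Half e₁ e₂ f₁ f₂) (H' : Half e₂ e₁ f₂ f₁) :
    LocEuc (Fin n) X := fun x => (H.cov x).elim H.loc H'.loc

lemma locEuc_prod {ι ι' Y : Type*} [TopologicalSpace Y] (h : LocEuc ι X) (h' : LocEuc ι' Y) :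
    LocEuc (ι ⊕ ι') (X × Y) := fun x => by
  obtain ⟨φ, h1⟩ := h x.1
  obtain ⟨ψ, h2⟩ := h' x.2
  exact ⟨(φ.prod ψ).transHomeomorph Homeomorph.sumArrowHomeomorphProdArrow.symm, h1, h2⟩

lemma Half.lift {E : Type*} [TopologicalSpace E] {p : E → M₁} (hp : IsCoveringMap p)
    (hs : Function.Surjective p) (H : Half e₁ e₂ f₁ f₂) (H' : Half e₂ e₁ f₂ f₁) :
    ∃ μ : X → E, (∀ x, p (μ x) = f₁ x) ∧ ContinuousOn μ (f₂ ⁻¹' {e₂ 0}ᶜ) := by
  classical
  obtain ⟨a, ha⟩ := hs (e₁ 0)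
  obtain ⟨F, ⟨-, hF⟩, -⟩ := hp.existsUnique_continuousMap_lifts ⟨e₁, H.emb.continuous⟩ 0 a ha
  refine ⟨fun x => if f₂ x ≠ e₂ 0 then F (col e₂ (f₂ x)) else Function.surjInv hs (f₁ x),
    fun x => ?_, (F.continuous.comp_continuousOn ((col_cont H'.emb).comp H'.cont.continuousOn
      fun _ h => h)).congr fun x hx => if_pos hx⟩
  dsimp only
  split_ifs with h
  exacts [(congrFun hF _).trans (H.disc x h).symm, Function.surjInv_eq _ _]

end Pool.Agent.Lib.MP_c77dc5_gt
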