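import Pool.Agent.Lib.MP_c77dc5_gt.Weight

/-! The deck group of a contractible covering of a compact space has no involution. -/

namespace Pool.Agent.Lib.MP_c77dc5_gt

open Finsupp Set Pool.Agent.Shared.Sing

section inv

variable {E : Type*} [TopologicalSpace E] [Nonempty E]

/-- Chains of simplices each of which lies in a member of the family. -/
noncomputable def Wf (F : Set (Set E)) (n : ℕ) : Submodule (ZMod 2) (C (ZMod 2) E) :=
  supported _ _ {s | s.n = n ∧ ∃ U ∈ F, MapsTo s.f (Δ s.n) U}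

lemma In_le_Wf {F : Set (Set E)} {U : Set E} (h : U ∈ F) (n : ℕ) : In (ZMod 2) U n ≤ Wf F n :=
  supported_mono fun _ hs => ⟨hs.1, U, h, hs.2⟩

lemma Wf_D {F : Set (Set E)} {n : ℕ} {c : C (ZMod 2) E} (hc : c ∈ Wf F (n + 1)) :
    D c ∈ Wf F n := by
  refine map_mem ?_ hc
  rintro s ⟨h1, U, h2, h3⟩
  exact In_le_Wf h2 n (D_In (A := U) (single_mem ⟨h1, h3⟩))

lemma two_self (c : C (ZMod 2) E) : c + c = 0 := by
  rw [← two_smul (ZMod 2), show (2 : ZMod 2) = 0 from rfl, zero_smul]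

lemma In_empty {n : ℕ} {c : C (ZMod 2) E} (hc : c ∈ In (ZMod 2) ∅ (n + 1)) : c = 0 :=
  map_eq (F := LinearMap.id) (G := 0)
    (fun _ hs => (hs.2 (e0_mem (by rw [hs.1]; omega))).elim) hc

lemma In_zero {A : Set E} {c : C (ZMod 2) E} (hc : c ∈ In (ZMod 2) A 0) : c ∈ In (ZMod 2) ∅ 0 :=
  fun s hs => ⟨(hc hs).1, fun t ht => by simp [show s.n = 0 from (hc hs).1, Δ_zero] at ht⟩

variable {π : Type*} [Group π] [MulAction π E] [ContinuousConstSMul π E] {x : π}

lemma Wf_ρ {F F' : Set (Set E)} (h : ∀ U ∈ F, ∃ U' ∈ F', MapsTo (x • ·) U U') {n : ℕ}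
    {c : C (ZMod 2) E} (hc : c ∈ Wf F n) : ρ x c ∈ Wf F' n := by
  refine map_mem ?_ hc
  rintro s ⟨h1, U, h2, h3⟩
  obtain ⟨_, h4, h5⟩ := h U h2
  exact In_le_Wf h4 n (map_In (continuous_const_smul x).continuousOn h5 (single_mem ⟨h1, h3⟩))

omit [ContinuousConstSMul π E] in
lemma ρ_D0 {F : Set (Set E)} {c : C (ZMod 2) E} (hc : c ∈ Wf F 1) : ρ x (D c) = D c :=
  map_self (A := ∅) (fun _ h => h.elim) (In_zero (D_In (A := univ)
    fun _ hs => ⟨(hc hs).1, mapsTo_univ _ _⟩))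

lemma inv_step (hx : x * x = 1) {F : Set (Set E)} {A B : Set E}
    (hF : ∀ U ∈ F, ∃ U' ∈ F, MapsTo (x • ·) U U') (hA : MapsTo (x • ·) A B)
    (hB : MapsTo (x • ·) B A) (hd : Disjoint A B) {m : ℕ} {c : ℕ → C (ZMod 2) E}
    (h1 : ∀ j ≤ m + 1, c j ∈ Wf (insert A (insert B F)) (j + 1))
    (h2 : ∀ j < m + 1, D (c (j + 1)) = c j + ρ x (c j)) :
    ∃ w : ℕ → C (ZMod 2) E, (∀ j ≤ m, w j ∈ Wf F (j + 1)) ∧
      (∀ j < m, D (w (j + 1)) = w j + ρ x (w j)) ∧ D (w 0) = D (c 0) := by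
  classical
  have rr : ∀ a : C (ZMod 2) E, ρ x (ρ x a) = a := fun a => by rw [ρ_mul, hx, ρ_one]
  obtain ⟨β, b1, b2⟩ : ∃ β : C (ZMod 2) E →ₗ[ZMod 2] C (ZMod 2) E,
      (∀ s : Sx E, (∃ U ∈ insert A F, MapsTo s.f (Δ s.n) U) → β (single s 1) = 0) ∧
      ∀ s : Sx E, (¬ ∃ U ∈ insert A F, MapsTo s.f (Δ s.n) U) → β (single s 1) = single s 1 :=
    ⟨lc fun s => if ∃ U ∈ insert A F, MapsTo s.f (Δ s.n) U then 0 else single s 1,
      fun s hs => by rw [linearCombination_single, one_smul, if_pos hs],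
      fun s hs => by rw [linearCombination_single, one_smul, if_neg hs]⟩
  have k1 : ∀ n, ∀ a ∈ Wf (insert A F) n, β a = 0 := fun n a ha =>
    map_eq (G := 0) (fun s hs => b1 s hs.2) ha
  have k2 : ∀ n, ∀ a ∈ Wf (insert A (insert B F)) n, β a ∈ Wf {B} n := fun n a ha =>
    map_mem (fun s hs => by
      obtain ⟨s1, U, s2, s3⟩ := hs
      by_cases h : ∃ U ∈ insert A F, MapsTo s.f (Δ s.n) U
      · rw [b1 s h]; exact zero_mem _
      · rw [b2 s h]
        rcases s2 with rfl | rfl | s2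
        · exact (h ⟨_, .inl rfl, s3⟩).elim
        · exact single_mem ⟨s1, _, rfl, s3⟩
        · exact (h ⟨_, .inr s2, s3⟩).elim) ha
  have k3 : ∀ n, ∀ a ∈ Wf (insert A (insert B F)) n, a + β a ∈ Wf (insert A F) n := fun n a ha =>
    map_mem (F := LinearMap.id + β) (fun s hs => by
      by_cases h : ∃ U ∈ insert A F, MapsTo s.f (Δ s.n) U
      · rw [LinearMap.add_apply, b1 s h, add_zero]; exact single_mem ⟨hs.1, h⟩
      · rw [LinearMap.add_apply, b2 s h, LinearMap.id_apply, two_self]; exact zero_mem _) ha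
  have k4 : ∀ n, ∀ a ∈ Wf (insert B F) (n + 1), a + β a ∈ Wf F (n + 1) := fun n a ha =>
    map_mem (F := LinearMap.id + β) (fun s hs => by
      obtain ⟨s1, U, s2, s3⟩ := hs
      by_cases h : ∃ U ∈ insert A F, MapsTo s.f (Δ s.n) U
      · rw [LinearMap.add_apply, b1 s h, add_zero]
        obtain ⟨U', rfl | u1, u2⟩ := h
        · rcases s2 with rfl | s2
          · have e := e0_mem (n := s.n) (by omega)
            exact (disjoint_left.1 hd (u2 e) (s3 e)).elim
          · exact single_mem ⟨s1, _, s2, s3⟩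
        · exact single_mem ⟨s1, _, u1, u2⟩
      · rw [LinearMap.add_apply, b2 s h, LinearMap.id_apply, two_self]; exact zero_mem _) ha
  have m1 : ∀ n, Wf {B} n ≤ Wf (insert B F) n := fun n =>
    supported_mono fun _ ⟨s1, _, s2, s3⟩ => ⟨s1, _, .inl s2, s3⟩
  refine ⟨fun j => ρ x (c j) + D (β (c (j + 1))) + (β (c j) + ρ x (β (c j))), fun j hj => ?_,
    fun j hj => ?_, ?_⟩
  · have a0 := h1 j (by omega)
    have a1 := h1 (j + 1) (by omega)
    have a2 : ρ x (c j + β (c j)) ∈ Wf (insert B F) (j + 1) := Wf_ρ (by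
      rintro U (rfl | hU)
      · exact ⟨B, .inl rfl, hA⟩
      · exact let ⟨U', u1, u2⟩ := hF U hU; ⟨U', .inr u1, u2⟩) (k3 _ _ a0)
    have a3 := k4 _ _ (add_mem (add_mem a2 (m1 _ (Wf_D (k2 _ _ a1)))) (m1 _ (k2 _ _ a0)))
    have a4 : β (ρ x (β (c j))) = 0 := k1 (j + 1) _ (Wf_ρ (by
      rintro U rfl
      exact ⟨A, .inl rfl, hB⟩) (k2 _ _ a0))
    have a5 := k1 _ _ (k3 _ _ a0)
    have a6 := k1 _ _ (Wf_D (k3 _ _ a1))
    simp only [map_add, h2 j (by omega)] at a3 a5 a6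
    have a7 : β (ρ x (c j)) + β (ρ x (β (c j))) + β (D (β (c (j + 1)))) + β (β (c j)) = 0 := by
      linear_combination (norm := abel1) a4 + a5 + a6 - two_self (β (c j))
    rw [a7, add_zero] at a3
    rwa [show ρ x (c j) + ρ x (β (c j)) + D (β (c (j + 1))) + β (c j) =
      ρ x (c j) + D (β (c (j + 1))) + (β (c j) + ρ x (β (c j))) by abel1] at a3
  · simp only [map_add, D_D, ← ρ_D, h2 j (by omega), rr]
    linear_combination (norm := abel1) -two_self (β (c j)) - two_self (ρ x (β (c j)))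
  · have a0 := h1 0 (by omega)
    simp only [map_add, D_D, ← ρ_D, ρ_D0 a0, ρ_D0 (k2 _ _ a0), two_self, add_zero]

lemma inv_main (hx : x * x = 1) {ι : Type*} {A B : ι → Set E} (hA : ∀ i, MapsTo (x • ·) (A i) (B i))
    (hB : ∀ i, MapsTo (x • ·) (B i) (A i)) (hd : ∀ i, Disjoint (A i) (B i)) (t : Finset ι)
    {c : ℕ → C (ZMod 2) E} (h1 : ∀ j ≤ t.card, c j ∈ Wf (A '' t ∪ B '' t) (j + 1))
    (h2 : ∀ j < t.card, D (c (j + 1)) = c j + ρ x (c j)) : D (c 0) = 0 := by
  classical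
  induction t using Finset.induction_on generalizing c with
  | empty =>
    have : c 0 = 0 := map_eq (F := LinearMap.id) (G := 0) (fun s hs => by
      obtain ⟨_, _, h, _⟩ := hs
      simp at h) (h1 0 le_rfl)
    rw [this, map_zero]
  | insert a t ha ih =>
    rw [Finset.card_insert_of_notMem ha] at h1 h2
    obtain ⟨w, w1, w2, w3⟩ := inv_step hx (F := A '' t ∪ B '' t) (by
      rintro _ (⟨i, hi, rfl⟩ | ⟨i, hi, rfl⟩)
      · exact ⟨_, .inr ⟨i, hi, rfl⟩, hA i⟩
      · exact ⟨_, .inl ⟨i, hi, rfl⟩, hB i⟩) (hA a) (hB a) (hd a) (fun j hj => by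
        have := h1 j hj
        rwa [Finset.coe_insert, image_insert_eq, image_insert_eq, insert_union,
          union_insert] at this) h2
    rw [← w3, ih w1 w2]

end inv

theorem Cov.no_inv {π E M : Type*} [Group π] [TopologicalSpace E] [TopologicalSpace M]
    [MulAction π E] [ContinuousConstSMul π E] {p : E → M} (c : Cov π p) [CompactSpace M]
    [ContractibleSpace E] {x : π} (hx : x * x = 1) : x = 1 := by
  by_contra h0
  have hp := c.loc.continuous
  choose s s1 O o1 o2 o3 using c.exists_lift (continuous_id (X := M))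
  obtain ⟨t, ht⟩ := isCompact_univ.elim_finite_subcover O o1 fun y _ => mem_iUnion.2 ⟨y, o2 y⟩
  let S : (π → Prop) → M → Set E := fun φ y => {e | p e ∈ O y ∧ φ (quo π (s y (p e)) e)}
  have hS : ∀ φ y, IsOpen (S φ y) := fun φ y => isOpen_iff_mem_nhds.2 fun e he => by
    have a1 := (o1 y).mem_nhds he.1
    filter_upwards [hp.continuousAt a1, c.quo_ev (s := fun e => s y (p e)) (s' := id)
      (((o3 y).continuousAt a1).comp hp.continuousAt) Filter.tendsto_id (s1 y (p e))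
      (.of_forall fun e => s1 y (p e))] with e' h1 h2
    exact ⟨h1, by rw [show quo π (s y (p e')) e' = _ from h2]; exact he.2⟩
  have hm : ∀ φ ψ : π → Prop, (∀ g, φ g → ψ (x * g)) → ∀ y, MapsTo (x • ·) (S φ y) (S ψ y) :=
    fun φ ψ h y e he => ⟨by rw [c.inv]; exact he.1, by
      rw [c.inv, c.quo_smul_right (s1 y (p e))]; exact h _ he.2⟩
  have xx : ∀ g, x * (x * g) = g := fun g => by rw [← mul_assoc, hx, one_mul]
  let A := S fun g => WellOrderingRel g (x * g)
  let B := S fun g => WellOrderingRel (x * g) g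
  have hU : ⋃ U : ↥(A '' t ∪ B '' t), U.1 = univ := eq_univ_of_forall fun e => by
    obtain ⟨y, y1, y2⟩ := mem_iUnion₂.1 (ht (mem_univ (p e)))
    rcases trichotomous_of WellOrderingRel (quo π (s y (p e)) e) (x * quo π (s y (p e)) e) with
      h | h | h
    · exact mem_iUnion.2 ⟨⟨A y, .inl ⟨y, y1, rfl⟩⟩, y2, h⟩
    · exact (h0 (by simpa using h)).elim
    · exact mem_iUnion.2 ⟨⟨B y, .inr ⟨y, y1, rfl⟩⟩, y2, h⟩
  obtain ⟨y₀, ⟨H⟩⟩ := id_nullhomotopic E
  have : Nonempty E := ⟨y₀⟩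
  have : Nonempty ↥(A '' t ∪ B '' t) := let ⟨U, _⟩ := mem_iUnion.1 (hU.superset (mem_univ y₀)); ⟨U⟩
  obtain ⟨h, hh⟩ := exists_contr (R := ZMod 2) (A := univ) (y₀ := y₀)
    (H := fun q : E × ℝ => H (projIcc 0 1 zero_le_one q.2, q.1))
    (H.continuous.comp ((continuous_projIcc.comp continuous_snd).prodMk
      continuous_fst)).continuousOn (mapsTo_univ _ _) trivial (fun e _ => by simp)
    fun e _ => by simp
  have rr : ∀ a : C (ZMod 2) E, ρ x (ρ x a) = a := fun a => by rw [ρ_mul, hx, ρ_one]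
  let e : C (ZMod 2) E := single (Shared.Sing.mk 0 fun _ => y₀) 1
  have e1 : e ∈ In (ZMod 2) univ 0 := single_In _
  have e2 : D e = 0 := by simp [e, D_single, std, bdL]
  have e3 : ρ x e = e := map_self (A := ∅) (fun _ h => h.elim) (In_zero e1)
  have rI : ∀ n, ∀ a ∈ In (ZMod 2) (univ : Set E) n, ρ x a ∈ In (ZMod 2) (univ : Set E) n :=
    fun n a ha => map_In (continuous_const_smul x).continuousOn (mapsTo_univ _ _) ha
  obtain ⟨a, az, as⟩ : ∃ a : ℕ → C (ZMod 2) E, a 0 = h e ∧ ∀ j, a (j + 1) = h (a j + ρ x (a j)) :=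
    ⟨fun j => Nat.rec (h e) (fun _ b => h (b + ρ x b)) j, rfl, fun _ => rfl⟩
  have a0 : D (a 0) = e := by simpa [az, e2] using (hh 0 e e1).2
  have a1 : ∀ j, a j ∈ In (ZMod 2) univ (j + 1) ∧ D (a j + ρ x (a j)) = 0 := fun j => by
    induction j with
    | zero => exact ⟨az ▸ (hh 0 e e1).1, by rw [map_add, ← ρ_D, a0, e3, two_self]⟩
    | succ j ih =>
      have := hh _ _ (add_mem ih.1 (rI _ _ ih.1))
      rw [ih.2, map_zero, add_zero, ← as] at this
      exact ⟨this.1, by rw [map_add, ← ρ_D, this.2, map_add, rr, add_comm (ρ x _), two_self]⟩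
  have a2 : ∀ j, D (a (j + 1)) = a j + ρ x (a j) := fun j => by
    have := (hh _ _ (add_mem (a1 j).1 (rI _ _ (a1 j).1))).2
    rwa [(a1 j).2, map_zero, add_zero, ← as] at this
  obtain ⟨r, hr⟩ := ((Filter.eventually_all_finite (finite_le_nat t.card)).2 fun j _ =>
    small (U := fun U : ↥(A '' t ∪ B '' t) => U.1) (by
      rintro ⟨_, ⟨y, -, rfl⟩ | ⟨y, -, rfl⟩⟩
      exacts [hS (fun g => WellOrderingRel g (x * g)) y, hS (fun g => WellOrderingRel (x * g) g) y])
      (hU ▸ (a1 j).1)).exists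
  have a3 := inv_main hx (hm (fun g => WellOrderingRel g (x * g))
    (fun g => WellOrderingRel (x * g) g) fun g hg => by rwa [xx])
    (hm (fun g => WellOrderingRel (x * g) g) (fun g => WellOrderingRel g (x * g))
      fun g hg => by rwa [xx])
    (fun y => disjoint_left.2 fun e h1 h2 => asymm h1.2 h2.2) t (c := fun j => (sd ^ r) (a j))
    (A := A) (B := B) (fun j hj => iSup_le (fun U => In_le_Wf U.2 _) (hr j hj)) fun j _ => by
      rw [D_sd, a2, map_add]
      exact congrArg _ (map_sd (continuous_const_smul x).continuousOn (a1 j).1 r).symm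
  obtain ⟨T, t1, t2⟩ := exists_T (R := ZMod 2) (Y := E) r
  have a4 := t2 e
  rw [D_sd, a0] at a3
  rw [a3, e2, In_empty (t1 _ _ _ (In_zero e1))] at a4
  simpa [e] using a4.symm

end Pool.Agent.Lib.MP_c77dc5_gt
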