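import Mathlib

/-! Regular coverings, deck groups and transport along paths. -/

set_option linter.unusedSectionVars false

namespace Pool.Agent.Lib.MP_c77dc5_gt

open Set Filter Topology unitInterval

variable {E M : Type*} [TopologicalSpace E] [TopologicalSpace M]

/-- A local homeomorphism whose fibres are the orbits of a free action. -/
structure Cov (π : Type*) [Group π] [MulAction π E] (p : E → M) : Prop where
  loc : IsLocalHomeomorph p
  surj : Function.Surjective p
  inv : ∀ (g : π) e, p (g • e) = p e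
  trans : ∀ e e', p e = p e' → ∃ g : π, g • e = e'
  free : ∀ (g : π) (e : E), g • e = e → g = 1

open Classical in
/-- The group element which moves `e` to `e'`. -/
noncomputable def quo (π : Type*) [Group π] [MulAction π E] (e e' : E) : π :=
  if h : ∃ g : π, g • e = e' then h.choose else 1

namespace Cov

variable {π : Type*} [Group π] [MulAction π E] {p : E → M} (c : Cov π p)
include c

lemma quo_smul {e e' : E} (h : p e = p e') : quo π e e' • e = e' := by
  rw [quo, dif_pos (c.trans e e' h)]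
  exact (c.trans e e' h).choose_spec

lemma quo_eq {e e' : E} {g : π} (h : g • e = e') : quo π e e' = g := by
  have := c.quo_smul (e := e) (e' := e') (by rw [← h, c.inv])
  subst h
  rw [← inv_smul_eq_iff, ← mul_smul] at this
  exact (inv_mul_eq_one.1 (c.free _ _ this)).symm

lemma quo_smul_right {e e' : E} (h : p e = p e') (g : π) : quo π e (g • e') = g * quo π e e' :=
  c.quo_eq (by rw [mul_smul, c.quo_smul h])

lemma quo_div {e e' e'' : E} (h : p e = p e') (h' : p e = p e'') :
    quo π e e'' * (quo π e e')⁻¹ = quo π e' e'' :=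
  (c.quo_eq (by rw [mul_smul, inv_smul_eq_iff.2 (c.quo_smul h).symm, c.quo_smul h'])).symm

variable [ContinuousConstSMul π E]

lemma quo_ev {A : Type*} {l : Filter A} {s s' : A → E} {e e' : E} (hs : Tendsto s l (𝓝 e))
    (hs' : Tendsto s' l (𝓝 e')) (h0 : p e = p e') (h : ∀ᶠ x in l, p (s x) = p (s' x)) :
    ∀ᶠ x in l, quo π (s x) (s' x) = quo π e e' := by
  obtain ⟨U, hU, he, hi⟩ := c.loc.isLocallyInjective e'
  have h1 : Tendsto (fun x => quo π e e' • s x) l (𝓝 e') := by
    simpa only [c.quo_smul h0] using hs.const_smul (quo π e e')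
  filter_upwards [h1 (hU.mem_nhds he), hs' (hU.mem_nhds he), h] with x h2 h3 h4
  exact c.quo_eq (hi h2 h3 (by rw [c.inv, h4]))

lemma ev_eq {A : Type*} [TopologicalSpace A] {s s' : A → E} {a : A} (hs : ContinuousAt s a)
    (hs' : ContinuousAt s' a) (h : ∀ᶠ x in 𝓝 a, p (s x) = p (s' x)) :
    ∀ᶠ x in 𝓝 a, (s x = s' x ↔ s a = s' a) := by
  have k : ∀ {e e' : E}, p e = p e' → (e = e' ↔ quo π e e' = 1) := fun h =>
    ⟨fun h => c.quo_eq (h ▸ one_smul π _), fun h' => by rw [← c.quo_smul h, h', one_smul]⟩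
  filter_upwards [c.quo_ev hs hs' h.self_of_nhds h, h] with x h1 h2
  rw [k h2, k h.self_of_nhds, h1]

lemma quo_cst {A : Type*} [TopologicalSpace A] {s s' : A → E} {S : Set A} (hS : IsPreconnected S)
    (hs : ContinuousOn s S) (hs' : ContinuousOn s' S) (h : ∀ x, p (s x) = p (s' x)) {x y : A}
    (hx : x ∈ S) (hy : y ∈ S) : quo π (s x) (s' x) = quo π (s y) (s' y) := by
  letI : TopologicalSpace π := ⊥
  haveI : DiscreteTopology π := ⟨rfl⟩
  refine hS.constant (f := fun x => quo π (s x) (s' x)) (fun a ha => ?_) hx hy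
  rw [ContinuousWithinAt, nhds_discrete π, tendsto_pure]
  exact c.quo_ev (hs a ha) (hs' a ha) (h a) (.of_forall h)

lemma exists_lift {A : Type*} [TopologicalSpace A] {f : A → M} (hf : Continuous f) (x : A) :
    ∃ s : A → E, (∀ y, p (s y) = f y) ∧ ∃ O, IsOpen O ∧ x ∈ O ∧ ContinuousOn s O := by
  classical
  obtain ⟨e, he⟩ := c.surj (f x)
  obtain ⟨φ, h1, h2⟩ := c.loc e
  refine ⟨fun y => if f y ∈ φ.target then φ.symm (f y) else Function.surjInv c.surj (f y),
    fun y => ?_, f ⁻¹' φ.target, φ.open_target.preimage hf, ?_,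
    (φ.continuousOn_symm.comp hf.continuousOn fun _ h => h).congr fun y hy => if_pos hy⟩
  · dsimp only
    split_ifs with h
    · exact (congrFun h2 _).trans (φ.right_inv h)
    · exact Function.surjInv_eq _ _
  · rw [mem_preimage, ← he, h2]
    exact φ.map_source h1

end Cov

/-- The group of deck transformations. -/
def deck (p : E → M) : Subgroup (E ≃ₜ E) where
  carrier := {φ | ∀ e, p (φ e) = p e}
  mul_mem' h h' e := (h _).trans (h' e)
  one_mem' _ := rfl
  inv_mem' {φ} h e := by rw [← h]; exact congrArg p (φ.apply_symm_apply e)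

instance (p : E → M) : MulAction (deck p) E where
  smul φ e := φ.1 e
  one_smul _ := rfl
  mul_smul _ _ _ := rfl

instance (p : E → M) : ContinuousConstSMul (deck p) E := ⟨fun φ => φ.1.continuous⟩

theorem cov_deck [LocallyPathConnectedSpace M] [SimplyConnectedSpace E] {p : E → M}
    (hp : IsCoveringMap p) (hs : Function.Surjective p) : Cov (deck p) p := by
  have : LocallyPathConnectedSpace E := by
    rw [locallyPathConnectedSpace_iff_pathComponentIn_mem_nhds]
    intro e U hU he
    obtain ⟨φ, h1, -⟩ := hp.isLocalHomeomorph e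
    obtain ⟨W, ⟨w1, w2⟩, w3⟩ := (path_connected_basis (φ e)).mem_iff.1 (inter_mem
      (φ.open_target.mem_nhds (φ.map_source h1)) (φ.image_mem_nhds h1 (inter_mem
        (hU.mem_nhds he) (φ.open_source.mem_nhds h1))))
    have h2 := φ.symm.image_mem_nhds (φ.map_source h1) w1
    rw [φ.left_inv h1] at h2
    refine mem_of_superset h2 ((w2.image' (φ.continuousOn_symm.mono fun _ h =>
      (w3 h).1)).subset_pathComponentIn (mem_of_mem_nhds h2) ?_)
    rintro _ ⟨w, hw, rfl⟩
    obtain ⟨y, hy, rfl⟩ := (w3 hw).2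
    rw [φ.left_inv hy.2]
    exact hy.1
  have key : ∀ (f : C(E, E)) e, (∀ x, p (f x) = p x) → f e = e → ∀ x, f x = x := fun f e h he =>
    congrFun (hp.eq_of_comp_eq f.continuous continuous_id (funext h) e he)
  refine ⟨hp.isLocalHomeomorph, hs, fun g => g.2, fun e e' h => ?_,
    fun g e h => Subtype.ext (Homeomorph.ext (key ⟨g.1, g.1.continuous⟩ e g.2 h))⟩
  obtain ⟨f, ⟨f1, f2⟩, -⟩ := hp.existsUnique_continuousMap_lifts ⟨p, hp.continuous⟩ e e' h.symm
  obtain ⟨g, ⟨g1, g2⟩, -⟩ := hp.existsUnique_continuousMap_lifts ⟨p, hp.continuous⟩ e' e h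
  have f3 : ∀ x, p (f x) = p x := congrFun f2
  have g3 : ∀ x, p (g x) = p x := congrFun g2
  exact ⟨⟨⟨⟨f, g, key (g.comp f) e (fun x => (g3 _).trans (f3 x)) (by simp [f1, g1]),
    key (f.comp g) e' (fun x => (f3 _).trans (g3 x)) (by simp [f1, g1])⟩, f.continuous,
    g.continuous⟩, f3⟩, f1⟩

/-- Transport along paths for a locally constant cocycle. -/
theorem exists_transport {X G ι : Type*} [TopologicalSpace X] [Group G] (O : ι → Set X)
    (hO : ∀ i, IsOpen (O i)) (hc : ∀ x, ∃ i, x ∈ O i) (c : ι → X → G)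
    (h : ∀ i k, ∀ x ∈ O i, x ∈ O k → ∀ᶠ y in 𝓝 x, c k y * (c i y)⁻¹ = c k x * (c i x)⁻¹) :
    ∃ T : C(I, X) → G, ∀ γ₀ : C(I, X), ∀ i k, γ₀ 0 ∈ O i → γ₀ 1 ∈ O k → ∀ᶠ γ in 𝓝 γ₀,
      c k (γ 1) * T γ * (c i (γ 0))⁻¹ = c k (γ₀ 1) * T γ₀ * (c i (γ₀ 0))⁻¹ := by
  letI : TopologicalSpace G := ⊥
  haveI : DiscreteTopology G := ⟨rfl⟩
  choose ix hix using hc
  let Z : FiberBundleCore ι X G :=
    { baseSet := O
      isOpen_baseSet := hO
      indexAt := ix
      mem_baseSet_at := hix
      coordChange := fun i k x v => c k x * (c i x)⁻¹ * v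
      coordChange_self := fun i x _ v => by simp
      continuousOn_coordChange := fun i k q hq => by
        refine ContinuousAt.continuousWithinAt ?_
        rw [ContinuousAt, nhds_discrete G, tendsto_pure, nhds_prod_eq, nhds_discrete G]
        exact ((h i k _ hq.1.1 hq.1.2).prod_mk (eventually_pure.2 rfl :
          ∀ᶠ v in pure q.2, v = q.2)).mono fun y hy => by rw [hy.1, hy.2]
      coordChange_comp := fun i j k x _ v => by simp [mul_assoc] }
  have cov : IsCoveringMap Z.proj := FiberBundle.isCoveringMap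
  let r : G → Z.TotalSpace → Z.TotalSpace := fun g q => ⟨q.1, (show G from q.2) * g⟩
  have hr : ∀ g, Continuous (r g) := fun g => continuous_iff_continuousAt.2 fun q => by
    have h1 := (FiberBundle.continuousAt_totalSpace G id).1 (continuousAt_id (x := q))
    refine (FiberBundle.continuousAt_totalSpace G _).2 ⟨h1.1, ?_⟩
    exact (((continuous_of_discreteTopology (f := (· * g))).continuousAt).comp h1.2).congr
      (Eventually.of_forall fun y => mul_assoc _ _ _)
  let e : C(I, X) → Z.TotalSpace := fun γ => cov.liftPath γ ⟨γ 0, c (ix (γ 0)) (γ 0)⟩ rfl 1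
  refine ⟨fun γ => (c (ix (e γ).1) (e γ).1)⁻¹ * (show G from (e γ).2), fun γ₀ i k hi hk => ?_⟩
  let A := {γ : C(I, X) | γ 0 ∈ O i}
  have hA : IsOpen A := (hO i).preimage (by fun_prop)
  let f : C(A, Z.TotalSpace) := ⟨fun γ => (Z.localTriv i).toOpenPartialHomeomorph.symm (γ.1 0, 1),
    (Z.localTriv i).toOpenPartialHomeomorph.continuousOn_symm.comp_continuous (by fun_prop)
      fun γ => (Z.localTriv i).mem_target.2 γ.2⟩
  let H : C(I × A, X) := ⟨fun q => q.2.1 q.1, by fun_prop⟩
  let L := cov.liftHomotopy H f fun _ => rfl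
  have h1 : ∀ γ : A, L (1, γ) = r (c i (γ.1 0))⁻¹ (e γ) := fun γ => by
    have := (cov.eq_liftPath_iff (γ := γ.1) (e := f γ) (γ_0 := rfl)
      (Γ := r (c i (γ.1 0))⁻¹ ∘ cov.liftPath γ.1 ⟨γ.1 0, c (ix (γ.1 0)) (γ.1 0)⟩ rfl)).2
      ⟨(hr _).comp (map_continuous _), cov.liftPath_lifts γ.1 _ rfl, by
        rw [Function.comp_apply, cov.liftPath_zero]
        exact congrArg (Bundle.TotalSpace.mk _) (mul_one (M := G) _).symm⟩
    exact (congrFun this 1).symm
  have h2 : ∀ γ, (e γ).1 = γ 1 := fun γ => congrFun (cov.liftPath_lifts γ _ rfl) 1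
  have h3 : ContinuousAt (fun γ : A => (Z.localTriv k (L (1, γ))).2) ⟨γ₀, hi⟩ :=
    continuousAt_snd.comp (((Z.localTriv k).continuousAt (by
      rw [h1]; exact (Z.localTriv k).mem_source.2 (show (e γ₀).1 ∈ O k from h2 γ₀ ▸ hk))).comp
      (f := fun γ : A => L (1, γ)) (by fun_prop))
  rw [ContinuousAt, nhds_discrete G, tendsto_pure] at h3
  have h4 : ∀ γ : A, (Z.localTriv k (L (1, γ))).2 = c k (γ.1 1) *
      ((c (ix (e γ).1) (e γ).1)⁻¹ * (show G from (e γ).2)) * (c i (γ.1 0))⁻¹ := fun γ => by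
    rw [h1, ← h2]
    exact (mul_assoc _ _ _).symm.trans (congrArg (· * _) (mul_assoc _ _ _))
  simp only [h4] at h3
  rw [← hA.isOpenEmbedding_subtypeVal.map_nhds_eq ⟨γ₀, hi⟩]
  exact h3

end Pool.Agent.Lib.MP_c77dc5_gt
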