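import Pool.Agent.Lib.MP_c77dc5_gt.Weight

/-! From a motion planner to the decomposition used in the weight estimate. -/

set_option linter.unusedSectionVars false

namespace Pool.Agent.Lib.MP_c77dc5_gt

open Set Filter Topology unitInterval Pool.Agent.Shared.Sing

lemma glue {N E W J : Type*} [TopologicalSpace N] [TopologicalSpace E] {p : E → W}
    (hp : Function.Surjective p) (f : N → W) {A : J → Set N} (hA : ∀ j, IsOpen (A j))
    {g : J → N → E} (h1 : ∀ j, ∀ x ∈ A j, p (g j x) = f x) (h2 : ∀ j, ContinuousOn (g j) (A j))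
    (h3 : ∀ j j', ∀ x ∈ A j, x ∈ A j' → g j x = g j' x) :
    ∃ G : N → E, (∀ x, p (G x) = f x) ∧ ContinuousOn G (⋃ j, A j) := by
  classical
  refine ⟨fun x => if h : ∃ j, x ∈ A j then g h.choose x else Function.surjInv hp (f x),
    fun x => ?_, (continuousOn_iUnion_iff_of_isOpen hA).2 fun j => (h2 j).congr fun x hx => ?_⟩
  · dsimp only
    split_ifs with h
    exacts [h1 _ _ h.choose_spec, Function.surjInv_eq _ _]
  · have h : ∃ j, x ∈ A j := ⟨j, hx⟩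
    exact (dif_pos h).trans (h3 _ _ x h.choose_spec hx)

lemma exists_strata {N ι : Type*} [TopologicalSpace N] [NormalSpace N] [ParacompactSpace N]
    [Fintype ι] {O : ι → Set N} (hO : ∀ a, IsOpen (O a)) (hc : ∀ x, ∃ a, x ∈ O a) :
    ∃ W : Finset ι → Set N, (∀ S, IsOpen (W S)) ∧ (∀ S, ∀ a ∈ S, W S ⊆ O a) ∧
      (∀ x, ∃ S, S.Nonempty ∧ x ∈ W S) ∧ ∀ S S', ∀ x ∈ W S, x ∈ W S' → S ⊆ S' ∨ S' ⊆ S := by
  classical
  obtain ⟨φ, hφ⟩ := PartitionOfUnity.exists_isSubordinate isClosed_univ O hO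
    fun x _ => mem_iUnion.2 (hc x)
  refine ⟨fun S => {x | ∀ a ∈ S, 0 < φ a x ∧ ∀ b ∉ S, φ b x < φ a x}, fun S => ?_,
    fun S a ha x hx => hφ a (subset_tsupport _ (hx a ha).1.ne'), fun x => ⟨Finset.univ.filter
      fun a => 0 < φ a x, ?_, fun a ha => ⟨by simpa using ha, fun b hb => ?_⟩⟩, fun S S' x h h' => ?_⟩
  · simp only [ofPred_forall, ofPred_and]
    exact isOpen_iInter_of_finite fun a => isOpen_iInter_of_finite fun _ =>
      (isOpen_lt continuous_const (φ a).continuous).inter (isOpen_iInter_of_finite fun b =>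
        isOpen_iInter_of_finite fun _ => isOpen_lt (φ b).continuous (φ a).continuous)
  · obtain ⟨a, ha⟩ := φ.exists_pos (mem_univ x)
    exact ⟨a, by simpa using ha⟩
  · exact lt_of_le_of_lt (by simpa using hb) (by simpa using ha : 0 < φ a x)
  · by_contra h0
    obtain ⟨⟨a, a1, a2⟩, b, b1, b2⟩ : (∃ a ∈ S, a ∉ S') ∧ ∃ b ∈ S', b ∉ S := by
      simpa [Finset.not_subset] using h0
    exact lt_asymm ((h a a1).2 b b2) ((h' b b1).2 a a2)

variable {π₁ π₂ : Type*} [Group π₁] [Group π₂] {E₁ E₂ M₁ M₂ : Type*} [TopologicalSpace E₁]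
  [TopologicalSpace E₂] [TopologicalSpace M₁] [TopologicalSpace M₂]
  [MulAction π₁ E₁] [MulAction π₂ E₂] [ContinuousConstSMul π₁ E₁] [ContinuousConstSMul π₂ E₂]
  {p₁ : E₁ → M₁} {p₂ : E₂ → M₂} (c₁ : Cov π₁ p₁) (c₂ : Cov π₂ p₂)
include c₁ c₂

theorem decomp {N : Type*} [TopologicalSpace N] [NormalSpace N] [ParacompactSpace N]
    (f : N → M₁ × M₂) {k : ℕ} {O : Option (Fin k) → Set N} (hO : ∀ a, IsOpen (O a))
    (hc : ∀ x, ∃ a, x ∈ O a) {μ : N → E₁} {L : Fin k → N → E₂} {K : Fin k → Fin k → N → E₁}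
    (l1 : ∀ x, p₁ (μ x) = (f x).1) (l2 : ∀ i, ∀ x ∈ O (some i), p₂ (L i x) = (f x).2)
    (l3 : ∀ i j, ∀ x ∈ O (some i), p₁ (K i j x) = (f x).1) (n1 : ContinuousOn μ (O none))
    (n2 : ∀ i, ContinuousOn (L i) (O (some i))) (n3 : ∀ i j, ContinuousOn (K i j)
      {x | x ∈ O (some i) ∧ x ∈ O (some j) ∧ L i x ≠ L j x}) :
    ∃ (C₁ C₂ : Set N) (F : ℕ → Set N) (ν : N → E₂) (l : ℕ → N → E₁ × E₂), IsOpen C₁ ∧ IsOpen C₂ ∧
      (∀ j, IsOpen (F j)) ∧ Disjoint C₁ C₂ ∧ (∀ x, x ∈ C₁ ∨ x ∈ C₂ ∨ ∃ j < k, x ∈ F j) ∧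
      (∀ x, p₂ (ν x) = (f x).2) ∧ (∀ j x, Prod.map p₁ p₂ (l j x) = f x) ∧ ContinuousOn μ C₂ ∧
      ContinuousOn ν C₁ ∧ ∀ j, ContinuousOn (l j) (F j) := by
  classical
  obtain ⟨W, w1, w2, w3, w4⟩ := exists_strata hO hc
  let pat (S : Finset (Option (Fin k))) (x : N) : Set (Fin k × Fin k) :=
    {q | some q.1 ∈ S ∧ some q.2 ∈ S ∧ L q.1 x ≠ L q.2 x}
  let A (q : Finset (Option (Fin k)) × Set (Fin k × Fin k)) := {x | x ∈ W q.1 ∧ pat q.1 x = q.2}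
  have hA : ∀ q, IsOpen (A q) := fun q => isOpen_iff_eventually.2 fun x hx => by
    have : ∀ᶠ y in 𝓝 x, ∀ r : Fin k × Fin k, r ∈ pat q.1 y ↔ r ∈ pat q.1 x :=
      eventually_all.2 fun r => by
        by_cases h : some r.1 ∈ q.1 ∧ some r.2 ∈ q.1
        · have h1 := (hO _).mem_nhds (w2 _ _ h.1 hx.1)
          have h2 := (hO _).mem_nhds (w2 _ _ h.2 hx.1)
          filter_upwards [c₂.ev_eq ((n2 _).continuousAt h1) ((n2 _).continuousAt h2) (by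
            filter_upwards [h1, h2] with y h1 h2 using (l2 _ _ h1).trans (l2 _ _ h2).symm)] with y hy
          simp [pat, hy]
        · exact .of_forall fun y => iff_of_false (fun h' => h ⟨h'.1, h'.2.1⟩) fun h' =>
            h ⟨h'.1, h'.2.1⟩
    filter_upwards [this, (w1 _).mem_nhds hx.1] with y h1 h2 using ⟨h2, (Set.ext h1).trans hx.2⟩
  have coh : ∀ S i j, some i ∈ S → some j ∈ S → ∀ x ∈ A (S, ∅), L i x = L j x :=
    fun S i j hi hj x hx => by_contra fun h => hx.2.le (show (i, j) ∈ pat S x from ⟨hi, hj, h⟩)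
  obtain ⟨ν, v1, v2⟩ := glue c₂.surj (fun x => (f x).2)
    (J := {q : Finset (Option (Fin k)) × Fin k // none ∉ q.1 ∧ some q.2 ∈ q.1})
    (A := fun q => A (q.1.1, ∅)) (fun _ => hA _) (g := fun q => L q.1.2)
    (fun q x hx => l2 _ _ (w2 _ _ q.2.2 hx.1)) (fun q => (n2 _).mono fun x hx => w2 _ _ q.2.2 hx.1)
    fun q q' x h h' => (w4 _ _ x h.1 h'.1).elim (fun e => coh _ _ _ (e q.2.2) q'.2.2 x h')
      fun e => coh _ _ _ q.2.2 (e q'.2.2) x h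
  let J (j : ℕ) := {q : Finset (Option (Fin k)) × Set (Fin k × Fin k) //
    q.1.card = j + 2 ∧ (none ∈ q.1 ∨ q.2.Nonempty)}
  have hJ : ∀ j, ∀ q : J j, ∃ g : N → E₁ × E₂, (∀ x ∈ A q.1, Prod.map p₁ p₂ (g x) = f x) ∧
      ContinuousOn g (A q.1) := by
    rintro j ⟨⟨S, D⟩, h1, h2 | ⟨r, hr⟩⟩
    · obtain ⟨_ | i, h3, h4⟩ := Finset.exists_mem_ne (s := S) (by dsimp only at h1; omega) none
      · exact (h4 rfl).elim
      exact ⟨fun x => (μ x, L i x), fun x hx => Prod.ext (l1 x) (l2 _ _ (w2 _ _ h3 hx.1)),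
        (n1.mono fun x hx => w2 _ _ h2 hx.1).prodMk ((n2 i).mono fun x hx => w2 _ _ h3 hx.1)⟩
    · have h3 : ∀ x ∈ A (S, D), x ∈ O (some r.1) ∧ x ∈ O (some r.2) ∧ L r.1 x ≠ L r.2 x :=
        fun x hx => have := hx.2.ge hr; ⟨w2 _ _ this.1 hx.1, w2 _ _ this.2.1 hx.1, this.2.2⟩
      exact ⟨fun x => (K r.1 r.2 x, L r.1 x), fun x hx => Prod.ext (l3 _ _ _ (h3 x hx).1)
        (l2 _ _ (h3 x hx).1), ((n3 _ _).mono h3).prodMk ((n2 _).mono fun x hx => (h3 x hx).1)⟩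
  choose g g1 g2 using hJ
  choose l u1 u2 using fun j => glue (c₁.prod c₂).surj f (A := fun q : J j => A q.1)
    (fun _ => hA _) (g1 j) (g2 j) fun q q' x h h' => by
      have e : q.1.1 = q'.1.1 := (w4 _ _ x h.1 h'.1).elim
        (fun e => Finset.eq_of_subset_of_card_le e (by rw [q.2.1, q'.2.1]))
        fun e => (Finset.eq_of_subset_of_card_le e (by rw [q.2.1, q'.2.1])).symm
      rw [show q = q' from Subtype.ext (Prod.ext e (by rw [← h.2, ← h'.2, e]))]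
  refine ⟨_, W {none}, _, ν, l, isOpen_iUnion fun _ => hA _, w1 _, fun j => isOpen_iUnion
    fun _ => hA _, disjoint_iUnion_left.2 fun q => disjoint_left.2 fun x h h' => ?_, fun x => ?_,
    v1, u1, n1.mono (w2 _ _ (Finset.mem_singleton_self _)), v2, u2⟩
  · exact (w4 _ _ x h.1 h').elim (fun e => by simpa using e q.2.2)
      fun e => q.2.1 (e (Finset.mem_singleton_self _))
  obtain ⟨S, ⟨a, ha⟩, hx⟩ := w3 x
  have hS : S.card ≤ k + 1 := by simpa using S.card_le_univ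
  have key : 1 < S.card → none ∈ S ∨ (pat S x).Nonempty → ∃ j < k, x ∈ ⋃ q : J j, A q.1 :=
    fun h h' => ⟨S.card - 2, by omega, mem_iUnion.2 ⟨⟨(S, _), by dsimp only; omega, h'⟩, hx, rfl⟩⟩
  by_cases h0 : none ∈ S
  · by_cases h1 : 1 < S.card
    · exact .inr (.inr (key h1 (.inl h0)))
    · exact .inr (.inl (by rwa [← Finset.eq_singleton_iff_unique_mem.2 ⟨h0, fun b hb =>
        Finset.card_le_one.1 (not_lt.1 h1) b hb _ h0⟩]))
  rcases (pat S x).eq_empty_or_nonempty with h1 | ⟨r, hr⟩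
  · obtain _ | i := a
    · exact (h0 ha).elim
    exact .inl (mem_iUnion.2 ⟨⟨(S, i), h0, ha⟩, hx, h1⟩)
  · exact .inr (.inr (key (Finset.one_lt_card.2 ⟨_, hr.1, _, hr.2.1, fun e =>
      hr.2.2 (by rw [Option.some.inj e])⟩) (.inr ⟨r, hr⟩)))

open RegularWreathProduct in
theorem exists_LK {X : Type*} [TopologicalSpace X] {V₁ V₂ : Set X} (o1 : IsOpen V₁)
    (o2 : IsOpen V₂) (hV : ∀ x, x ∈ V₁ ∨ x ∈ V₂) {f₁ : X → M₁} {f₂ : X → M₂} (h1 : Continuous f₁)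
    (h2 : Continuous f₂) {μ₁ : X → E₁} {μ₂ : X → E₂} (l1 : ∀ x, p₁ (μ₁ x) = f₁ x)
    (l2 : ∀ x, p₂ (μ₂ x) = f₂ x) (m1 : ContinuousOn μ₁ V₂) (m2 : ContinuousOn μ₂ V₁) :
    ∃ (L : C(I, X) → E₂) (K : C(I, X) × C(I, X) → E₁), (∀ γ, p₂ (L γ) = f₂ (γ 1)) ∧
      (∀ q, p₁ (K q) = f₁ (q.1 0)) ∧ ContinuousOn L {γ | γ 0 ∈ V₁} ∧ ContinuousOn K
        {q | q.1 0 ∈ V₁ ∧ q.2 0 = q.1 0 ∧ q.2 1 = q.1 1 ∧ L q.1 ≠ L q.2} := by
  classical
  choose s hs O a1 a2 a3 using c₁.exists_lift h1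
  choose s' hs' O' b1 b2 b3 using c₂.exists_lift h2
  let j : π₁ →* RegularWreathProduct π₁ π₂ := MonoidHom.mk' (fun a => ⟨Pi.mulSingle 1 a, 1⟩)
    fun a b => by ext <;> simp [Pi.mulSingle_mul]
  let Ω : X ⊕ X → Set X := Sum.elim (fun x => O x ∩ V₁) fun x => O' x ∩ V₂
  let c : X ⊕ X → X → RegularWreathProduct π₁ π₂ :=
    Sum.elim (fun x y => j (quo π₁ (μ₁ y) (s x y))) fun x y => inl (quo π₂ (μ₂ y) (s' x y))
  have hΩ : ∀ i, IsOpen (Ω i) := by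
    rintro (x | x)
    exacts [(a1 x).inter o1, (b1 x).inter o2]
  have hc : ∀ x, ∃ i, x ∈ Ω i := fun x =>
    (hV x).elim (fun h => ⟨.inl x, a2 x, h⟩) fun h => ⟨.inr x, b2 x, h⟩
  have e1 : ∀ x y, p₁ (μ₁ y) = p₁ (s x y) := fun x y => (l1 y).trans (hs x y).symm
  have e2 : ∀ x y, p₂ (μ₂ y) = p₂ (s' x y) := fun x y => (l2 y).trans (hs' x y).symm
  have mix : ∀ i, ∀ x ∈ Ω i, x ∈ V₁ → x ∈ V₂ → ∀ᶠ y in 𝓝 x, c i y = c i x := by
    rintro (a | a) x hx v1 v2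
    · exact (c₁.quo_ev (m1.continuousAt (o2.mem_nhds v2)) ((a3 a).continuousAt
        ((a1 a).mem_nhds hx.1)) (e1 a x) (.of_forall (e1 a))).mono fun y hy => congrArg j hy
    · exact (c₂.quo_ev (m2.continuousAt (o1.mem_nhds v1)) ((b3 a).continuousAt
        ((b1 a).mem_nhds hx.1)) (e2 a x) (.of_forall (e2 a))).mono fun y hy => congrArg inl hy
  obtain ⟨T, hT⟩ := exists_transport Ω hΩ hc c (by
    rintro (a | a) (b | b) x ha hb
    · filter_upwards [c₁.quo_ev ((a3 a).continuousAt ((a1 a).mem_nhds ha.1)) ((a3 b).continuousAt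
        ((a1 b).mem_nhds hb.1)) ((hs _ _).trans (hs _ _).symm)
        (.of_forall fun y => (hs _ _).trans (hs _ _).symm)] with y hy
      simp only [c, Sum.elim_inl, ← map_inv, ← map_mul, c₁.quo_div (e1 _ _) (e1 _ _), hy]
    · filter_upwards [mix _ x ha ha.2 hb.2, mix _ x hb ha.2 hb.2] with y h h'
      rw [h, h']
    · filter_upwards [mix _ x ha hb.2 ha.2, mix _ x hb hb.2 ha.2] with y h h'
      rw [h, h']
    · filter_upwards [c₂.quo_ev ((b3 a).continuousAt ((b1 a).mem_nhds ha.1)) ((b3 b).continuousAt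
        ((b1 b).mem_nhds hb.1)) ((hs' _ _).trans (hs' _ _).symm)
        (.of_forall fun y => (hs' _ _).trans (hs' _ _).symm)] with y hy
      simp only [c, Sum.elim_inr, ← map_inv, ← map_mul, c₂.quo_div (e2 _ _) (e2 _ _), hy])
  have ev : ∀ t, Continuous fun γ : C(I, X) => γ t := fun t => by fun_prop
  have hR : ∀ i, ContinuousOn (fun y => (c i y).right • μ₂ y) (Ω i) := by
    rintro (a | a)
    · exact (m2.mono inter_subset_right).congr fun y _ => one_smul _ _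
    · exact ((b3 a).mono inter_subset_left).congr fun y _ => c₂.quo_smul (e2 a y)
  refine ⟨fun γ => (T γ).right⁻¹ • μ₂ (γ 1), fun q => (((T q.1)⁻¹ * T q.2).left 1)⁻¹ • μ₁ (q.1 0),
    fun γ => by rw [c₂.inv, l2], fun q => by rw [c₁.inv, l1], fun γ₀ h0 => ?_, fun q₀ h0 => ?_⟩
  · obtain ⟨k, hk⟩ := hc (γ₀ 1)
    refine (((((hR k).continuousAt ((hΩ k).mem_nhds hk)).comp (f := fun γ : C(I, X) => γ 1)
      (ev 1).continuousAt).const_smul ((c k (γ₀ 1)).right * (T γ₀).right)⁻¹).congr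
      ?_).continuousWithinAt
    filter_upwards [hT γ₀ (.inl _) k ⟨a2 _, h0⟩ hk] with γ hγ
    have : (c k (γ 1)).right * (T γ).right * 1⁻¹ = (c k (γ₀ 1)).right * (T γ₀).right * 1⁻¹ :=
      congrArg RegularWreathProduct.right hγ
    rw [mul_right_cancel_iff] at this
    simp [← this, mul_smul]
  · obtain ⟨k, hk⟩ := hc (q₀.1 1)
    have i0 : q₀.1 0 ∈ Ω (.inl (q₀.1 0)) := ⟨a2 _, h0.1⟩
    let g := (c k (q₀.1 1) * T q₀.1 * (c (.inl (q₀.1 0)) (q₀.1 0))⁻¹)⁻¹ *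
      (c k (q₀.2 1) * T q₀.2 * (c (.inl (q₀.1 0)) (q₀.2 0))⁻¹)
    refine ((((a3 (q₀.1 0)).continuousAt ((a1 _).mem_nhds (a2 _))).comp
      (f := fun q : C(I, X) × C(I, X) => q.1 0) ((ev 0).comp continuous_fst).continuousAt).const_smul
      (g.left 1)⁻¹).continuousWithinAt.congr_of_eventuallyEq_of_mem ?_ h0
    filter_upwards [nhdsWithin_le_nhds (continuousAt_fst.eventually (hT q₀.1 _ k i0 hk)),
      nhdsWithin_le_nhds (continuousAt_snd.eventually (hT q₀.2 (.inl (q₀.1 0)) k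
        (by rwa [h0.2.1]) (by rwa [h0.2.2.1]))), self_mem_nhdsWithin] with q t1 t2 hq
    have t3 : (T q.1).right⁻¹ * (T q.2).right ≠ 1 := fun h =>
      hq.2.2.2 (by rw [hq.2.2.1, inv_mul_eq_one.1 h])
    have t4 : g = j (quo π₁ (μ₁ (q.1 0)) (s (q₀.1 0) (q.1 0))) * ((T q.1)⁻¹ * T q.2) *
        (j (quo π₁ (μ₁ (q.1 0)) (s (q₀.1 0) (q.1 0))))⁻¹ := by
      simp only [g, ← t1, ← t2, hq.2.1, hq.2.2.1]
      simp [c, mul_assoc]
    change _ = (g.left 1)⁻¹ • s (q₀.1 0) (q.1 0)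
    rw [← c₁.quo_smul (e1 (q₀.1 0) (q.1 0)), ← mul_smul, t4]
    replace t3 : ((T q.1)⁻¹ * T q.2).right⁻¹ ≠ 1 := inv_ne_one.2 t3
    generalize (T q.1)⁻¹ * T q.2 = t at t3
    simp [j, Pi.mulSingle_eq_of_ne t3]

end Pool.Agent.Lib.MP_c77dc5_gt
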