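import Mathlib

/-! Topological complexity, aspherical spaces and connected sums. -/

namespace Pool.Agent.Lib.MP_c77dc5_gt

open Set unitInterval

universe u

/-- The non-normalised topological complexity: the least number `k` of open sets which cover
`X × X` and carry a continuous section of the endpoint map `C(I, X) → X × X`
(the value is `⊤` if there is no such `k`). -/
noncomputable def TC (X : Type*) [TopologicalSpace X] : ℕ∞ :=
  sInf ((↑) '' {k : ℕ | ∃ U : Fin k → Set (X × X), (∀ i, IsOpen (U i)) ∧ ⋃ i, U i = univ ∧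
    ∀ i, ∃ s : C(U i, C(I, X)), ∀ x, s x 0 = x.1.1 ∧ s x 1 = x.1.2})

/-- A manifold is aspherical if its universal cover is contractible, that is, if it is covered by
a contractible space. -/
def Aspherical (M : Type u) [TopologicalSpace M] : Prop :=
  ∃ (E : Type u) (_ : TopologicalSpace E) (p : E → M),
    ContractibleSpace E ∧ IsCoveringMap p ∧ Function.Surjective p

/-- The connected sum along two coordinate discs `e₁`, `e₂` (Kervaire and Milnor): remove the two
centres and identify `e₁ (t • u)` with `e₂ ((1 - t) • u)` for unit vectors `u` and `0 < t < 1`.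
It carries the quotient topology. -/
abbrev ConnSum {n : ℕ} {M₁ M₂ : Type*} (e₁ : EuclideanSpace ℝ (Fin n) → M₁)
    (e₂ : EuclideanSpace ℝ (Fin n) → M₂) :=
  Quot fun a b : {x : M₁ // x ≠ e₁ 0} ⊕ {y : M₂ // y ≠ e₂ 0} =>
    ∃ x y, a = Sum.inl x ∧ b = Sum.inr y ∧ ∃ u : EuclideanSpace ℝ (Fin n), ‖u‖ = 1 ∧
      ∃ t : ℝ, 0 < t ∧ t < 1 ∧ x.1 = e₁ (t • u) ∧ y.1 = e₂ ((1 - t) • u)

end Pool.Agent.Lib.MP_c77dc5_gt
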