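import Mathlib

/-!
Definitions: topological complexity and connected sums.
-/

namespace Pool.Agent.Lib.MP_c77dc5_gt.H72

/-- `X × X` is covered by `k` open sets, each carrying a continuous section of the endpoint map
`C([0,1], X) → X × X` (compact-open topology). -/
def HasMotionPlanner (X : Type*) [TopologicalSpace X] (k : ℕ) : Prop :=
  ∃ U : Fin k → Set (X × X), (∀ j, IsOpen (U j)) ∧ ⋃ j, U j = Set.univ ∧
    ∀ j, ∃ s : C(U j, C(unitInterval, X)), ∀ u : U j, s u 0 = u.1.1 ∧ s u 1 = u.1.2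

/-- Non-normalised topological complexity: the least `k` with `HasMotionPlanner X k`
(and `⊤` if there is none). -/
noncomputable def TC (X : Type*) [TopologicalSpace X] : ℕ∞ :=
  ⨅ (k : ℕ) (_ : HasMotionPlanner X k), (k : ℕ∞)

/-- The gluing relation of the connected sum: `e₁ u` is identified with `e₂ (u / ‖u‖ ^ 2)`
for `u ≠ 0`. -/
def GlueRel {n : ℕ} {M₁ M₂ : Type*} (e₁ : EuclideanSpace ℝ (Fin n) → M₁)
    (e₂ : EuclideanSpace ℝ (Fin n) → M₂)
    (p q : {a : M₁ // a ≠ e₁ 0} ⊕ {b : M₂ // b ≠ e₂ 0}) : Prop :=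
  ∃ (a : {a : M₁ // a ≠ e₁ 0}) (b : {b : M₂ // b ≠ e₂ 0}) (u : EuclideanSpace ℝ (Fin n)),
    p = Sum.inl a ∧ q = Sum.inr b ∧ u ≠ 0 ∧ a.1 = e₁ u ∧ b.1 = e₂ ((‖u‖ ^ 2)⁻¹ • u)

/-- The connected sum along the charts `e₁`, `e₂`: the quotient space of the disjoint union of
the two punctured manifolds by the gluing relation. -/
abbrev ConnSum {n : ℕ} {M₁ M₂ : Type*} (e₁ : EuclideanSpace ℝ (Fin n) → M₁)
    (e₂ : EuclideanSpace ℝ (Fin n) → M₂) := Quot (GlueRel e₁ e₂)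

end Pool.Agent.Lib.MP_c77dc5_gt.H72
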