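import Pool.Agent.Lib.MP_c77dc5_gt.H72Core
import Pool.Agent.Lib.MP_c77dc5_gt.H72Defs
import Pool.Agent.Shared.H72Sing.WeakContr

/-!
Connected sums: point-set properties and the collapse maps.
-/

namespace Pool.Agent.Lib.MP_c77dc5_gt.H72

open Set Pool.Agent.Shared.H72Sing Topology Metric

section LocEuc

variable {d : ℕ} {N N' : Type*} [TopologicalSpace N] [TopologicalSpace N']

theorem locEuc_of_isOpenEmbedding_left (h : LocEuc d N) {f : N' → N} (hf : IsOpenEmbedding f) :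
    LocEuc d N' := by
  intro p
  obtain ⟨e, he, x, hx⟩ := h (f p)
  obtain ⟨r, hr, h'⟩ := Metric.mem_nhds_iff.1 (e.continuous.continuousAt.preimage_mem_nhds
    (hf.isOpen_range.mem_nhds ⟨p, hx.symm⟩))
  let φ := OpenPartialHomeomorph.univBall (E := Fin d → ℝ) x r
  have hφ : IsOpenEmbedding φ := φ.isOpenEmbedding (OpenPartialHomeomorph.univBall_source x r)
  have hφ' : ∀ y, φ y ∈ ball x r := fun y => by
    rw [← OpenPartialHomeomorph.univBall_target (E := Fin d → ℝ) x hr]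
    exact φ.map_source (by rw [OpenPartialHomeomorph.univBall_source]; trivial)
  choose g hg using fun y => h' (hφ' y)
  have e1 : f ∘ g = e ∘ φ := funext hg
  have e2 : IsOpenEmbedding g := by
    rw [← hf.of_comp_iff, e1]; exact he.comp hφ
  refine ⟨⟨g, e2.continuous⟩, e2, 0, hf.injective ?_⟩
  change f (g 0) = f p
  rw [hg, OpenPartialHomeomorph.univBall_apply_zero, hx]

theorem locEuc_prod {d' : ℕ} (h : LocEuc d N) (h' : LocEuc d' N') : LocEuc (d + d') (N × N') := by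
  rintro ⟨p, p'⟩
  obtain ⟨e, he, x, rfl⟩ := h p
  obtain ⟨e', he', x', rfl⟩ := h' p'
  have := (he.prodMap he').comp (Fin.appendHomeomorph (X := ℝ) d d').symm.isOpenEmbedding
  exact ⟨⟨_, this.continuous⟩, this, Fin.appendHomeomorph d d' (x, x'), by simp⟩

theorem locEuc_of_chartedSpace [ChartedSpace (EuclideanSpace ℝ (Fin d)) N] : LocEuc d N := by
  intro p
  let φ := chartAt (EuclideanSpace ℝ (Fin d)) p
  have h1 : LocEuc d (EuclideanSpace ℝ (Fin d)) := fun x =>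
    have := (EuclideanSpace.equiv (Fin d) ℝ).toHomeomorph.symm
    ⟨⟨this, this.continuous⟩, this.isOpenEmbedding, this.surjective x⟩
  obtain ⟨e, he, x, hx⟩ := locEuc_of_isOpenEmbedding_left h1 φ.isOpenEmbedding_restrict
    ⟨p, mem_chart_source _ p⟩
  have := φ.open_source.isOpenEmbedding_subtypeVal.comp he
  exact ⟨⟨_, this.continuous⟩, this, x, by simp [hx]⟩

end LocEuc

section Inv

variable {E : Type*} [NormedAddCommGroup E] [NormedSpace ℝ E]

/-- Inversion in the unit sphere. -/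
noncomputable def sinv (u : E) : E := (‖u‖ ^ 2)⁻¹ • u

theorem norm_sinv (u : E) : ‖sinv u‖ = ‖u‖⁻¹ := by
  rw [sinv, norm_smul, norm_inv, norm_pow, norm_norm]
  by_cases h : ‖u‖ = 0
  · simp [h]
  · field_simp

theorem sinv_sinv (u : E) : sinv (sinv u) = u := by
  rw [sinv, norm_sinv, sinv, smul_smul]
  by_cases h : u = 0
  · simp [h]
  · have : ‖u‖ ≠ 0 := norm_ne_zero_iff.2 h
    rw [show (‖u‖⁻¹ ^ 2)⁻¹ * (‖u‖ ^ 2)⁻¹ = 1 by field_simp, one_smul]

theorem sinv_ne_zero {u : E} (h : u ≠ 0) : sinv u ≠ 0 := by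
  rw [← norm_ne_zero_iff, norm_sinv]
  exact inv_ne_zero (norm_ne_zero_iff.2 h)

theorem continuousOn_sinv : ContinuousOn (sinv : E → E) {0}ᶜ :=
  ContinuousOn.smul (ContinuousOn.inv₀ (by fun_prop) fun _ hu =>
    pow_ne_zero 2 (norm_ne_zero_iff.2 hu)) continuousOn_id

theorem exists_collapse [ProperSpace E] {M : Type*} [TopologicalSpace M] [T2Space M] {e : E → M}
    (he : IsOpenEmbedding e) : ∃ r : C(M, M), (∀ u, ‖u‖ ≤ 1 → r (e u) = e 0) ∧
      (∀ a ∉ e '' closedBall 0 2, r a = a) ∧ ∀ a ∈ e '' closedBall 0 2, r a ∈ e '' closedBall 0 2 := by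
  classical
  let ρ : E → E := fun u => min 1 (max 0 (‖u‖ - 1)) • u
  have hρ : Continuous ρ := by fun_prop
  let r : M → M := fun a => if h : a ∈ range e then e (ρ h.choose) else a
  have hr : ∀ u, r (e u) = e (ρ u) := fun u => by
    have : e u ∈ range e := ⟨u, rfl⟩
    simp only [r, dif_pos this, he.injective this.choose_spec]
  have hr' : ∀ a ∉ e '' closedBall 0 2, r a = a := by
    intro a ha
    by_cases h : a ∈ range e
    · obtain ⟨u, rfl⟩ := h
      have : 2 < ‖u‖ := not_le.1 fun h => ha ⟨u, by simpa using h, rfl⟩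
      rw [hr]
      simp only [ρ]
      rw [max_eq_right (by linarith), min_eq_left (by linarith), one_smul]
    · exact dif_neg h
  refine ⟨⟨r, continuous_iff_continuousAt.2 fun a => ?_⟩, fun u hu => ?_, hr', ?_⟩
  · by_cases h : a ∈ range e
    · obtain ⟨u, rfl⟩ := h
      rw [← he.continuousAt_iff]
      have : r ∘ e = e ∘ ρ := funext hr
      rw [this]
      exact (he.continuous.comp hρ).continuousAt
    · refine continuousAt_id.congr ?_
      filter_upwards [((isCompact_closedBall (0 : E) 2).image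
        he.continuous).isClosed.isOpen_compl.mem_nhds fun h' => h (image_subset_range _ _ h')]
        with b hb
      exact (hr' b hb).symm
  · change r _ = _
    rw [hr]
    simp only [ρ]
    rw [max_eq_left (by linarith), min_eq_right zero_le_one, zero_smul]
  · rintro _ ⟨u, hu, rfl⟩
    refine ⟨ρ u, ?_, (hr u).symm⟩
    rw [mem_closedBall_zero_iff] at hu ⊢
    rw [norm_smul, Real.norm_of_nonneg (le_min zero_le_one (le_max_left _ _))]
    exact (mul_le_of_le_one_left (norm_nonneg _) (min_le_left _ _)).trans hu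

end Inv

/-- Abstract description of a connected sum. -/
structure CS (E M₁ M₂ X : Type*) [NormedAddCommGroup E] [NormedSpace ℝ E] [TopologicalSpace M₁]
    [TopologicalSpace M₂] [TopologicalSpace X] where
  e₁ : E → M₁
  e₂ : E → M₂
  j₁ : {a : M₁ // a ≠ e₁ 0} → X
  j₂ : {b : M₂ // b ≠ e₂ 0} → X
  he₁ : IsOpenEmbedding e₁
  he₂ : IsOpenEmbedding e₂
  hj₁ : IsOpenEmbedding j₁
  hj₂ : IsOpenEmbedding j₂
  cover : ∀ x, x ∈ range j₁ ∨ x ∈ range j₂
  glue : ∀ a b, j₁ a = j₂ b ↔ ∃ u, u ≠ 0 ∧ a.1 = e₁ u ∧ b.1 = e₂ (sinv u)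

namespace CS

variable {E M₁ M₂ X : Type*} [NormedAddCommGroup E] [NormedSpace ℝ E] [TopologicalSpace M₁]
  [TopologicalSpace M₂] [TopologicalSpace X] (D : CS E M₁ M₂ X)

/-- Exchange of the two summands. -/
def symm : CS E M₂ M₁ X where
  e₁ := D.e₂
  e₂ := D.e₁
  j₁ := D.j₂
  j₂ := D.j₁
  he₁ := D.he₂
  he₂ := D.he₁
  hj₁ := D.hj₂
  hj₂ := D.hj₁
  cover x := (D.cover x).symm
  glue a b := by
    rw [eq_comm, D.glue]
    constructor
    · rintro ⟨u, h1, h2, h3⟩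
      exact ⟨sinv u, sinv_ne_zero h1, h3, by rwa [sinv_sinv]⟩
    · rintro ⟨u, h1, h2, h3⟩
      exact ⟨sinv u, sinv_ne_zero h1, h3, by rwa [sinv_sinv]⟩

theorem mem_range_j₂ {a : {a : M₁ // a ≠ D.e₁ 0}} {u : E} (h : a.1 = D.e₁ u) :
    ∃ b, b.1 = D.e₂ (sinv u) ∧ D.j₁ a = D.j₂ b := by
  have hu : u ≠ 0 := by rintro rfl; exact a.2 h
  exact ⟨⟨D.e₂ (sinv u), fun h => sinv_ne_zero hu (D.he₂.injective h)⟩, rfl,
    (D.glue _ _).2 ⟨u, hu, h, rfl⟩⟩

theorem isOpen_image [ProperSpace E] [T2Space M₁] (r : ℝ) :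
    IsOpen (D.j₁ '' {a | a.1 ∉ D.e₁ '' closedBall 0 r}) :=
  D.hj₁.isOpenMap _ ((((isCompact_closedBall (0 : E) r).image
    D.he₁.continuous).isClosed.isOpen_compl).preimage continuous_subtype_val)

include D in
theorem t2Space [ProperSpace E] [T2Space M₁] [T2Space M₂] : T2Space X := by
  have mixed : ∀ a b, D.j₁ a ≠ D.j₂ b →
      ∃ u v : Set X, IsOpen u ∧ IsOpen v ∧ D.j₁ a ∈ u ∧ D.j₂ b ∈ v ∧ Disjoint u v := by
    intro a b hab
    by_cases ha : a.1 ∈ D.e₁ '' closedBall 0 1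
    · obtain ⟨u, -, hu⟩ := ha
      obtain ⟨b', -, h⟩ := D.mem_range_j₂ hu.symm
      rw [h] at hab ⊢
      exact separated_by_isOpenEmbedding D.hj₂ fun h => hab (congrArg _ h)
    by_cases hb : b.1 ∈ D.e₂ '' closedBall 0 1
    · obtain ⟨u, -, hu⟩ := hb
      obtain ⟨a', -, h⟩ := D.symm.mem_range_j₂ (a := b) hu.symm
      replace h : D.j₂ b = D.j₁ a' := h
      rw [h] at hab ⊢
      exact separated_by_isOpenEmbedding D.hj₁ fun h => hab (congrArg _ h)
    refine ⟨_, _, D.isOpen_image 1, D.symm.isOpen_image 1, mem_image_of_mem _ ha,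
      mem_image_of_mem _ hb, Set.disjoint_left.2 ?_⟩
    rintro _ ⟨a', ha', rfl⟩ ⟨b', hb', h⟩
    obtain ⟨u, -, h1, h2⟩ := (D.glue a' b').1 h.symm
    rcases le_total ‖u‖ 1 with h3 | h3
    · exact ha' ⟨u, by simpa using h3, h1.symm⟩
    · exact hb' ⟨sinv u, by simpa [norm_sinv] using inv_le_one_of_one_le₀ h3, h2.symm⟩
  refine ⟨fun x y hxy => ?_⟩
  rcases D.cover x with ⟨a, rfl⟩ | ⟨a, rfl⟩ <;> rcases D.cover y with ⟨b, rfl⟩ | ⟨b, rfl⟩
  · exact separated_by_isOpenEmbedding D.hj₁ fun h => hxy (congrArg _ h)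
  · exact mixed a b hxy
  · obtain ⟨u, v, h1, h2, h3, h4, h5⟩ := mixed b a hxy.symm
    exact ⟨v, u, h2, h1, h4, h3, h5.symm⟩
  · exact separated_by_isOpenEmbedding D.hj₂ fun h => hxy (congrArg _ h)

theorem isCompact_image [CompactSpace M₁] :
    IsCompact (D.j₁ '' {a | a.1 ∉ D.e₁ '' ball 0 1}) := by
  refine IsCompact.image ?_ D.hj₁.continuous
  rw [Subtype.isCompact_iff]
  convert (D.he₁.isOpenMap _ (isOpen_ball (x := 0) (ε := 1))).isClosed_compl.isCompact using 1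
  ext a
  constructor
  · rintro ⟨a, ha, rfl⟩; exact ha
  · intro ha
    exact ⟨⟨a, by rintro rfl; exact ha ⟨0, by simp, rfl⟩⟩, ha, rfl⟩

theorem mem_union (a : {a : M₁ // a ≠ D.e₁ 0}) : D.j₁ a ∈ D.j₁ '' {a | a.1 ∉ D.e₁ '' ball 0 1} ∪
    D.j₂ '' {a | a.1 ∉ D.e₂ '' ball 0 1} := by
  by_cases ha : a.1 ∈ D.e₁ '' ball 0 1
  · obtain ⟨u, hu, hu'⟩ := ha
    obtain ⟨b, h1, h2⟩ := D.mem_range_j₂ hu'.symm
    refine Or.inr ⟨b, ?_, h2.symm⟩
    rintro ⟨v, hv, h3⟩
    have hu0 : u ≠ 0 := by rintro rfl; exact a.2 hu'.symm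
    rw [D.he₂.injective (h3.trans h1), mem_ball_zero_iff, norm_sinv] at hv
    exact absurd ((one_le_inv₀ (norm_pos_iff.2 hu0)).2 (mem_ball_zero_iff.1 hu).le) hv.not_ge
  · exact Or.inl ⟨a, ha, rfl⟩

include D in
theorem compactSpace [CompactSpace M₁] [CompactSpace M₂] : CompactSpace X := by
  refine ⟨(D.isCompact_image.union D.symm.isCompact_image).of_isClosed_subset isClosed_univ ?_⟩
  intro x _
  rcases D.cover x with ⟨a, rfl⟩ | ⟨a, rfl⟩
  · exact D.mem_union a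
  · exact (D.symm.mem_union a).symm

include D in
theorem locEuc {d : ℕ} [T1Space M₁] [T1Space M₂] (h₁ : LocEuc d M₁) (h₂ : LocEuc d M₂) :
    LocEuc d X := by
  intro x
  rcases D.cover x with ⟨a, rfl⟩ | ⟨a, rfl⟩
  · obtain ⟨e, he, y, rfl⟩ := locEuc_of_isOpenEmbedding_left h₁
      (isOpen_ne (x := D.e₁ 0)).isOpenEmbedding_subtypeVal a
    exact ⟨⟨_, (D.hj₁.comp he).continuous⟩, D.hj₁.comp he, y, rfl⟩
  · obtain ⟨e, he, y, rfl⟩ := locEuc_of_isOpenEmbedding_left h₂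
      (isOpen_ne (x := D.e₂ 0)).isOpenEmbedding_subtypeVal a
    exact ⟨⟨_, (D.hj₂.comp he).continuous⟩, D.hj₂.comp he, y, rfl⟩

/-- The collapse map onto the first summand. -/
theorem exists_q [ProperSpace E] [T2Space M₁] [T2Space M₂] : ∃ q : C(X, M₁),
    (∀ a u, a.1 = D.e₁ u → ‖u‖ ≤ 1 → q (D.j₁ a) = D.e₁ 0) ∧
    (∀ b, b.1 ∉ D.e₂ '' ball 0 1 → q (D.j₂ b) = D.e₁ 0) ∧
    (∀ a, a.1 ∉ D.e₁ '' closedBall 0 2 → q (D.j₁ a) = a) ∧
    ∀ x, q x ∉ D.e₁ '' closedBall 0 2 → ∃ a, x = D.j₁ a ∧ a.1 = q x := by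
  classical
  obtain ⟨r, h1, h2, h3⟩ := exists_collapse D.he₁
  let q : X → M₁ := fun x => if h : x ∈ range D.j₁ then r h.choose else D.e₁ 0
  have hq : ∀ a, q (D.j₁ a) = r a := fun a => by
    have : D.j₁ a ∈ range D.j₁ := ⟨a, rfl⟩
    simp only [q, dif_pos this, D.hj₁.injective this.choose_spec]
  have hq' : ∀ b, b.1 ∉ D.e₂ '' ball 0 1 → q (D.j₂ b) = D.e₁ 0 := by
    intro b hb
    by_cases h : D.j₂ b ∈ range D.j₁
    · obtain ⟨a, ha⟩ := h
      obtain ⟨u, hu, e1, e2⟩ := (D.glue a b).1 ha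
      rw [← ha, hq, e1, h1]
      by_contra h
      refine hb ⟨_, ?_, e2.symm⟩
      rw [mem_ball_zero_iff, norm_sinv]
      exact inv_lt_one_of_one_lt₀ (not_le.1 h)
    · exact dif_neg h
  refine ⟨⟨q, continuous_iff_continuousAt.2 fun x => ?_⟩, fun a u hu hu' => ?_, hq',
    fun a ha => (hq a).trans (h2 _ ha), fun x hx => ?_⟩
  · by_cases h : x ∈ range D.j₁
    · obtain ⟨a, rfl⟩ := h
      rw [← D.hj₁.continuousAt_iff]
      have : q ∘ D.j₁ = r ∘ Subtype.val := funext hq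
      rw [this]
      exact (r.continuous.comp continuous_subtype_val).continuousAt
    · obtain ⟨b, rfl⟩ := (D.cover x).resolve_left h
      have hb : b.1 ∉ D.e₂ '' closedBall 0 1 := by
        rintro ⟨u, -, hu⟩
        obtain ⟨a, -, h'⟩ := D.symm.mem_range_j₂ (a := b) hu.symm
        exact h ⟨a, h'.symm⟩
      refine (continuousAt_const (y := D.e₁ 0)).congr ?_
      filter_upwards [(D.symm.isOpen_image 1).mem_nhds (mem_image_of_mem _ hb)]
      rintro _ ⟨b', hb', rfl⟩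
      exact (hq' b' fun h => hb' (image_mono ball_subset_closedBall h)).symm
  · change q _ = _
    rw [hq, hu, h1 u hu']
  · change q x ∉ _ at hx
    by_cases h : x ∈ range D.j₁
    · obtain ⟨a, rfl⟩ := h
      refine ⟨a, rfl, ?_⟩
      change _ = q _
      rw [hq] at hx ⊢
      exact (h2 _ fun h => hx (h3 _ h)).symm
    · exact absurd ⟨0, by simp, (show q x = _ from dif_neg h).symm⟩ hx

theorem isOpenEmbedding_outer [ProperSpace E] [T2Space M₁] :
    IsOpenEmbedding fun a : {a : M₁ // a ∉ D.e₁ '' closedBall 0 2} =>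
      D.j₁ ⟨a.1, fun h => a.2 ⟨0, by simp, h.symm⟩⟩ := by
  refine D.hj₁.comp ?_
  rw [← (isOpen_ne (x := D.e₁ 0)).isOpenEmbedding_subtypeVal.of_comp_iff]
  exact ((isCompact_closedBall (0 : E) 2).image
    D.he₁.continuous).isClosed.isOpen_compl.isOpenEmbedding_subtypeVal

include D in
/-- Lower bound for the number of domains of a motion planner on a connected sum of aspherical
manifolds. -/
theorem not_hasMotionPlanner [ProperSpace E] [Nontrivial E] [T2Space M₁] [T2Space M₂]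
    [CompactSpace M₁] [CompactSpace M₂] [PathConnectedSpace M₁] [PathConnectedSpace M₂] {d : ℕ}
    (h₁ : LocEuc d M₁) (h₂ : LocEuc d M₂)
    (a₁ : ∀ k, 2 ≤ k → ∀ x : M₁, Subsingleton (HomotopyGroup.Pi k M₁ x))
    (a₂ : ∀ k, 2 ≤ k → ∀ x : M₂, Subsingleton (HomotopyGroup.Pi k M₂ x)) {N : ℕ}
    (hN : N < d + d) : ¬HasMotionPlanner X N := by
  rintro ⟨U, hU, hcov, hs⟩
  choose s hs using hs
  have := D.t2Space
  have := D.compactSpace
  have hX := locEuc_prod (D.locEuc h₁ h₂) (D.locEuc h₁ h₂)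
  obtain ⟨k, hk⟩ : ∃ k, d + d = k + 1 := ⟨d + d - 1, by omega⟩
  rw [hk] at hX
  obtain ⟨q₁, a1, a2, a3, a4⟩ := D.exists_q
  obtain ⟨q₂, b1, b2, b3, b4⟩ := D.symm.exists_q
  let S : Setup X M₁ M₂ (UC (D.e₁ 0)) (UC (D.e₂ 0)) (FundamentalGroup M₁ (D.e₁ 0))
      (FundamentalGroup M₂ (D.e₂ 0)) :=
    { p₁ := ⟨UC.pt, UC.continuous_pt⟩
      p₂ := ⟨UC.pt, UC.continuous_pt⟩
      h₁ := UC.isQuotientCoveringMap h₁.locSC
      h₂ := UC.isQuotientCoveringMap h₂.locSC
      q₁ := q₁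
      q₂ := q₂
      e₁ := ⟨_, .refl _⟩
      e₂ := ⟨_, .refl _⟩
      wedge := fun x => by
        rcases D.cover x with ⟨a, rfl⟩ | ⟨a, rfl⟩
        · by_cases ha : a.1 ∈ D.e₁ '' ball 0 1
          · obtain ⟨u, hu, hu'⟩ := ha
            exact Or.inl (a1 a u hu'.symm (mem_ball_zero_iff.1 hu).le)
          · exact Or.inr (b2 a ha)
        · by_cases ha : a.1 ∈ D.e₂ '' ball 0 1
          · obtain ⟨u, hu, hu'⟩ := ha
            exact Or.inr (b1 a u hu'.symm (mem_ball_zero_iff.1 hu).le)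
          · exact Or.inl (a2 a ha) }
  obtain ⟨K₁, -⟩ := UC.exists_coning h₁.locSC a₁ _ S.e₁
  obtain ⟨K₂, hK₂⟩ := UC.exists_coning h₂.locSC a₂ _ S.e₂
  obtain ⟨v, hv⟩ := exists_norm_eq E (c := 3) (by norm_num)
  have hv₁ : D.e₁ v ∉ D.e₁ '' closedBall 0 2 := by
    rw [D.he₁.injective.mem_set_image, mem_closedBall_zero_iff, hv]; norm_num
  have hv₂ : D.e₂ v ∉ D.e₂ '' closedBall 0 2 := by
    rw [D.he₂.injective.mem_set_image, mem_closedBall_zero_iff, hv]; norm_num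
  have hι := D.isOpenEmbedding_outer.prodMap D.symm.isOpenEmbedding_outer
  let ι : C({a : M₁ // a ∉ D.e₁ '' closedBall 0 2} × {a : M₂ // a ∉ D.e₂ '' closedBall 0 2},
    X × X) := ⟨_, hι.continuous⟩
  have hcomp : ∀ w, (q₁.prodMap q₂) (ι w) = (w.1.1, w.2.1) := fun w =>
    Prod.ext (a3 _ w.1.2) (b3 _ w.2.2)
  refine S.core K₁ K₂ hK₂ hX (P := ι (⟨_, hv₁⟩, ⟨_, hv₂⟩)) (ιO := ι) hι ⟨_, rfl⟩ ?_ ?_ ?_ ?_
    (by omega) U hU hcov s hs
  · have e : ⇑((S.q₁.prodMap S.q₂).comp ι) = Prod.map Subtype.val Subtype.val := funext hcomp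
    rw [e]
    exact (((isCompact_closedBall (0 : E) 2).image
      D.he₁.continuous).isClosed.isOpen_compl.isOpenEmbedding_subtypeVal).prodMap
      ((isCompact_closedBall (0 : E) 2).image
        D.he₂.continuous).isClosed.isOpen_compl.isOpenEmbedding_subtypeVal
  · intro x hx
    replace hx := hx.trans (hcomp _)
    have e1 : q₁ x.1 = D.e₁ v := congrArg Prod.fst hx
    have e2 : q₂ x.2 = D.e₂ v := congrArg Prod.snd hx
    obtain ⟨a, ha, ha'⟩ := a4 x.1 (by rwa [e1])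
    obtain ⟨b, hb, hb'⟩ := b4 x.2 (by rwa [e2])
    refine Prod.ext (ha.trans (congrArg D.j₁ (Subtype.ext (ha'.trans e1))))
      (hb.trans (congrArg D.j₂ (Subtype.ext (hb'.trans e2))))
  · intro h
    exact hv₁ ⟨0, by simp, h.symm.trans (congrArg Prod.fst (hcomp (⟨_, hv₁⟩, ⟨_, hv₂⟩)))⟩
  · intro h
    exact hv₂ ⟨0, by simp, h.symm.trans (congrArg Prod.snd (hcomp (⟨_, hv₁⟩, ⟨_, hv₂⟩)))⟩

end CS

section Quot

variable {n : ℕ} {M₁ M₂ : Type*} [TopologicalSpace M₁] [TopologicalSpace M₂]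
  {e₁ : EuclideanSpace ℝ (Fin n) → M₁} {e₂ : EuclideanSpace ℝ (Fin n) → M₂}

omit [TopologicalSpace M₁] [TopologicalSpace M₂] in
theorem mk_eq_mk_iff (h₁ : Function.Injective e₁) (h₂ : Function.Injective e₂)
    {p q : {a : M₁ // a ≠ e₁ 0} ⊕ {b : M₂ // b ≠ e₂ 0}} :
    Quot.mk (GlueRel e₁ e₂) p = Quot.mk _ q ↔ p = q ∨ GlueRel e₁ e₂ p q ∨ GlueRel e₁ e₂ q p := by
  constructor
  · intro h
    rw [Quot.eq] at h
    induction h with
    | rel _ _ h => exact Or.inr (Or.inl h)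
    | refl _ => exact Or.inl rfl
    | symm _ _ _ ih => rcases ih with h | h | h <;> simp [h]
    | trans p q r _ _ ih ih' =>
      rcases ih with rfl | h | h
      · exact ih'
      · rcases ih' with rfl | h' | h'
        · exact Or.inr (Or.inl h)
        · obtain ⟨a, b, u, rfl, rfl, -⟩ := h
          obtain ⟨a', b', u', h', -⟩ := h'
          cases h'
        · obtain ⟨a, b, u, rfl, rfl, -, h1, h2⟩ := h
          obtain ⟨a', b', u', rfl, h', -, h1', h2'⟩ := h'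
          cases h'
          have : sinv u = sinv u' := h₂ (h2.symm.trans h2')
          obtain rfl : u = u' := by rw [← sinv_sinv u, this, sinv_sinv]
          exact Or.inl (congrArg _ (Subtype.ext (h1.trans h1'.symm)))
      · rcases ih' with rfl | h' | h'
        · exact Or.inr (Or.inr h)
        · obtain ⟨a, b, u, rfl, rfl, -, h1, h2⟩ := h
          obtain ⟨a', b', u', h', rfl, -, h1', h2'⟩ := h'
          cases h'
          obtain rfl : u = u' := h₁ (h1.symm.trans h1')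
          exact Or.inl (congrArg _ (Subtype.ext (h2.trans h2'.symm)))
        · obtain ⟨a, b, u, rfl, rfl, -⟩ := h
          obtain ⟨a', b', u', -, h', -⟩ := h'
          cases h'
  · rintro (rfl | h | h)
    · rfl
    · exact Quot.sound h
    · exact (Quot.sound h).symm

theorem isOpen_transfer {E : Type*} [NormedAddCommGroup E] [NormedSpace ℝ E] {f₁ : E → M₁}
    {f₂ : E → M₂} (h₁ : Continuous f₁) (h₂ : IsOpenMap f₂) {U : Set M₁} (hU : IsOpen U) :
    IsOpen {b | ∃ u, u ≠ 0 ∧ f₁ u ∈ U ∧ b = f₂ (sinv u)} := by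
  convert h₂ _ (continuousOn_sinv.isOpen_inter_preimage isOpen_compl_singleton
    (hU.preimage h₁)) using 1
  ext b
  constructor
  · rintro ⟨u, h1, h2, rfl⟩
    exact ⟨sinv u, ⟨sinv_ne_zero h1, by simpa [sinv_sinv] using h2⟩, rfl⟩
  · rintro ⟨u, ⟨h1, h2⟩, rfl⟩
    exact ⟨sinv u, sinv_ne_zero h1, h2, by rw [sinv_sinv]⟩

/-- The quotient construction is a connected sum in the abstract sense. -/
noncomputable def connSumCS [T1Space M₁] [T1Space M₂] (h₁ : IsOpenEmbedding e₁)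
    (h₂ : IsOpenEmbedding e₂) : CS (EuclideanSpace ℝ (Fin n)) M₁ M₂ (ConnSum e₁ e₂) where
  e₁ := e₁
  e₂ := e₂
  j₁ a := Quot.mk _ (Sum.inl a)
  j₂ b := Quot.mk _ (Sum.inr b)
  he₁ := h₁
  he₂ := h₂
  hj₁ := by
    have hinj : ∀ a a', Quot.mk (GlueRel e₁ e₂) (Sum.inl a) = Quot.mk _ (Sum.inl a') ↔ a = a' := by
      intro a a'
      simp [mk_eq_mk_iff h₁.injective h₂.injective, GlueRel]
    refine .of_continuous_injective_isOpenMap (continuous_quot_mk.comp continuous_inl)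
      (fun a a' h => (hinj _ _).1 h) fun U hU => ?_
    rw [← isQuotientMap_quot_mk.isOpen_preimage, isOpen_sum_iff]
    constructor
    · convert hU using 1
      ext a
      simp [hinj]
    · convert (isOpen_transfer h₁.continuous h₂.isOpenMap
        ((isOpen_ne (x := e₁ 0)).isOpenMap_subtype_val U hU)).preimage
        (continuous_subtype_val (p := fun b => b ≠ e₂ 0)) using 1
      ext b
      simp only [mem_preimage, mem_image, mk_eq_mk_iff h₁.injective h₂.injective, GlueRel,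
        mem_ofPred_eq]
      constructor
      · rintro ⟨a, ha, h | ⟨a', b', u, h1, h2, h3, h4, h5⟩ | ⟨a', b', u, h1, -⟩⟩
        · cases h
        · cases h1; cases h2
          exact ⟨u, h3, ⟨a, ha, h4⟩, h5⟩
        · cases h1
      · rintro ⟨u, h1, ⟨a, ha, h2⟩, h3⟩
        exact ⟨a, ha, Or.inr (Or.inl ⟨a, b, u, rfl, rfl, h1, h2, h3⟩)⟩
  hj₂ := by
    have hinj : ∀ a a', Quot.mk (GlueRel e₁ e₂) (Sum.inr a) = Quot.mk _ (Sum.inr a') ↔ a = a' := by
      intro a a'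
      simp [mk_eq_mk_iff h₁.injective h₂.injective, GlueRel]
    refine .of_continuous_injective_isOpenMap (continuous_quot_mk.comp continuous_inr)
      (fun a a' h => (hinj _ _).1 h) fun U hU => ?_
    rw [← isQuotientMap_quot_mk.isOpen_preimage, isOpen_sum_iff]
    constructor
    · convert (isOpen_transfer h₂.continuous h₁.isOpenMap
        ((isOpen_ne (x := e₂ 0)).isOpenMap_subtype_val U hU)).preimage
        (continuous_subtype_val (p := fun b => b ≠ e₁ 0)) using 1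
      ext a
      simp only [mem_preimage, mem_image, mk_eq_mk_iff h₁.injective h₂.injective, GlueRel,
        mem_ofPred_eq]
      constructor
      · rintro ⟨b, hb, h | ⟨a', b', u, h1, -⟩ | ⟨a', b', u, h1, h2, h3, h4, h5⟩⟩
        · cases h
        · cases h1
        · cases h1; cases h2
          exact ⟨sinv u, sinv_ne_zero h3, ⟨b, hb, h5⟩, by rwa [sinv_sinv]⟩
      · rintro ⟨u, h1, ⟨b, hb, h2⟩, h3⟩
        exact ⟨b, hb, Or.inr (Or.inr ⟨a, b, sinv u, rfl, rfl, sinv_ne_zero h1, h3,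
          h2.trans (congrArg e₂ (sinv_sinv u).symm)⟩)⟩
    · convert hU using 1
      ext a
      simp [hinj]
  cover x := by
    obtain ⟨a | a, rfl⟩ := Quot.exists_rep x
    · exact Or.inl ⟨a, rfl⟩
    · exact Or.inr ⟨a, rfl⟩
  glue a b := by
    rw [mk_eq_mk_iff h₁.injective h₂.injective]
    constructor
    · rintro (h | ⟨a', b', u, h1, h2, h3⟩ | ⟨a', b', u, h1, -⟩)
      · cases h
      · cases h1; cases h2; exact ⟨u, h3⟩
      · cases h1
    · rintro ⟨u, h⟩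
      exact Or.inr (Or.inl ⟨a, b, u, rfl, rfl, h⟩)

end Quot

end Pool.Agent.Lib.MP_c77dc5_gt.H72
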