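import Pool.Agent.Lib.MP_c77dc5_gt.H72Cover

/-!
The core lower bound for the number of local motion planners.
-/

namespace Pool.Agent.Lib.MP_c77dc5_gt.H72

open Finsupp Set Pool.Agent.Shared.H72Sing Topology

theorem exists_star_cover {Y ι : Type*} [TopologicalSpace Y] [CompactSpace Y] [T2Space Y]
    (U : ι → Set Y) (hU : ∀ i, IsOpen (U i)) (hc : ⋃ i, U i = univ) :
    ∃ (col : Y → ι) (W : Y → Set Y), (∀ x, IsOpen (W x) ∧ x ∈ W x) ∧
      ∀ x, ∀ v ∈ W x, W x ⊆ U (col v) := by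
  let _ : UniformSpace Y := uniformSpaceOfCompactR1
  obtain ⟨V, hV, h⟩ := lebesgue_number_lemma isCompact_univ hU hc.ge
  choose col hcol using fun x => h x (mem_univ x)
  obtain ⟨V', h1, h2, h3, h4⟩ := comp_open_symm_mem_uniformity_sets hV
  refine ⟨col, fun x => UniformSpace.ball x V', fun x => ⟨UniformSpace.isOpen_ball x h2,
    UniformSpace.mem_ball_self x h1⟩, fun x v hv v' hv' => hcol v (h4 ⟨x, ?_, hv'⟩)⟩
  exact SetRel.symm V' hv

theorem lc_eq_zero_of_lm {R A B M : Type*} [CommRing R] [AddCommGroup M] [Module R M] (p : A → B)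
    (F : A → M) (h : ∀ a a', p a = p a' → F a = F a') {c : A →₀ R} (hc : lm R p c = 0) :
    linearCombination R F c = 0 := by
  classical
  let F' : B → M := fun b => if h : ∃ a, p a = b then F h.choose else 0
  have : F = F' ∘ p := funext fun a => by
    have ha : ∃ a', p a' = p a := ⟨a, rfl⟩
    simp only [F', Function.comp_apply, dif_pos ha]
    exact h _ _ ha.choose_spec.symm
  rw [this, ← linearCombination_comp_lmapDomain, LinearMap.comp_apply, hc, map_zero]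

theorem mem_supported_of_push {R X Y : Type*} [CommRing R] [TopologicalSpace X]
    [TopologicalSpace Y] {f : C(X, Y)} (hf : Function.Injective f) {k : ℕ} {S : Set C(Sx k, Y)}
    {z : Ch R X k} (hz : push R f k z ∈ supported R R S) :
    z ∈ supported R R {σ | f.comp σ ∈ S} := by
  classical
  intro σ hσ
  have hinj : Function.Injective fun σ : C(Sx k, X) => f.comp σ := fun σ τ h => by
    ext x
    exact hf (DFunLike.congr_fun h x)
  refine hz ?_
  change f.comp σ ∈ (Finsupp.mapDomain _ z).support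
  rw [Finsupp.mapDomain_support_of_injective hinj]
  exact Finset.mem_image_of_mem _ hσ

theorem bd_mem_supported {R X : Type*} [CommRing R] [TopologicalSpace X] {k : ℕ}
    {S : Set C(Sx (k + 1), X)} {T : Set C(Sx k, X)} (h : ∀ i, ∀ σ ∈ S, σ.comp (face i) ∈ T)
    {z : Ch R X (k + 1)} (hz : z ∈ supported R R S) : bd R X k z ∈ supported R R T :=
  altBd_mem_supported _ h hz

theorem push_notMem_RB' {R N M W : Type*} [CommRing R] [TopologicalSpace N] [TopologicalSpace M]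
    [TopologicalSpace W] [T1Space N] [T1Space M] (f : C(N, M)) {ι : C(W, N)}
    (hι : IsOpenEmbedding ι) {p : N} (hp : p ∈ range ι) (hf : IsOpenEmbedding (f.comp ι))
    (hfp : ∀ x, f x = f p → x = p) {k : ℕ} {z : Ch R N (k + 1)}
    (hz : bd R N k z ∈ CIn R {p}ᶜ k) (h : z ∉ RB R {p} (k + 1)) :
    push R f (k + 1) z ∉ RB R {f p} (k + 1) := by
  intro h'
  obtain ⟨z', -, h2⟩ := exists_push_sub_mem_RB hι isClosed_singleton (by simpa using hp) hz
  have h3 := push_mem_RB f (L := {f p}) (fun x hx => hfp x hx) h2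
  have h4 : push R (f.comp ι) (k + 1) z' ∈ RB R {f p} (k + 1) := by
    rw [← push_push]
    simpa using sub_mem h' h3
  obtain ⟨w, rfl⟩ := hp
  have h5 := mem_RB_of_push (e := f.comp ι) hf isClosed_singleton
    (singleton_subset_iff.2 ⟨w, rfl⟩) h4
  have h6 := push_mem_RB ι (L := {ι w}) (fun x hx => by
    change f (ι x) = f (ι w)
    rw [show ι x = ι w from hx]) h5
  exact h (by simpa using add_mem h2 h6)

/-- Coloured labels. -/
@[ext] structure Lab (N : ℕ) (S : Type*) where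
  col : Fin N
  w : S

noncomputable instance {N : ℕ} {G₁ G₂ : Type*} [Group G₁] [Group G₂] :
    MulAction (RegularWreathProduct G₂ G₁ × G₂) (Lab N (RegularWreathProduct G₂ G₁)) where
  smul γ v := ⟨v.col, γ.1 * v.w * (Setup.eps G₁ G₂ γ.2)⁻¹⟩
  one_smul v := Lab.ext rfl (by change 1 * v.w * (Setup.eps G₁ G₂ 1)⁻¹ = v.w; simp)
  mul_smul a b v := Lab.ext rfl (by
    change a.1 * b.1 * v.w * (Setup.eps G₁ G₂ (a.2 * b.2))⁻¹ =
      a.1 * (b.1 * v.w * (Setup.eps G₁ G₂ b.2)⁻¹) * (Setup.eps G₁ G₂ a.2)⁻¹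
    simp [mul_assoc])

theorem wreath_stab {G₁ G₂ : Type*} [Group G₁] [Group G₂] {a w w' : RegularWreathProduct G₂ G₁}
    {b : G₂} (h : a * w * (Setup.eps G₁ G₂ b)⁻¹ = w) (h' : a * w' * (Setup.eps G₁ G₂ b)⁻¹ = w')
    (hne : w.right ≠ w'.right) : a.right = 1 ∧ b = 1 := by
  rw [← map_inv] at h h'
  have h1 : a.right = 1 := by simpa [Setup.eps] using congrArg RegularWreathProduct.right h
  have h2 := congrFun (congrArg RegularWreathProduct.left h) w.right
  have h3 := congrFun (congrArg RegularWreathProduct.left h') w.right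
  have h4 : w'.right⁻¹ * w.right ≠ 1 := fun h => hne (inv_mul_eq_one.1 h).symm
  simp [Setup.eps, h1, h4] at h2 h3
  simpa [h3, h1] using h2

variable {X M₁ M₂ E₁ E₂ G₁ G₂ : Type*} [TopologicalSpace X] [TopologicalSpace M₁]
  [TopologicalSpace M₂] [TopologicalSpace E₁] [TopologicalSpace E₂] [Group G₁] [Group G₂]
  [MulAction G₁ E₁] [MulAction G₂ E₂] [ContinuousConstSMul G₁ E₁] [ContinuousConstSMul G₂ E₂]

namespace Setup

omit [TopologicalSpace E₁] [ContinuousConstSMul G₁ E₁] in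
theorem orbit_invariant (e : E₁) :
    ∀ g : G₁, ∀ a ∈ MulAction.orbit G₁ e, g • a ∈ MulAction.orbit G₁ e := by
  rintro g _ ⟨g', rfl⟩
  exact ⟨g * g', mul_smul _ _ _⟩

variable (D : Setup X M₁ M₂ E₁ E₂ G₁ G₂) (K₁ : Coning E₁) (K₂ : Coning E₂)

/-- The target complex. -/
noncomputable def cx : EqCx (RegularWreathProduct G₂ G₁ × G₂) (Bq E₂ (MulAction.orbit G₁ D.e₁)) :=
  targetCx K₁ K₂ (orbit_invariant D.e₁) (RegularWreathProduct.rightHom.comp (MonoidHom.fst _ _))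
    (MonoidHom.snd _ _)

theorem exists_h [T1Space M₁] {N : ℕ} (U : Fin N → Set (X × X))
    (s : ∀ j, C(U j, C(unitInterval, X))) (hs : ∀ j u, s j u 0 = u.1.1 ∧ s j u 1 = u.1.2)
    (col : X × X → Fin N) (W : X × X → Set (X × X)) (hW : ∀ x, x ∈ W x)
    (hW' : ∀ x, ∀ v ∈ W x, W x ⊆ U (col v)) :
    ∃ h : ∀ k, C(Sx k, D.Zh) → Bq E₂ (MulAction.orbit G₁ D.e₁) (k + 1),
      (∀ k γ σ, h k (γ • σ) = (D.cx K₁ K₂).ρ γ (k + 1) (h k σ)) ∧
      ∀ k, N ≤ k → ∀ z ∈ supported (ZMod 2) (ZMod 2)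
        {σ : C(Sx (k + 1), D.Zh) | ∃ x, range (D.pr.comp σ) ⊆ W x},
        (D.cx K₁ K₂).d (k + 1) (linearCombination (ZMod 2) (h (k + 1)) z) =
          Submodule.Quotient.mk (push _ D.fE (k + 1) z) -
            linearCombination (ZMod 2) (h k) (bd (ZMod 2) _ k z) := by
  have hex : ∀ z : D.Zh, ∃ w, IsLab (s (col (D.pr z))) z w := fun z => by
    obtain ⟨w, hw⟩ := exists_isLab_of_preconnected (D := D) (s _) (hs _) (.const Unit z)
      fun _ => hW' (D.pr z) _ (hW _) (hW (D.pr z))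
    exact ⟨w, hw ()⟩
  choose lw hlw using hex
  let _ : MulAction (RegularWreathProduct G₂ G₁ × G₂) (MulAction.orbit G₁ D.e₁) :=
    MulAction.compHom _ (RegularWreathProduct.rightHom.comp (MonoidHom.fst _ _))
  let emp : C(Sx 0, E₁ × E₂) := .const _ (D.e₁, D.e₂)
  have hemp : ∀ τ : C(Sx 0, E₁ × E₂), τ = emp := fun τ => by ext x <;> exact isEmptyElim x
  obtain ⟨h, h1, h2⟩ := exists_nullhom (V := Lab N (RegularWreathProduct G₂ G₁))
    (Ω := MulAction.orbit G₁ D.e₁) (Z := D.Zh) (D.cx K₁ K₂)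
    (fun γ z hγ k m => targetCx_ρ_trivial _ _ _ _ _
      (by rw [MonoidHom.comp_apply, MonoidHom.coe_fst, Xh.free (congrArg Prod.fst hγ), map_one])
      (D.free₂ (congrArg (fun z : D.Zh => z.2.1.2) hγ)) k m)
    (fun k σ => ∃ x, range (D.pr.comp σ) ⊆ W x) (fun k γ σ h => h)
    (fun k σ i ⟨x, hx⟩ => ⟨x, by rintro _ ⟨y, rfl⟩; exact hx ⟨_, rfl⟩⟩)
    Lab.col (fun _ _ => rfl) (fun v => ⟨v.w.right • D.e₁, _, rfl⟩)
    (fun γ v => Subtype.ext (by
      change (γ.1 * v.w * (eps G₁ G₂ γ.2)⁻¹).right • D.e₁ = γ.1.right • v.w.right • D.e₁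
      simp [eps, mul_smul]))
    (fun γ v w hv hw hne k m => by
      obtain ⟨h1, h2⟩ := wreath_stab (congrArg Lab.w hv) (congrArg Lab.w hw)
        (fun h => hne (Subtype.ext (congrArg (· • D.e₁) h)))
      exact targetCx_ρ_trivial _ _ _ _ _ h1 h2 k m)
    (fun k g => Submodule.Quotient.mk (single (.const _ (g.1, D.e₂)) 1))
    (fun γ k g => by
      rw [cx, targetCx_ρ, push_single, Submodule.Quotient.eq]
      exact sub_mem_Rv (γ • g).2 (fun _ => rfl) (fun _ => rfl))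
    (fun k g => by
      rw [cx, targetCx_d, bd_single_two, ← Submodule.mkQ_apply, map_sum]
      simp)
    (Submodule.Quotient.mk (single emp 1)) (fun g => by rw [hemp (.const _ _)])
    (fun γ => by rw [cx, targetCx_ρ, push_single, hemp (ContinuousMap.comp _ _)])
    (fun z => ⟨col (D.pr z), lw z⟩)
    (fun γ z => Lab.ext rfl ((hlw (γ • z)).unique ((hlw z).smul γ)))
    (fun k σ ⟨x, hx⟩ a b hab => by
      have : Nonempty (Fin k) := by
        cases k with
        | zero => exact isEmptyElim a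
        | succ k => exact ⟨0⟩
      obtain ⟨w, hw⟩ := exists_isLab_of_preconnected (D := D) (s (col (D.pr (σ a)))) (hs _) σ
        fun y => hW' _ _ (hx ⟨a, rfl⟩) (hx ⟨y, rfl⟩)
      refine Lab.ext hab (((hlw _).unique (hw a)).trans ?_)
      have hab' : col (D.pr (σ a)) = col (D.pr (σ b)) := hab
      have := hw b
      rw [hab'] at this
      exact this.unique (hlw _))
    (fun k σ => Submodule.Quotient.mk (single (D.fE.comp σ) 1))
    (fun σ => by rw [hemp (ContinuousMap.comp _ _)])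
    (fun k γ σ => by rw [cx, targetCx_ρ, push_single]; rfl)
    (fun k σ => by
      rw [cx, targetCx_d, bd_single_two, ← Submodule.mkQ_apply, map_sum]
      rfl)
  refine ⟨h, h1, fun k hk z hz => ?_⟩
  rw [h2 k hk z hz]
  congr 1
  refine eq_of_support (g := (Submodule.mkQ (Rv E₂ (MulAction.orbit G₁ D.e₁) (k + 1))).comp
    (push (ZMod 2) D.fE (k + 1))) fun σ _ => ?_
  simp

include K₁ in
/-- The core theorem: `X × X` cannot be covered by fewer than `d` domains of motion planners. -/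
theorem core [T2Space X] [CompactSpace X] [T1Space M₁] [T1Space M₂]
    (hK₂ : ∀ σ x, K₂.c 0 σ x = D.e₂) {k : ℕ} (hX : LocEuc (k + 1) (X × X)) {P : X × X}
    {O : Type*} [TopologicalSpace O] {ιO : C(O, X × X)} (hO : IsOpenEmbedding ιO)
    (hPO : P ∈ range ιO) (hemb : IsOpenEmbedding ((D.q₁.prodMap D.q₂).comp ιO))
    (hP : ∀ x, D.q₁.prodMap D.q₂ x = D.q₁.prodMap D.q₂ P → x = P)
    (hP₁ : D.q₁ P.1 ≠ D.p₁ D.e₁) (hP₂ : D.q₂ P.2 ≠ D.p₂ D.e₂)
    {N : ℕ} (hN : N ≤ k) (U : Fin N → Set (X × X)) (hU : ∀ j, IsOpen (U j))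
    (hcov : ⋃ j, U j = univ) (s : ∀ j, C(U j, C(unitInterval, X)))
    (hs : ∀ j u, s j u 0 = u.1.1 ∧ s j u 1 = u.1.2) : False := by
  obtain ⟨col, W, hW, hW'⟩ := exists_star_cover U hU hcov
  obtain ⟨h, hρ, hd⟩ := D.exists_h K₁ K₂ U s hs col W (fun x => (hW x).2) hW'
  obtain ⟨ζ, hζ, hζ'⟩ := exists_fundamental_cycle hX
  replace hζ := CIn_empty k hζ
  set F := D.q₁.prodMap D.q₂ with hF
  refine push_notMem_RB' F hO hPO hemb hP (by rw [hζ]; exact zero_mem _) (hζ' P) ?_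
  -- local section near the base point of the second summand
  obtain ⟨φ, hφ, hφ'⟩ := D.h₂.isCoveringMap.isLocalHomeomorph D.e₂
  let V : Set M₂ := φ.target ∩ {D.q₂ P.2}ᶜ
  have hV : IsOpen V := φ.open_target.inter isOpen_compl_singleton
  have hmV : D.p₂ D.e₂ ∈ V := ⟨by rw [hφ']; exact φ.map_source hφ, hP₂.symm⟩
  let A : Set (X × X) := {u | D.q₂ u.2 ≠ D.p₂ D.e₂}
  let B : Set (X × X) := {u | D.q₂ u.2 ∈ V}
  have hA : IsOpen A := isOpen_compl_singleton.preimage (by fun_prop : Continuous fun u : X × X =>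
    D.q₂ u.2)
  have hB : IsOpen B := hV.preimage (by fun_prop : Continuous fun u : X × X => D.q₂ u.2)
  let SA : ∀ l, Set C(Sx l, X × X) := fun l => {τ | (∃ x, range τ ⊆ W x) ∧ range τ ⊆ A}
  obtain ⟨n, hn⟩ := exists_sd_pow_small (fun i : (X × X) × Bool => W i.1 ∩ cond i.2 A B)
    (fun i => (hW _).1.inter (by cases i.2 <;> assumption)) (z := ζ) (by
      refine CIn_mono (fun u _ => ?_) _ (mem_CIn_univ ζ)
      by_cases hu : u ∈ A
      · exact mem_iUnion.2 ⟨(u, true), (hW u).2, hu⟩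
      · refine mem_iUnion.2 ⟨(u, false), (hW u).2, ?_⟩
        change D.q₂ u.2 ∈ V
        rwa [not_not.1 hu])
  obtain ⟨z, hz, w, hw, hzw⟩ : ∃ z ∈ supported (ZMod 2) (ZMod 2) (SA (k + 2)),
      ∃ w ∈ CIn (ZMod 2) B (k + 2), z + w = (sd _ _ (k + 2) ^ n) ζ := by
    rw [← Submodule.mem_sup, CIn, ← supported_union]
    refine supported_mono ?_ hn
    rintro τ ⟨⟨x, _ | _⟩, hτ⟩
    · exact Or.inr (hτ.trans inter_subset_right)
    · exact Or.inl ⟨⟨x, hτ.trans inter_subset_left⟩, hτ.trans inter_subset_right⟩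
  have hbd : bd _ _ (k + 1) w = -bd _ _ (k + 1) z := by
    rw [eq_neg_iff_add_eq_zero, ← map_add, add_comm w z, hzw, bd_sd_pow, hζ, map_zero]
  have hbz : bd _ _ (k + 1) z ∈ supported (ZMod 2) (ZMod 2) (SA (k + 1)) :=
    bd_mem_supported (by
      rintro i σ ⟨⟨x, hx⟩, hσ⟩
      exact ⟨⟨x, by rintro _ ⟨y, rfl⟩; exact hx ⟨_, rfl⟩⟩,
        by rintro _ ⟨y, rfl⟩; exact hσ ⟨_, rfl⟩⟩) hz
  -- reduce to `z`
  suffices hz' : push _ F (k + 2) z ∈ RB (ZMod 2) {F P} (k + 2) by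
    have h1 := push_mem_RB F (L := {F P}) (K := {P}) (fun x hx => hP x hx)
      (sub_sd_pow_mem_RB (by rw [hζ]; exact zero_mem _) n)
    have h2 : push _ F (k + 2) w ∈ CIn (ZMod 2) {F P}ᶜ (k + 2) :=
      push_mem_CIn F (by
        intro u hu hu'
        exact hu.2 (congrArg Prod.snd (show F u = F P from hu'))) hw
    rw [← hzw, map_sub, map_add] at h1
    simpa using add_mem h1 (add_mem hz' (mem_RB_of_CIn h2))
  -- lifts
  obtain ⟨zh, hzh, hzh'⟩ := exists_lm_eq (fun σ : C(Sx (k + 2), D.Zh) => D.pr.comp σ)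
    {σ | ∃ x, range (D.pr.comp σ) ⊆ W x} z fun τ hτ => by
      obtain ⟨σ, rfl⟩ := Zh.exists_lift (D := D) τ fun x => (hz hτ).2 ⟨x, rfl⟩
      exact ⟨σ, (hz hτ).1, rfl⟩
  replace hzh' : push _ D.pr (k + 2) zh = z := hzh'
  let ι : C(B, X × X) := ⟨Subtype.val, continuous_subtype_val⟩
  obtain ⟨w₀, hw₀⟩ := exists_push_eq (f := ι) IsEmbedding.subtypeVal (c := w) (by simpa [ι] using hw)
  let st : C(B, (X × X) × E₂) := ⟨fun u => (u.1, φ.symm (D.q₂ u.1.2)),
    continuous_subtype_val.prodMk (φ.continuousOn_symm.comp_continuous (by fun_prop)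
      fun u => u.2.1)⟩
  have hst : ∀ u, D.p₂ (st u).2 = D.q₂ u.1.2 := fun u => by
    rw [hφ']; exact φ.right_inv u.2.1
  have hbw₀ : bd _ _ (k + 1) w₀ ∈ supported (ZMod 2) (ZMod 2) {σ | ι.comp σ ∈ SA (k + 1)} :=
    mem_supported_of_push Subtype.val_injective (by rw [push_bd, hw₀, hbd]; exact neg_mem hbz)
  obtain ⟨yh, hyh, hyh'⟩ := exists_lm_eq (fun σ : C(Sx (k + 1), D.Zh) => D.pr'.comp σ)
    {σ | ∃ x, range (D.pr.comp σ) ⊆ W x} (push _ st (k + 1) (bd _ _ (k + 1) w₀)) (by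
      refine lm_mem_supported (t := {τ | ∃ a ∈ {σ : C(Sx (k + 1), D.Zh) |
        ∃ x, range (D.pr.comp σ) ⊆ W x}, D.pr'.comp a = τ}) hbw₀ fun τ hτ => ?_
      obtain ⟨σ, hσ⟩ := Zh.exists_lift' (D := D) (st.comp τ) fun x => ⟨hτ.2 ⟨x, rfl⟩, hst _⟩
      refine ⟨σ, ?_, hσ⟩
      change ∃ x, range ((ContinuousMap.fst.comp D.pr').comp σ) ⊆ W x
      rw [ContinuousMap.comp_assoc, hσ]
      exact hτ.1)
  replace hyh' : push _ D.pr' (k + 1) yh = push _ st (k + 1) (bd _ _ (k + 1) w₀) := hyh'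
  -- projections
  let μ' : C(E₁ × E₂, M₁ × E₂) := D.p₁.prodMap (.id _)
  let ν : C(M₁ × E₂, M₁ × M₂) := (ContinuousMap.id _).prodMap D.p₂
  let V' : Set (M₁ × E₂) := {D.p₁ D.e₁} ×ˢ univ
  let π' : ∀ l, Bq E₂ (MulAction.orbit G₁ D.e₁) l →ₗ[ZMod 2] (Ch (ZMod 2) (M₁ × E₂) l ⧸ CIn _ V' l) :=
    fun l => Submodule.mapQ _ _ (push _ μ' l) (Rv_le_comap _ _ fun a ha σ τ hσ hτ => by
      obtain ⟨g, rfl⟩ := ha
      have : ∀ σ : C(Sx l, E₁ × E₂), (∀ x, (σ x).1 = g • D.e₁) →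
          push (ZMod 2) μ' l (single σ 1) ∈ CIn _ V' l := fun σ hσ => by
        rw [push_single]
        refine single_mem_CIn ?_ _
        rintro _ ⟨x, rfl⟩
        exact ⟨(congrArg D.p₁ (hσ x)).trans (D.h₁.map_smul g), mem_univ _⟩
      exact sub_mem (this σ hσ) (this τ hτ))
  have hν : MapsTo ν V' {F P}ᶜ := fun u hu hu' => hP₁ ((congrArg Prod.fst hu').symm.trans hu.1)
  let π : ∀ l, (Ch (ZMod 2) (M₁ × E₂) l ⧸ CIn _ V' l) →ₗ[ZMod 2]
      (Ch (ZMod 2) (M₁ × M₂) l ⧸ RB _ {F P} l) :=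
    fun l => Submodule.mapQ _ _ (push _ ν l) fun c hc => mem_RB_of_CIn (push_mem_CIn ν hν hc)
  have hπ' : ∀ l c, π' l (Submodule.Quotient.mk c) = Submodule.Quotient.mk (push _ μ' l c) :=
    fun _ _ => rfl
  have hπ : ∀ l c, π l (Submodule.Quotient.mk c) = Submodule.Quotient.mk (push _ ν l c) :=
    fun _ _ => rfl
  have hinv' : ∀ l (a : RegularWreathProduct G₂ G₁) m,
      π' l ((D.cx K₁ K₂).ρ (a, 1) l m) = π' l m := by
    intro l a m
    obtain ⟨m, rfl⟩ := Submodule.Quotient.mk_surjective _ m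
    rw [cx, targetCx_ρ, hπ', hπ', push_push]
    congr 3
    ext x
    · exact D.h₁.map_smul _
    · exact one_smul _ _
  have hinv : ∀ l γ m, π l (π' l ((D.cx K₁ K₂).ρ γ l m)) = π l (π' l m) := by
    intro l γ m
    obtain ⟨m, rfl⟩ := Submodule.Quotient.mk_surjective _ m
    rw [cx, targetCx_ρ, hπ', hπ', hπ, hπ, push_push, push_push, push_push]
    congr 3
    ext x
    · exact D.h₁.map_smul _
    · exact D.h₂.map_smul _
  have hπd : ∀ l m, π l (π' l ((D.cx K₁ K₂).d l m)) = 0 := by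
    intro l m
    obtain ⟨m, rfl⟩ := Submodule.Quotient.mk_surjective _ m
    rw [cx, targetCx_d, hπ', hπ, Submodule.Quotient.mk_eq_zero, push_bd, push_bd]
    exact bd_mem_RB _ _
  -- first identity
  have e1 : π _ (π' _ (linearCombination _ (h (k + 1)) (bd _ _ (k + 1) zh + yh))) = 0 := by
    rw [apply_linearCombination, apply_linearCombination]
    refine lc_eq_zero_of_lm (fun σ : C(Sx (k + 1), D.Zh) => D.pr.comp σ) _ (fun σ τ hστ => ?_) ?_
    · obtain ⟨γ, rfl⟩ := Zh.exists_smul_simplex hστ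
      simp only [Function.comp_apply, hρ, hinv]
    · change push _ D.pr _ _ = 0
      rw [map_add, push_bd, hzh', pr, ← push_push, hyh', push_push, push_bd]
      have : push (ZMod 2) (ContinuousMap.fst.comp st) (k + 2) w₀ = w := hw₀
      rw [this, hbd, add_neg_cancel]
  have e2 := congrArg (fun m => π _ (π' _ m)) (hd (k + 1) (by omega) zh hzh)
  simp only [hπd, map_sub, hπ', hπ, push_push] at e2
  have e3 : push (ZMod 2) (ν.comp (μ'.comp D.fE)) (k + 2) zh = push _ F (k + 2) z := by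
    rw [← hzh', push_push]
    congr 2
    ext t
    · exact t.1.2.1
    · exact t.2.2.2
  rw [e3, eq_comm, sub_eq_zero] at e2
  rw [← Submodule.Quotient.mk_eq_zero, e2]
  rw [map_add, map_add, map_add] at e1
  suffices e4 : π _ (π' _ (linearCombination _ (h (k + 1)) yh)) = 0 by rwa [e4, add_zero] at e1
  -- second identity
  have e5 : π' _ (linearCombination _ (h k) (bd _ _ k yh)) = 0 := by
    rw [apply_linearCombination]
    refine lc_eq_zero_of_lm (fun σ : C(Sx k, D.Zh) => D.pr'.comp σ) _ (fun σ τ hστ => ?_) ?_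
    · obtain ⟨γ, rfl⟩ := Zh.exists_smul_simplex' hστ
      simp only [Function.comp_apply, hρ, hinv']
    · change push _ D.pr' _ _ = 0
      rw [push_bd, hyh', push_bd, bd_bd]
  have e6 := congrArg (π' _) (hd k hN yh hyh)
  obtain ⟨u, hu⟩ := Submodule.Quotient.mk_surjective _ (linearCombination _ (h (k + 1)) yh)
  rw [← hu] at e6 ⊢
  rw [map_sub, e5, sub_zero, cx, targetCx_d, hπ', hπ', Submodule.Quotient.eq, push_push] at e6
  let μ : C((X × X) × E₂, M₁ × E₂) :=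
    (D.q₁.comp ContinuousMap.fst).prodMap (.id _)
  have e7 : push (ZMod 2) (μ'.comp D.fE) (k + 1) yh =
      bd _ _ (k + 1) (push _ (μ.comp st) (k + 2) w₀) := by
    rw [← push_bd, ← push_push st μ, ← hyh', push_push]
    congr 2
    ext t
    · exact t.1.2.1
    · rfl
  rw [e7, push_bd, ← map_sub] at e6
  obtain ⟨Pr, hPr, hPr'⟩ := exists_prism_of_coning (Y := M₁) K₂ D.e₂ hK₂
  have e8 := hPr (k + 1) (push _ μ' (k + 2) u - push _ (μ.comp st) (k + 2) w₀)
  set c := push (ZMod 2) μ' (k + 2) u - push _ (μ.comp st) (k + 2) w₀ with hc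
  have e9 : push (ZMod 2) μ' (k + 2) u = push _ (μ.comp st) (k + 2) w₀ +
      push _ (ContinuousMap.fst.prodMk (.const _ D.e₂)) (k + 2) c - Pr (k + 1) (bd _ _ (k + 1) c) -
        bd _ _ (k + 2) (Pr (k + 2) c) := by
    rw [e8, hc]; abel
  rw [hπ', hπ, Submodule.Quotient.mk_eq_zero, e9, map_sub, map_sub, map_add, push_bd, push_push,
    push_push]
  refine sub_mem (mem_RB_of_CIn (sub_mem (add_mem ?_ ?_) ?_)) (bd_mem_RB _ _)
  · refine push_mem_CIn _ ?_ (mem_CIn_univ _)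
    intro t _ ht
    exact t.2.2 ((hst t).symm.trans (congrArg Prod.snd (mem_singleton_iff.1 ht)))
  · refine push_mem_CIn _ ?_ (mem_CIn_univ _)
    intro t _ ht
    exact hP₂ (congrArg Prod.snd (mem_singleton_iff.1 ht)).symm
  · exact push_mem_CIn ν hν (hPr' _ _ _ e6)

end Setup

end Pool.Agent.Lib.MP_c77dc5_gt.H72
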