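import Pool.Agent.Lib.MP_c77dc5_gt.H72Target

/-!
The wreath-product cover of a space mapping to a wedge of two spaces.
-/

namespace Pool.Agent.Lib.MP_c77dc5_gt.H72

open Set Pool.Agent.Shared.H72Sing Topology

/-- A space with a map to a wedge of two spaces, each with a regular covering. -/
structure Setup (X M₁ M₂ E₁ E₂ G₁ G₂ : Type*) [TopologicalSpace X] [TopologicalSpace M₁]
    [TopologicalSpace M₂] [TopologicalSpace E₁] [TopologicalSpace E₂] [Group G₁] [Group G₂]
    [MulAction G₁ E₁] [MulAction G₂ E₂] where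
  p₁ : C(E₁, M₁)
  p₂ : C(E₂, M₂)
  h₁ : IsQuotientCoveringMap p₁ G₁
  h₂ : IsQuotientCoveringMap p₂ G₂
  q₁ : C(X, M₁)
  q₂ : C(X, M₂)
  e₁ : E₁
  e₂ : E₂
  wedge : ∀ x, q₁ x = p₁ e₁ ∨ q₂ x = p₂ e₂

variable {X M₁ M₂ E₁ E₂ G₁ G₂ : Type*} [TopologicalSpace X] [TopologicalSpace M₁]
  [TopologicalSpace M₂] [TopologicalSpace E₁] [TopologicalSpace E₂] [Group G₁] [Group G₂]
  [MulAction G₁ E₁] [MulAction G₂ E₂]

namespace Setup

variable (D : Setup X M₁ M₂ E₁ E₂ G₁ G₂)

open Classical in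
/-- Collapse of all but one of the copies of the second summand. -/
noncomputable def κ (x : X) (a : E₁) : M₂ := if a = D.e₁ then D.q₂ x else D.p₂ D.e₂

include D in
theorem free₁ {g : G₁} {a : E₁} (h : g • a = a) : g = 1 :=
  D.h₁.isCancelSMul.right_cancel' g 1 a (by rwa [one_smul])

include D in
theorem free₂ {g : G₂} {a : E₂} (h : g • a = a) : g = 1 :=
  D.h₂.isCancelSMul.right_cancel' g 1 a (by rwa [one_smul])

theorem continuous_κ [T1Space M₁] {A : Type*} [TopologicalSpace A] {f : A → X} {α : A → E₁}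
    (hf : Continuous f) (hα : Continuous α) (h : ∀ t, D.p₁ (α t) = D.q₁ (f t)) :
    Continuous fun t => D.κ (f t) (α t) := by
  rw [continuous_iff_continuousAt]
  intro t₀
  by_cases h₀ : α t₀ = D.e₁
  · obtain ⟨U, hU, hU'⟩ := D.h₁.disjoint D.e₁
    refine ((D.q₂.continuous.comp hf).continuousAt (x := t₀)).congr ?_
    filter_upwards [hα.continuousAt.preimage_mem_nhds (h₀ ▸ hU)] with t ht
    simp only [κ, Function.comp_apply]
    split_ifs with h1
    · rfl
    · refine (D.wedge (f t)).resolve_left fun h2 => h1 ?_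
      obtain ⟨g, hg⟩ := D.h₁.apply_eq_iff_mem_orbit.1 ((h t).trans h2)
      have := hU' g ⟨α t, ⟨D.e₁, mem_of_mem_nhds hU, hg⟩, ht⟩
      rw [← hg, this]
      exact one_smul _ _
  · have : ({D.e₁}ᶜ : Set E₁) ∈ 𝓝 (α t₀) := by
      by_cases h1 : D.p₁ (α t₀) = D.p₁ D.e₁
      · obtain ⟨s₁, s₂, h2, -, h3, h4, h5⟩ := D.h₁.isCoveringMap.isSeparatedMap _ _ h1 h₀
        exact Filter.mem_of_superset (h2.mem_nhds h3) fun a ha ha' =>
          Set.disjoint_left.1 h5 ha (by rwa [show a = D.e₁ from ha'])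
      · exact Filter.mem_of_superset
          ((isOpen_compl_singleton.preimage D.p₁.continuous).mem_nhds h1) fun a ha ha' =>
            ha (by rw [show a = D.e₁ from ha']; rfl)
    refine (continuousAt_const (y := D.p₂ D.e₂)).congr ?_
    filter_upwards [hα.continuousAt.preimage_mem_nhds this] with t ht
    exact (if_neg ht).symm

/-- The wreath-product cover. -/
def Xh : Type _ := {t : X × E₁ × (G₁ → E₂) //
  D.p₁ t.2.1 = D.q₁ t.1 ∧ ∀ g, D.p₂ (t.2.2 g) = D.κ t.1 (g⁻¹ • t.2.1)}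

instance : TopologicalSpace D.Xh := instTopologicalSpaceSubtype

instance : MulAction (RegularWreathProduct G₂ G₁) D.Xh where
  smul w t := ⟨(t.1.1, w.right • t.1.2.1, fun g => w.left g • t.1.2.2 (w.right⁻¹ * g)),
    by rw [D.h₁.map_smul, t.2.1], fun g => by
      rw [D.h₂.map_smul, t.2.2, mul_inv_rev, inv_inv, mul_smul]⟩
  one_smul t := Subtype.ext <| Prod.ext rfl <| Prod.ext (one_smul _ _) <| funext fun g => by
    change (1 : G₂) • t.1.2.2 ((1 : G₁)⁻¹ * g) = _
    simp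
  mul_smul a b t := Subtype.ext <| Prod.ext rfl <| Prod.ext (mul_smul _ _ _) <| funext fun g => by
    change (a.left g * b.left (a.right⁻¹ * g)) • t.1.2.2 ((a.right * b.right)⁻¹ * g) =
      a.left g • b.left (a.right⁻¹ * g) • t.1.2.2 (b.right⁻¹ * (a.right⁻¹ * g))
    rw [mul_smul, mul_inv_rev, mul_assoc]

variable {D}

theorem Xh.smul_val (w : RegularWreathProduct G₂ G₁) (t : D.Xh) : (w • t).1 =
    (t.1.1, w.right • t.1.2.1, fun g => w.left g • t.1.2.2 (w.right⁻¹ * g)) := rfl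

instance : ContinuousConstSMul (RegularWreathProduct G₂ G₁) D.Xh where
  continuous_const_smul w := by
    have := D.h₁.toContinuousConstSMul
    have := D.h₂.toContinuousConstSMul
    have : Continuous (Subtype.val : D.Xh → _) := continuous_subtype_val
    refine Continuous.subtype_mk ?_ _
    fun_prop

theorem Xh.free {w : RegularWreathProduct G₂ G₁} {t : D.Xh} (h : w • t = t) : w = 1 := by
  have h' := congrArg Subtype.val h
  rw [Xh.smul_val] at h'
  have h1 : w.right = 1 := D.free₁ (congrArg (fun t => t.2.1) h')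
  refine RegularWreathProduct.ext (funext fun g => ?_) h1
  have := congrFun (congrArg (fun t => t.2.2) h') g
  simp only [h1, inv_one, one_mul] at this
  exact D.free₂ this

theorem Xh.exists_smul {t t' : D.Xh} (h : t.1.1 = t'.1.1) :
    ∃ w : RegularWreathProduct G₂ G₁, w • t = t' := by
  obtain ⟨a, ha⟩ := D.h₁.apply_eq_iff_mem_orbit.1 (t'.2.1.trans (h ▸ t.2.1.symm))
  have ha' : a • t.1.2.1 = t'.1.2.1 := ha
  have : ∀ g, ∃ b : G₂, b • t.1.2.2 (a⁻¹ * g) = t'.1.2.2 g := fun g =>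
    D.h₂.apply_eq_iff_mem_orbit.1 (by
      rw [t'.2.2, t.2.2, mul_inv_rev, inv_inv, mul_smul, ha', h])
  choose b hb using this
  exact ⟨⟨b, a⟩, Subtype.ext <| Prod.ext h <| Prod.ext ha' <| funext hb⟩

variable (D) in
theorem Xh.exists_over (x : X) : ∃ t : D.Xh, t.1.1 = x := by
  obtain ⟨a, ha⟩ := D.h₁.surjective (D.q₁ x)
  choose b hb using fun g : G₁ => D.h₂.surjective (D.κ x (g⁻¹ • a))
  exact ⟨⟨(x, a, b), ha, hb⟩, rfl⟩

theorem Xh.lift_unique {A : Type*} [TopologicalSpace A] [PreconnectedSpace A] {f g : C(A, D.Xh)}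
    (h : ∀ a, (f a).1.1 = (g a).1.1) {a₀ : A} (h₀ : f a₀ = g a₀) : f = g := by
  have hf : Continuous fun a => (f a).1 := continuous_subtype_val.comp f.continuous
  have hg : Continuous fun a => (g a).1 := continuous_subtype_val.comp g.continuous
  have h1 : (fun a => (f a).1.2.1) = fun a => (g a).1.2.1 :=
    D.h₁.isCoveringMap.eq_of_comp_eq (by fun_prop) (by fun_prop)
      (funext fun a => by simp only [Function.comp_apply, (f a).2.1, (g a).2.1, h]) a₀ (by rw [h₀])
  have h2 : ∀ γ, (fun a => (f a).1.2.2 γ) = fun a => (g a).1.2.2 γ := fun γ =>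
    D.h₂.isCoveringMap.eq_of_comp_eq (by fun_prop) (by fun_prop)
      (funext fun a => by
        simp only [Function.comp_apply, (f a).2.2, (g a).2.2, h, congrFun h1 a]) a₀ (by rw [h₀])
  ext1 a
  exact Subtype.ext <| Prod.ext (h a) <| Prod.ext (congrFun h1 a) <|
    funext fun γ => congrFun (h2 γ) a

theorem Xh.exists_liftHomotopy [T1Space M₁] {A : Type*} [TopologicalSpace A]
    (H : C(unitInterval × A, X)) (f : C(A, D.Xh)) (h : ∀ a, H (0, a) = (f a).1.1) :
    ∃ H' : C(unitInterval × A, D.Xh), (∀ p, (H' p).1.1 = H p) ∧ ∀ a, H' (0, a) = f a := by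
  have := D.h₁.toContinuousConstSMul
  have hf : Continuous fun a => (f a).1 := continuous_subtype_val.comp f.continuous
  have c₁ := D.h₁.isCoveringMap
  have c₂ := D.h₂.isCoveringMap
  let f₁ : C(A, E₁) := ⟨fun a => (f a).1.2.1, by fun_prop⟩
  have h₁ : ∀ a, (D.q₁.comp H) (0, a) = D.p₁ (f₁ a) := fun a => by
    simp only [ContinuousMap.comp_apply, h, f₁, ContinuousMap.coe_mk, (f a).2.1]
  let α := c₁.liftHomotopy (D.q₁.comp H) f₁ h₁
  have hα : ∀ p, D.p₁ (α p) = D.q₁ (H p) := congrFun (c₁.liftHomotopy_lifts _ f₁ h₁)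
  have hα0 : ∀ a, α (0, a) = (f a).1.2.1 := c₁.liftHomotopy_zero _ f₁ h₁
  let k : G₁ → C(unitInterval × A, M₂) := fun g => ⟨fun p => D.κ (H p) (g⁻¹ • α p),
    D.continuous_κ H.continuous (by fun_prop) fun p => by rw [D.h₁.map_smul, hα]⟩
  let f₂ : G₁ → C(A, E₂) := fun g => ⟨fun a => (f a).1.2.2 g, by fun_prop⟩
  have h₂ : ∀ g a, k g (0, a) = D.p₂ (f₂ g a) := fun g a => by
    simp only [k, f₂, ContinuousMap.coe_mk, (f a).2.2, h, hα0]
  let β := fun g => c₂.liftHomotopy (k g) (f₂ g) (h₂ g)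
  refine ⟨⟨fun p => ⟨(H p, α p, fun g => β g p), hα p,
    fun g => congrFun (c₂.liftHomotopy_lifts _ (f₂ g) (h₂ g)) p⟩,
    Continuous.subtype_mk (by fun_prop) _⟩, fun _ => rfl, fun a => ?_⟩
  exact Subtype.ext <| Prod.ext (h a) <| Prod.ext (hα0 a) <|
    funext fun g => c₂.liftHomotopy_zero _ (f₂ g) (h₂ g) a

/-- The straight-line contraction of a simplex to its first vertex, run backwards. -/
noncomputable def expand (k : ℕ) : C(unitInterval × Sx (k + 1), Sx (k + 1)) :=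
  ⟨fun p => ⟨(1 - (p.1 : ℝ)) • (vtx 0).1 + (p.1 : ℝ) • p.2.1,
    convex_stdSimplex ℝ _ (vtx 0).2 p.2.2 (sub_nonneg.2 p.1.2.2) p.1.2.1 (by ring)⟩,
    Continuous.subtype_mk (by fun_prop) _⟩

theorem expand_zero (k : ℕ) (x : Sx (k + 1)) : expand k (0, x) = vtx 0 :=
  Subtype.ext (by simp [expand])

theorem expand_one (k : ℕ) (x : Sx (k + 1)) : expand k (1, x) = x :=
  Subtype.ext (by simp [expand])

theorem Xh.exists_lift [T1Space M₁] {k : ℕ} (σ : C(Sx k, X)) :
    ∃ σ' : C(Sx k, D.Xh), ∀ x, (σ' x).1.1 = σ x := by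
  cases k with
  | zero => exact ⟨⟨fun x => isEmptyElim x, continuous_of_discreteTopology⟩, fun x => isEmptyElim x⟩
  | succ k =>
    obtain ⟨t, ht⟩ := Xh.exists_over D (σ (vtx 0))
    obtain ⟨H, h1, -⟩ := Xh.exists_liftHomotopy (σ.comp (expand k)) (.const _ t) fun a => by
      simp [expand_zero, ht]
    exact ⟨H.comp ((ContinuousMap.const _ 1).prodMk (.id _)), fun x => by simp [h1, expand_one]⟩

theorem exists_lift_cov {E M : Type*} [TopologicalSpace E] [TopologicalSpace M] {p : E → M}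
    (hp : IsCoveringMap p) (hs : Function.Surjective p) {k : ℕ} (σ : C(Sx k, M)) :
    ∃ σ' : C(Sx k, E), ∀ x, p (σ' x) = σ x := by
  cases k with
  | zero => exact ⟨⟨fun x => isEmptyElim x, continuous_of_discreteTopology⟩, fun x => isEmptyElim x⟩
  | succ k =>
    obtain ⟨t, ht⟩ := hs (σ (vtx 0))
    have h : ∀ a, (σ.comp (expand k)) (0, a) = p (ContinuousMap.const _ t a) := fun a => by
      simp [expand_zero, ht]
    refine ⟨(hp.liftHomotopy _ _ h).comp ((ContinuousMap.const _ 1).prodMk (.id _)), fun x => ?_⟩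
    simpa [expand_one] using congrFun (hp.liftHomotopy_lifts _ _ h) (1, x)

theorem Xh.exists_smul_simplex {k : ℕ} {σ τ : C(Sx k, D.Xh)} (h : ∀ x, (σ x).1.1 = (τ x).1.1) :
    ∃ w : RegularWreathProduct G₂ G₁, w • σ = τ := by
  cases k with
  | zero => exact ⟨1, by ext x; exact isEmptyElim x⟩
  | succ k =>
    obtain ⟨w, hw⟩ := Xh.exists_smul (h (vtx 0))
    exact ⟨w, Xh.lift_unique h hw⟩

variable (D)

/-- The cover of the part of `X` over the second summand. -/
def Yh : Type _ := {t : X × E₂ // D.q₂ t.1 ≠ D.p₂ D.e₂ ∧ D.p₂ t.2 = D.q₂ t.1}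

instance : TopologicalSpace D.Yh := instTopologicalSpaceSubtype

instance : MulAction G₂ D.Yh where
  smul b t := ⟨(t.1.1, b • t.1.2), t.2.1, by rw [D.h₂.map_smul, t.2.2]⟩
  one_smul t := Subtype.ext <| Prod.ext rfl (one_smul _ _)
  mul_smul a b t := Subtype.ext <| Prod.ext rfl (mul_smul _ _ _)

open Classical in
/-- Inclusion of the cover of the second part into the wreath-product cover. -/
noncomputable def incl : C(D.Yh, D.Xh) where
  toFun t := ⟨(t.1.1, D.e₁, fun g => if g = 1 then t.1.2 else D.e₂),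
    ((D.wedge _).resolve_right t.2.1).symm, fun g => by
      by_cases hg : g = 1
      · simp [hg, κ, t.2.2]
      · have : g⁻¹ • D.e₁ ≠ D.e₁ := fun h => hg (inv_eq_one.1 (D.free₁ h))
        simp [hg, κ, this]⟩
  continuous_toFun := by
    have : Continuous (Subtype.val : D.Yh → _) := continuous_subtype_val
    refine Continuous.subtype_mk (Continuous.prodMk (by fun_prop)
      (Continuous.prodMk continuous_const (continuous_pi fun g => ?_))) _
    split_ifs <;> fun_prop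

open Classical in
/-- Inclusion of the second group as the first coordinate of the base of the wreath product. -/
noncomputable def eps (G₁ G₂ : Type*) [Group G₁] [Group G₂] : G₂ →* RegularWreathProduct G₂ G₁ where
  toFun b := ⟨fun g => if g = 1 then b else 1, 1⟩
  map_one' := by ext <;> simp
  map_mul' a b := by
    ext g
    · by_cases hg : g = 1 <;> simp [hg]
    · simp

theorem incl_smul (b : G₂) (t : D.Yh) : D.incl (b • t) = eps G₁ G₂ b • D.incl t := by
  refine Subtype.ext <| Prod.ext rfl <| Prod.ext (one_smul _ _).symm <| funext fun g => ?_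
  rw [Xh.smul_val]
  by_cases hg : g = 1
  · simp [incl, eps, hg]; rfl
  · simp [incl, eps, hg]

/-- The total cover. -/
def Zh : Type _ := D.Xh × D.Yh

instance : TopologicalSpace D.Zh := instTopologicalSpaceProd

instance : MulAction (RegularWreathProduct G₂ G₁ × G₂) D.Zh where
  smul γ z := (γ.1 • z.1, γ.2 • z.2)
  one_smul _ := Prod.ext (one_smul _ _) (one_smul _ _)
  mul_smul _ _ _ := Prod.ext (mul_smul _ _ _) (mul_smul _ _ _)

instance : ContinuousConstSMul G₂ D.Yh where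
  continuous_const_smul w := by
    have := D.h₂.toContinuousConstSMul
    have : Continuous (Subtype.val : D.Yh → _) := continuous_subtype_val
    refine Continuous.subtype_mk ?_ _
    fun_prop

instance : ContinuousConstSMul (RegularWreathProduct G₂ G₁ × G₂) D.Zh where
  continuous_const_smul γ :=
    ((continuous_const_smul γ.1).comp continuous_fst).prodMk
      ((continuous_const_smul γ.2).comp continuous_snd)

/-- First projection. -/
def Zh.fst : C(D.Zh, D.Xh) := ⟨Prod.fst, continuous_fst⟩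

/-- Second projection. -/
def Zh.snd : C(D.Zh, D.Yh) := ⟨Prod.snd, continuous_snd⟩

/-- Partial projection forgetting the first cover. -/
def pr' : C(D.Zh, (X × X) × E₂) :=
  ⟨fun z => ((z.1.1.1, z.2.1.1), z.2.1.2), by
    have h1 : Continuous fun z : D.Zh => z.1.1 := continuous_subtype_val.comp continuous_fst
    have h2 : Continuous fun z : D.Zh => z.2.1 := continuous_subtype_val.comp continuous_snd
    fun_prop⟩

/-- Projection to the base. -/
def pr : C(D.Zh, X × X) := ContinuousMap.fst.comp D.pr'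

/-- The equivariant map to the product of the two coverings. -/
def fE : C(D.Zh, E₁ × E₂) :=
  ⟨fun z => (z.1.1.2.1, z.2.1.2), by
    have h1 : Continuous fun z : D.Zh => z.1.1 := continuous_subtype_val.comp continuous_fst
    have h2 : Continuous fun z : D.Zh => z.2.1 := continuous_subtype_val.comp continuous_snd
    fun_prop⟩

variable {D}

theorem Zh.exists_smul_simplex' {k : ℕ} {σ τ : C(Sx k, D.Zh)}
    (h : D.pr'.comp σ = D.pr'.comp τ) :
    ∃ w : RegularWreathProduct G₂ G₁, (w, (1 : G₂)) • σ = τ := by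
  obtain ⟨w, hw⟩ := Xh.exists_smul_simplex (σ := (Zh.fst D).comp σ) (τ := (Zh.fst D).comp τ)
    fun x => congrArg (fun t => t.1.1) (DFunLike.congr_fun h x)
  refine ⟨w, ContinuousMap.ext fun x => Prod.ext (DFunLike.congr_fun hw x) ?_⟩
  have := DFunLike.congr_fun h x
  exact (one_smul _ _).trans (Subtype.ext (Prod.ext (congrArg (fun t => t.1.2) this)
    (congrArg (fun t => t.2) this)))

theorem Zh.exists_smul_simplex {k : ℕ} {σ τ : C(Sx k, D.Zh)}
    (h : D.pr.comp σ = D.pr.comp τ) : ∃ γ : RegularWreathProduct G₂ G₁ × G₂, γ • σ = τ := by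
  cases k with
  | zero => exact ⟨1, by ext x; exact isEmptyElim x⟩
  | succ k =>
    have := D.h₂.toContinuousConstSMul
    have h' : ∀ x, D.pr (σ x) = D.pr (τ x) := DFunLike.congr_fun h
    have hp : ∀ x, D.p₂ (D.pr' (τ x)).2 = D.p₂ (D.pr' (σ x)).2 := fun x =>
      (τ x).2.2.2.trans ((congrArg (fun t => D.q₂ t.2) (h' x)).symm.trans (σ x).2.2.2.symm)
    obtain ⟨b, hb⟩ := D.h₂.apply_eq_iff_mem_orbit.1 (hp (vtx 0))
    have h2 : (fun x => b • (D.pr' (σ x)).2) = fun x => (D.pr' (τ x)).2 :=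
      D.h₂.isCoveringMap.eq_of_comp_eq (by fun_prop) (by fun_prop)
        (funext fun x => by simp only [Function.comp_apply, D.h₂.map_smul, hp]) (vtx 0) hb
    obtain ⟨w, hw⟩ := Zh.exists_smul_simplex'
      (σ := ((1 : RegularWreathProduct G₂ G₁), b) • σ) (τ := τ)
      (ContinuousMap.ext fun x => Prod.ext (h' x) (congrFun h2 x))
    exact ⟨_, (mul_smul _ _ _).trans hw⟩

theorem Zh.exists_lift' [T1Space M₁] {k : ℕ} (τ : C(Sx k, (X × X) × E₂))
    (h : ∀ x, D.q₂ (τ x).1.2 ≠ D.p₂ D.e₂ ∧ D.p₂ (τ x).2 = D.q₂ (τ x).1.2) :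
    ∃ σ : C(Sx k, D.Zh), D.pr'.comp σ = τ := by
  obtain ⟨σ₁, h₁⟩ := Xh.exists_lift (D := D) (ContinuousMap.fst.comp (ContinuousMap.fst.comp τ))
  let σ₂ : C(Sx k, D.Yh) := ⟨fun x => ⟨((τ x).1.2, (τ x).2), h x⟩,
    Continuous.subtype_mk (by fun_prop) _⟩
  exact ⟨σ₁.prodMk σ₂, ContinuousMap.ext fun x => Prod.ext (Prod.ext (h₁ x) rfl) rfl⟩

theorem Zh.exists_lift [T1Space M₁] {k : ℕ} (τ : C(Sx k, X × X))
    (h : ∀ x, D.q₂ (τ x).2 ≠ D.p₂ D.e₂) : ∃ σ : C(Sx k, D.Zh), D.pr.comp σ = τ := by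
  obtain ⟨β, hβ⟩ := exists_lift_cov D.h₂.isCoveringMap D.h₂.surjective
    (D.q₂.comp (ContinuousMap.snd.comp τ))
  obtain ⟨σ, hσ⟩ := Zh.exists_lift' (D := D) (τ.prodMk β) fun x => ⟨h x, hβ x⟩
  exact ⟨σ, by rw [pr, ContinuousMap.comp_assoc, hσ]; rfl⟩

/-- The label of a point of the cover with respect to a local motion planner. -/
def IsLab {U : Set (X × X)} (s : C(U, C(unitInterval, X))) (z : D.Zh)
    (w : RegularWreathProduct G₂ G₁) : Prop :=
  ∃ (hz : D.pr z ∈ U) (Γ : C(unitInterval, D.Xh)), (∀ t, (Γ t).1.1 = s ⟨_, hz⟩ t) ∧ Γ 0 = z.1 ∧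
    Γ 1 = w • D.incl z.2

theorem IsLab.unique {U : Set (X × X)} {s : C(U, C(unitInterval, X))} {z : D.Zh}
    {w w' : RegularWreathProduct G₂ G₁} (h : IsLab s z w) (h' : IsLab s z w') : w = w' := by
  obtain ⟨hz, Γ, h1, h2, h3⟩ := h
  obtain ⟨_, Γ', h1', h2', h3'⟩ := h'
  obtain rfl : Γ = Γ' := Xh.lift_unique (fun t => by rw [h1, h1']) (h2.trans h2'.symm)
  have : (w'⁻¹ * w) • D.incl z.2 = D.incl z.2 := by rw [mul_smul, ← h3, h3', inv_smul_smul]
  exact (inv_mul_eq_one.1 (Xh.free this)).symm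

theorem IsLab.smul {U : Set (X × X)} {s : C(U, C(unitInterval, X))} {z : D.Zh}
    {w : RegularWreathProduct G₂ G₁} (h : IsLab s z w) (γ : RegularWreathProduct G₂ G₁ × G₂) :
    IsLab s (γ • z) (γ.1 * w * (eps G₁ G₂ γ.2)⁻¹) := by
  obtain ⟨hz, Γ, h1, h2, h3⟩ := h
  refine ⟨hz, γ.1 • Γ, h1, congrArg (γ.1 • ·) h2, ?_⟩
  change γ.1 • Γ 1 = _ • D.incl (γ.2 • z.2)
  rw [incl_smul, mul_smul, inv_smul_smul, mul_smul, h3]

theorem exists_isLab_of_preconnected [T1Space M₁] {U : Set (X × X)}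
    (s : C(U, C(unitInterval, X))) (hs : ∀ u, s u 0 = u.1.1 ∧ s u 1 = u.1.2) {A : Type*}
    [TopologicalSpace A] [PreconnectedSpace A] [Nonempty A] (σ : C(A, D.Zh))
    (hσ : ∀ a, D.pr (σ a) ∈ U) : ∃ w, ∀ a, IsLab s (σ a) w := by
  let u : C(A, U) := ⟨fun a => ⟨D.pr (σ a), hσ a⟩, Continuous.subtype_mk (by fun_prop) _⟩
  obtain ⟨H, h1, h2⟩ := Xh.exists_liftHomotopy (D := D)
    ⟨fun p : unitInterval × A => s (u p.2) p.1, by fun_prop⟩ ((Zh.fst D).comp σ) fun a => (hs _).1
  obtain ⟨a₀⟩ := ‹Nonempty A›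
  have h3 : ∀ a, (D.incl (σ a).2).1.1 = (H (1, a)).1.1 := fun a => ((h1 _).trans (hs _).2).symm
  obtain ⟨w, hw⟩ := Xh.exists_smul (h3 a₀)
  have := Xh.lift_unique (f := w • D.incl.comp ((Zh.snd D).comp σ))
    (g := H.comp ((ContinuousMap.const _ 1).prodMk (.id _))) h3 (a₀ := a₀) hw
  exact ⟨w, fun a => ⟨hσ a, H.comp ((ContinuousMap.id _).prodMk (.const _ a)), fun t => h1 _, h2 a,
    (DFunLike.congr_fun this a).symm⟩⟩

end Setup

end Pool.Agent.Lib.MP_c77dc5_gt.H72
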