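import Pool.Agent.Shared.H72Sing.FundClass

/-!
Equivariant chain maps and homotopies into an acyclic complex, mod two.
-/

namespace Pool.Agent.Lib.MP_c77dc5_gt.H72

open Finsupp Set Pool.Agent.Shared.H72Sing
open scoped Pointwise

theorem exists_seq {T : ℕ → Type*} (P : ∀ k, T k → Prop) (Rel : ∀ k, T k → T (k + 1) → Prop)
    (t₀ : T 0) (h₀ : P 0 t₀) (step : ∀ k t, P k t → ∃ t', P (k + 1) t' ∧ Rel k t t') :
    ∃ f : ∀ k, T k, f 0 = t₀ ∧ ∀ k, P k (f k) ∧ Rel k (f k) (f (k + 1)) := by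
  choose s hs using step
  let g : ∀ k, {t : T k // P k t} := fun k =>
    Nat.rec ⟨t₀, h₀⟩ (fun k t => ⟨s k t.1 t.2, (hs k t.1 t.2).1⟩) k
  exact ⟨fun k => (g k).1, rfl, fun k => ⟨(g k).2, (hs k (g k).1 (g k).2).2⟩⟩

theorem equivariant_choice {Γ A M : Type*} [Group Γ] [MulAction Γ A] (ρ : Γ → M → M)
    (ρ_mul : ∀ a b m, ρ (a * b) m = ρ a (ρ b m)) (Q : A → M → Prop)
    (hQ : ∀ γ a m, Q a m → Q (γ • a) (ρ γ m))
    (hex : ∀ a, ∃ m, Q a m ∧ ∀ γ : Γ, γ • a = a → ρ γ m = m) :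
    ∃ F : A → M, (∀ a, Q a (F a)) ∧ ∀ γ a, F (γ • a) = ρ γ (F a) := by
  choose m hm hm' using hex
  let r : A → A := fun a => (Quotient.mk (MulAction.orbitRel Γ A) a).out
  have hr : ∀ a, ∃ γ : Γ, γ • r a = a := fun a =>
    (MulAction.orbitRel Γ A).symm (Quotient.mk_out (s := MulAction.orbitRel Γ A) a)
  choose c hc using hr
  have hr' : ∀ (γ : Γ) a, r (γ • a) = r a := fun γ a => by
    have : Quotient.mk (MulAction.orbitRel Γ A) (γ • a) = Quotient.mk _ a :=
      Quotient.sound ⟨γ, rfl⟩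
    simp only [r, this]
  refine ⟨fun a => ρ (c a) (m (r a)), fun a => ?_, fun γ a => ?_⟩
  · have := hQ (c a) _ _ (hm (r a))
    rwa [hc] at this
  · have h1 : ((γ * c a)⁻¹ * c (γ • a)) • r a = r a := by
      rw [mul_smul, ← hr' γ a, hc, hr', inv_smul_eq_iff, mul_smul, hc]
    simp only [hr']
    rw [← ρ_mul]
    conv_rhs => rw [← hm' _ _ h1, ← ρ_mul, mul_inv_cancel_left]

/-- An acyclic augmented complex of vector spaces over the field with two elements, with a group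
action. -/
structure EqCx (Γ : Type*) [Group Γ] (B : ℕ → Type*) [∀ k, AddCommGroup (B k)]
    [∀ k, Module (ZMod 2) (B k)] where
  d : ∀ k, B (k + 1) →ₗ[ZMod 2] B k
  ρ : Γ → ∀ k, B k →ₗ[ZMod 2] B k
  ρ_mul : ∀ a b k m, ρ (a * b) k m = ρ a k (ρ b k m)
  ρ_d : ∀ a k m, d k (ρ a (k + 1) m) = ρ a k (d k m)
  exact : ∀ k z, d k z = 0 → ∃ w, d (k + 1) w = z
  surj : ∀ z, ∃ w, d 0 w = z

theorem sum_erase_erase {V M : Type*} [DecidableEq V] [AddCommGroup M] [Module (ZMod 2) M]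
    (T : Finset V) (Φ : Finset V → M) :
    ∑ v ∈ T, ∑ w ∈ T.erase v, Φ ((T.erase v).erase w) = 0 := by
  rw [Finset.sum_sigma']
  refine Finset.sum_involution (fun p _ => ⟨p.2, p.1⟩) ?_ ?_ ?_ ?_
  · rintro ⟨v, w⟩ _
    simp only [Finset.erase_right_comm (a := v)]
    exact ZModModule.add_self _
  · rintro ⟨v, w⟩ h _ h'
    simp only [Finset.mem_sigma, Finset.mem_erase] at h
    exact h.2.1 (congrArg Sigma.fst h')
  · rintro ⟨v, w⟩ h
    simp only [Finset.mem_sigma, Finset.mem_erase] at h ⊢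
    exact ⟨h.2.2, h.2.1.symm, h.1⟩
  · rintro ⟨v, w⟩ _
    rfl

section Psi

variable {Γ : Type*} [Group Γ] {B : ℕ → Type*} [∀ k, AddCommGroup (B k)]
  [∀ k, Module (ZMod 2) (B k)] {V Ω C : Type*} [MulAction Γ V] [MulAction Γ Ω] [DecidableEq V]

theorem smul_erase (γ : Γ) (T : Finset V) (v : V) : γ • T.erase v = (γ • T).erase (γ • v) := by
  ext w
  simp only [Finset.mem_erase, ← Finset.inv_smul_mem_iff, ne_eq, inv_smul_eq_iff]

theorem sum_smul_finset {M : Type*} [AddCommMonoid M] (γ : Γ) (T : Finset V) (f : V → M) :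
    ∑ v ∈ γ • T, f v = ∑ v ∈ T, f (γ • v) :=
  Finset.sum_image fun _ _ _ _ h => MulAction.injective γ h

theorem exists_psi (X : EqCx Γ B) (col : V → C) (hcol : ∀ (γ : Γ) v, col (γ • v) = col v)
    (gr : V → Ω) (hgr : ∀ (γ : Γ) v, gr (γ • v) = γ • gr v)
    (hstab : ∀ (γ : Γ) v w, γ • v = v → γ • w = w → gr v ≠ gr w → ∀ k m, X.ρ γ k m = m)
    (fv : ∀ k, Ω → B k) (hfv : ∀ γ k g, X.ρ γ k (fv k g) = fv k (γ • g))
    (hfd : ∀ k g, X.d k (fv (k + 1) g) = (k + 1) • fv k g)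
    (u : B 0) (hu : ∀ g, fv 0 g = u) (hu' : ∀ γ, X.ρ γ 0 u = u) :
    ∃ ψ : ∀ k, Finset V → B k, (∀ T, ψ 0 T = u) ∧ (∀ k γ T, ψ k (γ • T) = X.ρ γ k (ψ k T)) ∧
      ∀ k (T : Finset V), InjOn col T → T.card = k + 1 →
        X.d k (ψ (k + 1) T) = ∑ v ∈ T, ψ k (T.erase v) := by
  obtain ⟨ψ, h0, h⟩ := exists_seq (T := fun k => Finset V → B k)
    (fun k ψ => (∀ γ T, ψ (γ • T) = X.ρ γ k (ψ T)) ∧
      (∀ (T : Finset V) g, InjOn col T → T.card = k → (∀ v ∈ T, gr v = g) → ψ T = fv k g) ∧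
      ∀ T : Finset V, InjOn col T → T.card = k + 1 → ∃ b, X.d k b = ∑ v ∈ T, ψ (T.erase v))
    (fun k ψ ψ' => ∀ T : Finset V, InjOn col T → T.card = k + 1 →
      X.d k (ψ' T) = ∑ v ∈ T, ψ (T.erase v))
    (fun _ => u) ⟨fun γ _ => (hu' γ).symm, fun _ g _ _ _ => (hu g).symm, fun _ _ _ => X.surj _⟩
    (by
      rintro k ψ ⟨h1, h2, h3⟩
      have herase : ∀ (T : Finset V) (l : ℕ) v, InjOn col T → T.card = l + 1 → v ∈ T →
          InjOn col (T.erase v) ∧ (T.erase v).card = l := fun T l v hT hc hv =>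
        ⟨hT.mono (by simp), by rw [Finset.card_erase_of_mem hv, hc]; rfl⟩
      obtain ⟨ψ', h4, h5⟩ := equivariant_choice (Γ := Γ) (A := Finset V)
        (fun γ m => X.ρ γ (k + 1) m) (fun a b m => X.ρ_mul a b _ m)
        (fun T b => InjOn col T → T.card = k + 1 → X.d k b = ∑ v ∈ T, ψ (T.erase v) ∧
          ∀ g, (∀ v ∈ T, gr v = g) → b = fv (k + 1) g)
        (by
          intro γ T b hQ hT hc
          have hT' : InjOn col T := fun v hv w hw hvw => MulAction.injective γ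
            (hT (Finset.smul_mem_smul_finset hv) (Finset.smul_mem_smul_finset hw)
              (by rwa [hcol, hcol]))
          obtain ⟨e1, e2⟩ := hQ hT' (by rwa [Finset.card_smul_finset] at hc)
          refine ⟨?_, fun g hg => ?_⟩
          · rw [X.ρ_d, e1, map_sum, sum_smul_finset]
            simp only [← smul_erase, h1]
          · rw [e2 (γ⁻¹ • g) fun v hv => ?_, hfv, smul_inv_smul]
            rw [eq_inv_smul_iff, ← hgr, hg _ (Finset.smul_mem_smul_finset hv)])
        (by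
          intro T
          by_cases hT : InjOn col T ∧ T.card = k + 1
          swap
          · exact ⟨0, fun a b => absurd ⟨a, b⟩ hT, fun γ _ => map_zero _⟩
          obtain ⟨hT, hc⟩ := hT
          obtain ⟨v₀, hv₀⟩ : T.Nonempty := Finset.card_pos.1 (by omega)
          by_cases hfl : ∀ v ∈ T, gr v = gr v₀
          · refine ⟨fv (k + 1) (gr v₀), fun _ _ => ⟨?_, fun g hg => by rw [hg v₀ hv₀]⟩,
              fun γ hγ => ?_⟩
            · rw [hfd, ← hc, ← Finset.sum_const]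
              refine Finset.sum_congr rfl fun v hv => (h2 _ _ (herase T k v hT hc hv).1
                (herase T k v hT hc hv).2 fun w hw => hfl w (Finset.mem_of_mem_erase hw)).symm
            · rw [hfv, ← hgr, hfl _ (hγ ▸ Finset.smul_mem_smul_finset hv₀)]
          · obtain ⟨b, hb⟩ := h3 T hT hc
            refine ⟨b, fun _ _ => ⟨hb, fun g hg => absurd (fun v hv => ?_) hfl⟩, fun γ hγ => ?_⟩
            · rw [hg v hv, hg v₀ hv₀]
            · push Not at hfl
              obtain ⟨v, hv, hne⟩ := hfl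
              have hfix : ∀ w ∈ T, γ • w = w := fun w hw =>
                hT (hγ ▸ Finset.smul_mem_smul_finset hw) hw (hcol γ w)
              exact hstab γ v v₀ (hfix v hv) (hfix v₀ hv₀) hne _ _)
      refine ⟨ψ', ⟨h5, fun T g hT hc hg => (h4 T hT hc).2 g hg, fun T hT hc => X.exact _ _ ?_⟩,
        fun T hT hc => (h4 T hT hc).1⟩
      rw [map_sum, ← sum_erase_erase T ψ]
      exact Finset.sum_congr rfl fun v hv =>
        (h4 _ (herase T _ v hT hc hv).1 (herase T _ v hT hc hv).2).1)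
  exact ⟨ψ, fun T => by rw [h0], fun k => (h k).1.1, fun k => (h k).2⟩

theorem sum_faces_tuple {M : Type*} [AddCommGroup M] [Module (ZMod 2) M] {k : ℕ}
    (t : Fin (k + 1) → V) (Φ : Finset V → M) :
    ∑ i : Fin (k + 1), (if (Finset.univ.image (t ∘ i.succAbove)).card = k then
      Φ (Finset.univ.image (t ∘ i.succAbove)) else 0) =
    if (Finset.univ.image t).card = k + 1 then
      ∑ v ∈ Finset.univ.image t, Φ ((Finset.univ.image t).erase v) else 0 := by
  have hinj : ∀ {l : ℕ} (s : Fin l → V), (Finset.univ.image s).card = l ↔ Function.Injective s := by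
    intro l s
    rw [← Set.injOn_univ, ← Finset.coe_univ, ← Finset.card_image_iff, Finset.card_fin]
  simp only [hinj]
  split_ifs with h
  · rw [Finset.sum_image fun _ _ _ _ hab => h hab]
    refine Finset.sum_congr rfl fun i _ => ?_
    rw [if_pos (h.comp Fin.succAbove_right_injective), ← Finset.image_erase h,
      ← Finset.image_image, Fin.image_succAbove_univ, Finset.compl_singleton]
  · obtain ⟨a, b, hab, hne⟩ := Function.not_injective_iff.1 h
    have himg : ∀ a b : Fin (k + 1), t a = t b → a ≠ b →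
        Finset.univ.image (t ∘ a.succAbove) = Finset.univ.image t := by
      intro a b hab hne
      ext v
      simp only [Finset.mem_image, Finset.mem_univ, true_and, Function.comp_apply]
      constructor
      · rintro ⟨j, rfl⟩; exact ⟨_, rfl⟩
      · rintro ⟨j, rfl⟩
        by_cases hj : j = a
        · obtain ⟨j', hj'⟩ := Fin.exists_succAbove_eq hne.symm
          exact ⟨j', by rw [hj', hj, hab]⟩
        · obtain ⟨j', hj'⟩ := Fin.exists_succAbove_eq hj
          exact ⟨j', by rw [hj']⟩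
    rw [Finset.sum_eq_add_of_mem a b (Finset.mem_univ _) (Finset.mem_univ _) hne]
    · simp only [← hinj, himg a b hab hne, himg b a hab.symm hne.symm]
      exact ZModModule.add_self _
    · rintro c - ⟨hca, hcb⟩
      refine if_neg fun hc => ?_
      obtain ⟨a', rfl⟩ := Fin.exists_succAbove_eq hca.symm
      obtain ⟨b', rfl⟩ := Fin.exists_succAbove_eq hcb.symm
      exact hne (congrArg _ (hc hab))

end Psi

section Hom

variable {Γ : Type*} [Group Γ] {B : ℕ → Type*} [∀ k, AddCommGroup (B k)]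
  [∀ k, Module (ZMod 2) (B k)] {Z : Type*} [TopologicalSpace Z] [MulAction Γ Z]
  [ContinuousConstSMul Γ Z]

theorem bd_single_two {k : ℕ} (σ : C(Sx (k + 1), Z)) :
    bd (ZMod 2) Z k (single σ 1) = ∑ i : Fin (k + 1), single (σ.comp (face i)) 1 := by
  rw [bd_single]
  simp

theorem lc_bd_single {M : Type*} [AddCommGroup M] [Module (ZMod 2) M] {k : ℕ}
    (F : C(Sx k, Z) → M) (σ : C(Sx (k + 1), Z)) :
    linearCombination (ZMod 2) F (bd (ZMod 2) Z k (single σ 1)) =
      ∑ i : Fin (k + 1), F (σ.comp (face i)) := by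
  rw [bd_single_two, map_sum]
  simp

theorem exists_hom (X : EqCx Γ B) (hfree : ∀ (γ : Γ) (z : Z), γ • z = z → ∀ k m, X.ρ γ k m = m)
    (sm : ∀ k, C(Sx k, Z) → Prop) (hsm : ∀ k (γ : Γ) σ, sm k (γ • σ) → sm k σ)
    (hsm' : ∀ k σ (i : Fin (k + 1)), sm (k + 1) σ → sm k (σ.comp (face i)))
    (F : ∀ k, C(Sx k, Z) → B k) (hF0 : ∀ σ, F 0 σ = 0)
    (hF : ∀ k γ σ, F k (γ • σ) = X.ρ γ k (F k σ))
    (hFd : ∀ k σ, sm (k + 1) σ → X.d k (F (k + 1) σ) = ∑ i : Fin (k + 1), F k (σ.comp (face i))) :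
    ∃ h : ∀ k, C(Sx k, Z) → B (k + 1), (∀ k γ σ, h k (γ • σ) = X.ρ γ (k + 1) (h k σ)) ∧
      ∀ k, ∀ z ∈ supported (ZMod 2) (ZMod 2) {σ | sm (k + 1) σ},
        X.d (k + 1) (linearCombination (ZMod 2) (h (k + 1)) z) =
          linearCombination (ZMod 2) (F (k + 1)) z -
            linearCombination (ZMod 2) (h k) (bd (ZMod 2) Z k z) := by
  have hlin : ∀ k (h : C(Sx k, Z) → B (k + 1)) (h' : C(Sx (k + 1), Z) → B (k + 2)),
      (∀ σ, sm (k + 1) σ → X.d (k + 1) (h' σ) =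
        F (k + 1) σ - ∑ i : Fin (k + 1), h (σ.comp (face i))) →
      ∀ z ∈ supported (ZMod 2) (ZMod 2) {σ | sm (k + 1) σ},
        X.d (k + 1) (linearCombination (ZMod 2) h' z) = linearCombination (ZMod 2) (F (k + 1)) z -
            linearCombination (ZMod 2) h (bd (ZMod 2) Z k z) := by
    intro k h h' hh z hz
    refine eq_of_support (f := (X.d (k + 1)).comp (linearCombination (ZMod 2) h'))
      (g := linearCombination (ZMod 2) (F (k + 1)) -
        (linearCombination (ZMod 2) h).comp (bd (ZMod 2) Z k)) fun σ hσ => ?_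
    simp only [LinearMap.comp_apply, LinearMap.sub_apply, linearCombination_single, one_smul,
      lc_bd_single]
    exact hh σ (hz hσ)
  obtain ⟨h, -, hh⟩ := exists_seq (T := fun k => C(Sx k, Z) → B (k + 1))
    (fun k h => (∀ γ σ, h (γ • σ) = X.ρ γ (k + 1) (h σ)) ∧ ∀ σ, sm (k + 1) σ →
      X.d k (F (k + 1) σ - ∑ i : Fin (k + 1), h (σ.comp (face i))) = 0)
    (fun k h h' => ∀ σ, sm (k + 1) σ → X.d (k + 1) (h' σ) =
      F (k + 1) σ - ∑ i : Fin (k + 1), h (σ.comp (face i)))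
    (fun _ => 0) ⟨fun _ _ => (map_zero _).symm, fun σ hσ => by simp [hFd 0 σ hσ, hF0]⟩
    (by
      rintro k h ⟨h1, h2⟩
      obtain ⟨h', h4, h5⟩ := equivariant_choice (Γ := Γ) (A := C(Sx (k + 1), Z))
        (fun γ m => X.ρ γ (k + 2) m) (fun a b m => X.ρ_mul a b _ m)
        (fun σ b => sm (k + 1) σ → X.d (k + 1) b =
          F (k + 1) σ - ∑ i : Fin (k + 1), h (σ.comp (face i)))
        (by
          intro γ σ b hQ hσ
          rw [X.ρ_d, hQ (hsm _ γ σ hσ), map_sub, map_sum, hF]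
          simp only [← h1]
          rfl)
        (by
          intro σ
          have hfix : ∀ (b : B (k + 2)) (γ : Γ), γ • σ = σ → X.ρ γ (k + 2) b = b := fun b γ hγ =>
            hfree γ (σ (vtx 0)) (DFunLike.congr_fun hγ (vtx 0)) _ _
          by_cases hσ : sm (k + 1) σ
          · obtain ⟨b, hb⟩ := X.exact _ _ (h2 σ hσ)
            exact ⟨b, fun _ => hb, hfix b⟩
          · exact ⟨0, fun h => absurd h hσ, hfix 0⟩)
      refine ⟨h', ⟨h5, fun σ hσ => ?_⟩, h4⟩
      rw [map_sub, hFd _ σ hσ, ← lc_bd_single, ← lc_bd_single, hlin k h h' h4, bd_bd]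
      · simp
      · rw [bd_single_two]
        exact Submodule.sum_mem _ fun i _ => single_mem_supported _ _ (hsm' _ σ i hσ))
  exact ⟨h, fun k => (hh k).1.1, fun k => hlin k _ _ (hh k).2⟩

/-- Combination of the two constructions: a labelling by few colours makes an equivariant chain
map null-homotopic in high degrees. -/
theorem exists_nullhom {V Ω : Type*} [MulAction Γ V] [MulAction Γ Ω] {N : ℕ} (X : EqCx Γ B)
    (hfree : ∀ (γ : Γ) (z : Z), γ • z = z → ∀ k m, X.ρ γ k m = m)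
    (sm : ∀ k, C(Sx k, Z) → Prop) (hsm : ∀ k (γ : Γ) σ, sm k (γ • σ) → sm k σ)
    (hsm' : ∀ k σ (i : Fin (k + 1)), sm (k + 1) σ → sm k (σ.comp (face i)))
    (col : V → Fin N) (hcol : ∀ (γ : Γ) v, col (γ • v) = col v)
    (gr : V → Ω) (hgr : ∀ (γ : Γ) v, gr (γ • v) = γ • gr v)
    (hstab : ∀ (γ : Γ) v w, γ • v = v → γ • w = w → gr v ≠ gr w → ∀ k m, X.ρ γ k m = m)
    (fv : ∀ k, Ω → B k) (hfv : ∀ γ k g, X.ρ γ k (fv k g) = fv k (γ • g))
    (hfd : ∀ k g, X.d k (fv (k + 1) g) = (k + 1) • fv k g)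
    (u : B 0) (hu : ∀ g, fv 0 g = u) (hu' : ∀ γ, X.ρ γ 0 u = u)
    (lab : Z → V) (hlab : ∀ (γ : Γ) z, lab (γ • z) = γ • lab z)
    (hlab' : ∀ k σ, sm k σ → ∀ x y, col (lab (σ x)) = col (lab (σ y)) → lab (σ x) = lab (σ y))
    (f : ∀ k, C(Sx k, Z) → B k) (hf0 : ∀ σ, f 0 σ = u)
    (hf : ∀ k γ σ, f k (γ • σ) = X.ρ γ k (f k σ))
    (hfd' : ∀ k σ, X.d k (f (k + 1) σ) = ∑ i : Fin (k + 1), f k (σ.comp (face i))) :
    ∃ h : ∀ k, C(Sx k, Z) → B (k + 1), (∀ k γ σ, h k (γ • σ) = X.ρ γ (k + 1) (h k σ)) ∧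
      ∀ k, N ≤ k → ∀ z ∈ supported (ZMod 2) (ZMod 2) {σ | sm (k + 1) σ},
        X.d (k + 1) (linearCombination (ZMod 2) (h (k + 1)) z) =
          linearCombination (ZMod 2) (f (k + 1)) z -
            linearCombination (ZMod 2) (h k) (bd (ZMod 2) Z k z) := by
  classical
  obtain ⟨ψ, hψ0, hψ, hψd⟩ := exists_psi X col hcol gr hgr hstab fv hfv hfd u hu hu'
  let T : ∀ k, C(Sx k, Z) → Finset V := fun k σ => Finset.univ.image fun i => lab (σ (vtx i))
  have hT : ∀ k σ, sm k σ → InjOn col (T k σ) := by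
    intro k σ hσ v hv w hw hvw
    obtain ⟨i, -, rfl⟩ := Finset.mem_image.1 hv
    obtain ⟨j, -, rfl⟩ := Finset.mem_image.1 hw
    exact hlab' k σ hσ _ _ hvw
  have hTs : ∀ k (γ : Γ) σ, T k (γ • σ) = γ • T k σ := by
    intro k γ σ
    simp only [T, Finset.smul_finset_def, Finset.image_image]
    congr 1
    funext i
    exact hlab γ _
  let g : ∀ k, C(Sx k, Z) → B k := fun k σ => if (T k σ).card = k then ψ k (T k σ) else 0
  obtain ⟨h, h1, h2⟩ := exists_hom X hfree sm hsm hsm' (fun k σ => f k σ - g k σ)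
    (fun σ => by simp [g, T, hf0, hψ0])
    (fun k γ σ => by
      simp only [g, hTs, Finset.card_smul_finset, hf, map_sub, hψ]
      split_ifs <;> simp)
    (fun k σ hσ => by
      rw [map_sub, hfd', Finset.sum_sub_distrib]
      congr 1
      have := sum_faces_tuple (fun i => lab (σ (vtx i))) (ψ k)
      have e : ∀ i : Fin (k + 1), T k (σ.comp (face i)) =
          Finset.univ.image ((fun i => lab (σ (vtx i))) ∘ i.succAbove) := by
        intro i
        simp only [T, ContinuousMap.comp_apply, face_vtx]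
        rfl
      simp only [g, e]
      rw [this]
      split_ifs with hc
      · exact hψd k _ (hT _ σ hσ) hc
      · exact map_zero _)
  refine ⟨h, h1, fun k hk z hz => ?_⟩
  rw [h2 k z hz]
  congr 1
  refine eq_of_support fun σ hσ => ?_
  simp only [linearCombination_single, one_smul, g]
  rw [if_neg, sub_zero]
  intro hc
  have := Finset.card_le_card_of_injOn col (t := Finset.univ) (by simp) (hT _ σ (hz hσ))
  rw [hc, Finset.card_fin] at this
  omega

end Hom

end Pool.Agent.Lib.MP_c77dc5_gt.H72
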