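import Pool.Agent.Lib.MP_c77dc5_gt.H72ConnSum

/-!
The connected sum of two closed aspherical `n`-manifolds has non-normalised topological
complexity at least `2 n`.
-/

namespace Pool.Agent.Lib.MP_c77dc5_gt.H72

theorem two_mul_le_TC_connSum (n : ℕ) (hn : 1 ≤ n) (M₁ M₂ : Type*)
    [TopologicalSpace M₁] [T2Space M₁] [CompactSpace M₁] [ConnectedSpace M₁]
    [ChartedSpace (EuclideanSpace ℝ (Fin n)) M₁]
    [TopologicalSpace M₂] [T2Space M₂] [CompactSpace M₂] [ConnectedSpace M₂]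
    [ChartedSpace (EuclideanSpace ℝ (Fin n)) M₂]
    (asph₁ : ∀ k, 2 ≤ k → ∀ x : M₁, Subsingleton (HomotopyGroup.Pi k M₁ x))
    (asph₂ : ∀ k, 2 ≤ k → ∀ x : M₂, Subsingleton (HomotopyGroup.Pi k M₂ x))
    (e₁ : EuclideanSpace ℝ (Fin n) → M₁) (e₂ : EuclideanSpace ℝ (Fin n) → M₂)
    (h₁ : Topology.IsOpenEmbedding e₁) (h₂ : Topology.IsOpenEmbedding e₂) :
    ((2 * n : ℕ) : ℕ∞) ≤ TC (ConnSum e₁ e₂) := by
  have := ChartedSpace.locallyPathConnectedSpace (EuclideanSpace ℝ (Fin n)) M₁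
  have := ChartedSpace.locallyPathConnectedSpace (EuclideanSpace ℝ (Fin n)) M₂
  have : PathConnectedSpace M₁ := pathConnectedSpace_iff_connectedSpace.2 inferInstance
  have : PathConnectedSpace M₂ := pathConnectedSpace_iff_connectedSpace.2 inferInstance
  have : Nonempty (Fin n) := ⟨⟨0, hn⟩⟩
  refine le_iInf₂ fun k hk => Nat.cast_le.2 (not_lt.1 fun h => ?_)
  exact (connSumCS h₁ h₂).not_hasMotionPlanner (d := n) locEuc_of_chartedSpace
    locEuc_of_chartedSpace asph₁ asph₂ (by omega) hk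

end Pool.Agent.Lib.MP_c77dc5_gt.H72
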