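import Pool.Agent.Lib.MP_c77dc5_gt.H72Equivar

/-!
The acyclic complex obtained from singular chains of a product by collapsing vertical fibres.
-/

namespace Pool.Agent.Lib.MP_c77dc5_gt.H72

open Finsupp Set Pool.Agent.Shared.H72Sing

variable {E₁ E₂ : Type*} [TopologicalSpace E₁] [TopologicalSpace E₂]

/-- Differences of simplices lying in a common fibre over a point of `O`. -/
noncomputable def Rv (E₂ : Type*) [TopologicalSpace E₂] (O : Set E₁) (k : ℕ) :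
    Submodule (ZMod 2) (Ch (ZMod 2) (E₁ × E₂) k) :=
  Submodule.span _ {c | ∃ a ∈ O, ∃ σ τ : C(Sx k, E₁ × E₂), (∀ x, (σ x).1 = a) ∧
    (∀ x, (τ x).1 = a) ∧ c = single σ 1 - single τ 1}

theorem sub_mem_Rv {O : Set E₁} {k : ℕ} {a : E₁} (ha : a ∈ O) {σ τ : C(Sx k, E₁ × E₂)}
    (hσ : ∀ x, (σ x).1 = a) (hτ : ∀ x, (τ x).1 = a) : single σ 1 - single τ 1 ∈ Rv E₂ O k :=
  Submodule.subset_span ⟨a, ha, σ, τ, hσ, hτ, rfl⟩

theorem Rv_le_comap {O : Set E₁} {k : ℕ} {M : Type*} [AddCommGroup M] [Module (ZMod 2) M]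
    (f : Ch (ZMod 2) (E₁ × E₂) k →ₗ[ZMod 2] M) (P : Submodule (ZMod 2) M)
    (h : ∀ a ∈ O, ∀ σ τ : C(Sx k, E₁ × E₂), (∀ x, (σ x).1 = a) → (∀ x, (τ x).1 = a) →
      f (single σ 1) - f (single τ 1) ∈ P) : Rv E₂ O k ≤ P.comap f := by
  refine Submodule.span_le.2 ?_
  rintro _ ⟨a, ha, σ, τ, hσ, hτ, rfl⟩
  simpa using h a ha σ τ hσ hτ

theorem Rv_le_bd (O : Set E₁) (k : ℕ) :
    Rv E₂ O (k + 1) ≤ (Rv E₂ O k).comap (bd (ZMod 2) _ k) := by
  refine Rv_le_comap _ _ fun a ha σ τ hσ hτ => ?_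
  rw [bd_single_two, bd_single_two, ← Finset.sum_sub_distrib]
  exact Submodule.sum_mem _ fun i _ => sub_mem_Rv ha (fun x => hσ _) (fun x => hτ _)

theorem Rv_zero (O : Set E₁) {r : Ch (ZMod 2) (E₁ × E₂) 0} (hr : r ∈ Rv E₂ O 0) : r = 0 := by
  have := Rv_le_comap (E₂ := E₂) (O := O) (k := 0) LinearMap.id ⊥ (fun a _ σ τ _ _ => by
    have : σ = τ := by ext x <;> exact isEmptyElim x
    simp [this]) hr
  simpa using this

theorem Rv_exact (K : Coning E₂) (O : Set E₁) (k : ℕ) {r : Ch (ZMod 2) (E₁ × E₂) (k + 1)}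
    (hr : r ∈ Rv E₂ O (k + 1)) (h0 : bd _ _ k r = 0) :
    ∃ r' ∈ Rv E₂ O (k + 2), bd _ _ (k + 1) r' = r := by
  let c : ∀ k, E₁ → C(Sx k, E₁ × E₂) → C(Sx (k + 1), E₁ × E₂) := fun k a σ =>
    (ContinuousMap.const _ a).prodMk (K.c k (ContinuousMap.snd.comp σ))
  have hc : ∀ k a (σ : C(Sx (k + 1), E₁ × E₂)), (∀ x, (σ x).1 = a) →
      bd (ZMod 2) _ (k + 1) (single (c (k + 1) a σ) 1) =
        single σ 1 - lm _ (c k a) (bd (ZMod 2) _ k (single σ 1)) := by
    intro k a σ hσ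
    rw [bd_single_succ, bd_single, map_sum]
    congr 1
    · congr 1
      ext1 x
      exact Prod.ext (hσ x).symm (DFunLike.congr_fun (K.face_zero _ _) x)
    · refine Finset.sum_congr rfl fun i _ => ?_
      rw [map_smul, lm_single]
      congr 2
      ext1 x
      exact Prod.ext rfl (DFunLike.congr_fun (K.face_succ _ _ i) x)
  let K' : ∀ k, Ch (ZMod 2) (E₁ × E₂) (k + 1) →ₗ[ZMod 2] Ch (ZMod 2) (E₁ × E₂) (k + 2) :=
    fun k => lm _ fun σ => c (k + 1) (σ (vtx 0)).1 σ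
  refine ⟨K' k r, Submodule.mem_comap.1 (Rv_le_comap (K' k) _ (fun a ha σ τ hσ hτ => ?_) hr), ?_⟩
  · simp only [K', lm_single]
    exact sub_mem_Rv ha (fun x => hσ _) (fun x => hτ _)
  · cases k with
    | zero =>
      have := Rv_le_comap ((bd (ZMod 2) _ 1).comp (K' 0) - LinearMap.id) ⊥
        (fun a ha σ τ hσ hτ => ?_) hr
      · simpa [sub_eq_zero] using this
      · simp only [K', LinearMap.sub_apply, LinearMap.comp_apply, lm_single, LinearMap.id_apply,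
          hσ, hτ, hc _ a σ hσ, hc _ a τ hτ, bd_single_two]
        have : σ.comp (face 0) = τ.comp (face 0) := by ext x <;> exact isEmptyElim x
        simp [this]
    | succ k =>
      have key : ∀ a (σ : C(Sx (k + 2), E₁ × E₂)), (∀ x, (σ x).1 = a) →
          bd (ZMod 2) _ (k + 2) (K' (k + 1) (single σ 1)) =
            single σ 1 - K' k (bd (ZMod 2) _ (k + 1) (single σ 1)) := by
        intro a σ hσ
        simp only [K', lm_single, hσ, hc _ a σ hσ, bd_single_two, map_sum,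
          ContinuousMap.comp_apply]
      have := Rv_le_comap ((bd (ZMod 2) _ (k + 2)).comp (K' (k + 1)) - LinearMap.id +
        (K' k).comp (bd (ZMod 2) _ (k + 1))) ⊥ (fun a ha σ τ hσ hτ => ?_) hr
      · simpa [h0, sub_eq_zero] using this
      · simp only [LinearMap.add_apply, LinearMap.sub_apply, LinearMap.comp_apply,
          LinearMap.id_apply, key a σ hσ, key a τ hτ]
        simp

/-- The quotient complex. -/
abbrev Bq (E₂ : Type*) [TopologicalSpace E₂] (O : Set E₁) (k : ℕ) :=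
  Ch (ZMod 2) (E₁ × E₂) k ⧸ Rv E₂ O k

variable {G₁ G₂ Γ : Type*} [Group G₁] [Group G₂] [Group Γ] [MulAction G₁ E₁] [MulAction G₂ E₂]
  [ContinuousConstSMul G₁ E₁] [ContinuousConstSMul G₂ E₂]

/-- Action on the product. -/
def actE (a : G₁) (b : G₂) : C(E₁ × E₂, E₁ × E₂) := ⟨fun x => (a • x.1, b • x.2), by fun_prop⟩

theorem Rv_le_push {O : Set E₁} (hO : ∀ (g : G₁), ∀ a ∈ O, g • a ∈ O) (a : G₁) (b : G₂) (k : ℕ) :
    Rv E₂ O k ≤ (Rv E₂ O k).comap (push (ZMod 2) (actE a b) k) := by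
  refine Rv_le_comap _ _ fun y hy σ τ hσ hτ => ?_
  rw [push_single, push_single]
  exact sub_mem_Rv (hO a y hy) (fun x => congrArg (a • ·) (hσ x)) (fun x => congrArg (a • ·) (hτ x))

/-- The equivariant acyclic complex. -/
noncomputable def targetCx (K₁ : Coning E₁) (K₂ : Coning E₂) {O : Set E₁}
    (hO : ∀ (g : G₁), ∀ a ∈ O, g • a ∈ O) (θ₁ : Γ →* G₁) (θ₂ : Γ →* G₂) : EqCx Γ (Bq E₂ O) where
  d k := Submodule.mapQ _ _ (bd (ZMod 2) _ k) (Rv_le_bd O k)
  ρ γ k := Submodule.mapQ _ _ (push (ZMod 2) (actE (θ₁ γ) (θ₂ γ)) k) (Rv_le_push hO _ _ k)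
  ρ_mul a b k m := by
    obtain ⟨m, rfl⟩ := Submodule.Quotient.mk_surjective _ m
    simp only [Submodule.mapQ_apply, push_push]
    congr 3
    ext x <;> simp [actE, mul_smul]
  ρ_d a k m := by
    obtain ⟨m, rfl⟩ := Submodule.Quotient.mk_surjective _ m
    simp only [Submodule.mapQ_apply, push_bd]
  exact k z hz := by
    obtain ⟨z, rfl⟩ := Submodule.Quotient.mk_surjective _ z
    rw [Submodule.mapQ_apply, Submodule.Quotient.mk_eq_zero] at hz
    obtain ⟨r, hr, hr'⟩ : ∃ r ∈ Rv E₂ O (k + 1), bd _ _ k r = bd _ _ k z := by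
      cases k with
      | zero => exact ⟨0, zero_mem _, by rw [map_zero, Rv_zero O hz]⟩
      | succ k => exact Rv_exact K₂ O k hz (bd_bd k z)
    refine ⟨Submodule.Quotient.mk (lm _ ((K₁.prod K₂).c (k + 1)) (z - r)), ?_⟩
    rw [Submodule.mapQ_apply, Coning.bd_cone, map_sub (bd (ZMod 2) (E₁ × E₂) k), hr', sub_self, map_zero, sub_zero,
      Submodule.Quotient.eq]
    simpa using hr
  surj z := by
    obtain ⟨z, rfl⟩ := Submodule.Quotient.mk_surjective _ z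
    exact ⟨Submodule.Quotient.mk (lm _ ((K₁.prod K₂).c 0) z), by
      rw [Submodule.mapQ_apply, Coning.bd_cone_zero]⟩

theorem targetCx_d (K₁ : Coning E₁) (K₂ : Coning E₂) {O : Set E₁}
    (hO : ∀ (g : G₁), ∀ a ∈ O, g • a ∈ O) (θ₁ : Γ →* G₁) (θ₂ : Γ →* G₂) (k : ℕ)
    (z : Ch (ZMod 2) (E₁ × E₂) (k + 1)) :
    (targetCx K₁ K₂ hO θ₁ θ₂).d k (Submodule.Quotient.mk z) =
      Submodule.Quotient.mk (bd _ _ k z) := rfl

theorem targetCx_ρ (K₁ : Coning E₁) (K₂ : Coning E₂) {O : Set E₁}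
    (hO : ∀ (g : G₁), ∀ a ∈ O, g • a ∈ O) (θ₁ : Γ →* G₁) (θ₂ : Γ →* G₂) (γ : Γ) (k : ℕ)
    (z : Ch (ZMod 2) (E₁ × E₂) k) :
    (targetCx K₁ K₂ hO θ₁ θ₂).ρ γ k (Submodule.Quotient.mk z) =
      Submodule.Quotient.mk (push _ (actE (θ₁ γ) (θ₂ γ)) k z) := rfl

theorem targetCx_ρ_trivial (K₁ : Coning E₁) (K₂ : Coning E₂) {O : Set E₁}
    (hO : ∀ (g : G₁), ∀ a ∈ O, g • a ∈ O) (θ₁ : Γ →* G₁) (θ₂ : Γ →* G₂) {γ : Γ}
    (h₁ : θ₁ γ = 1) (h₂ : θ₂ γ = 1) (k : ℕ) (m : Bq E₂ O k) :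
    (targetCx K₁ K₂ hO θ₁ θ₂).ρ γ k m = m := by
  obtain ⟨m, rfl⟩ := Submodule.Quotient.mk_surjective _ m
  have : actE (E₁ := E₁) (E₂ := E₂) (1 : G₁) (1 : G₂) = ContinuousMap.id _ := by
    ext x <;> simp [actE]
  rw [targetCx_ρ, h₁, h₂, this, push_id]

/-- The homotopy from a simplex to a constant simplex given by a coning. -/
theorem exists_prism_of_coning {Y : Type*} [TopologicalSpace Y] (K : Coning E₂) (b₀ : E₂)
    (hb₀ : ∀ σ x, K.c 0 σ x = b₀) :
    ∃ (P : ∀ k, Ch (ZMod 2) (Y × E₂) k →ₗ[ZMod 2] Ch (ZMod 2) (Y × E₂) (k + 1)),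
      (∀ k z, bd _ _ (k + 1) (P (k + 1) z) =
        push _ (ContinuousMap.fst.prodMk (.const _ b₀)) (k + 1) z - z - P k (bd _ _ k z)) ∧
      ∀ (A : Set Y) k, ∀ z ∈ CIn (ZMod 2) (A ×ˢ (univ : Set E₂)) k,
        P k z ∈ CIn _ (A ×ˢ univ) (k + 1) := by
  let θ : ∀ k, C(Sx k × unitInterval, Sx (k + 1)) := fun k =>
    ⟨fun p => ⟨Fin.cons (p.2 : ℝ) ((1 - (p.2 : ℝ)) • p.1.1), by
        intro i
        refine Fin.cases p.2.2.1 (fun i => ?_) i
        exact mul_nonneg (sub_nonneg.2 p.2.2.2) (p.1.2.1 i), by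
        rw [Fin.sum_univ_succ]
        simp only [Fin.cons_zero, Fin.cons_succ, Pi.smul_apply, smul_eq_mul, ← Finset.mul_sum,
          p.1.2.2]
        ring⟩,
      Continuous.subtype_mk (Continuous.finCons (by fun_prop) (by fun_prop)) _⟩
  have θ0 : ∀ k x, θ k (x, 0) = face 0 x := by
    intro k x
    apply Subtype.ext
    rw [face_coe]
    simp [θ]
  have θ1 : ∀ k x, θ k (x, 1) = vtx 0 := by
    intro k x
    apply Subtype.ext
    funext i
    refine Fin.cases ?_ (fun i => ?_) i <;> simp [θ, vtx_coe]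
  have θf : ∀ k (i : Fin (k + 1)) x t, θ (k + 1) (face i x, t) = face i.succ (θ k (x, t)) := by
    intro k i x t
    apply Subtype.ext
    rw [face_coe]
    simp only [θ, ContinuousMap.coe_mk, face_coe, Fin.insertNth_succ_cons]
    congr 1
    funext j
    refine Fin.succAboveCases i ?_ (fun j => ?_) j <;> simp
  have hb : ∀ k σ, K.c k σ (vtx 0) = b₀ := by
    intro k
    induction k with
    | zero => exact fun σ => hb₀ _ _
    | succ k ih =>
      intro σ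
      rw [← ih (σ.comp (face 0)), ← K.face_succ, ContinuousMap.comp_apply, face_vtx]
      rfl
  let H : ∀ k, C(Sx k, Y × E₂) → C(Sx k × unitInterval, Y × E₂) := fun k σ =>
    ((ContinuousMap.fst.comp σ).comp ContinuousMap.fst).prodMk
      ((K.c k (ContinuousMap.snd.comp σ)).comp (θ k))
  refine ⟨prism _ H, fun k z => ?_, fun A k z hz => prism_mem_CIn _ fun σ hσ => ?_⟩
  · rw [bd_prism]
    · congr 2
      · unfold hend push
        congr 2
        funext σ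
        ext1 x
        refine Prod.ext rfl ?_
        change K.c _ _ (θ _ (x, 1)) = b₀
        rw [θ1, hb]
      · unfold hend
        conv_rhs => rw [← lm_id z]
        congr 2
        funext σ
        ext1 x
        refine Prod.ext rfl ?_
        change K.c _ _ (θ _ (x, 0)) = (σ x).2
        rw [θ0]
        exact DFunLike.congr_fun (K.face_zero _ _) x
    · intro k σ i
      ext1 ⟨x, t⟩
      refine Prod.ext rfl ?_
      change K.c _ _ (θ _ (x, t)) = K.c _ _ (θ _ (face i x, t))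
      rw [θf]
      exact (DFunLike.congr_fun (K.face_succ _ (ContinuousMap.snd.comp σ) i) (θ k (x, t))).symm
  · rintro _ ⟨⟨x, t⟩, rfl⟩
    exact ⟨(hz hσ ⟨x, rfl⟩).1, mem_univ _⟩

end Pool.Agent.Lib.MP_c77dc5_gt.H72
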