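import Pool.Agent.Lib.MP_c77dc5_gt.Conn
import Pool.Agent.Lib.MP_c77dc5_gt.Decomp

/-! A motion planner on a connected sum of aspherical manifolds needs at least `2 n` domains. -/

namespace Pool.Agent.Lib.MP_c77dc5_gt

open Set Filter Topology unitInterval Pool.Agent.Shared.Sing

lemma exists_ctr (E : Type*) [TopologicalSpace E] [ContractibleSpace E] :
    ∃ (H : E × ℝ → E) (y : E), Ctr H y := by
  obtain ⟨y, ⟨H⟩⟩ := id_nullhomotopic E
  exact ⟨fun q => H (projIcc 0 1 zero_le_one q.2, q.1), y, H.continuous.comp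
    ((continuous_projIcc.comp continuous_snd).prodMk continuous_fst),
    fun e => by simp, fun e => by simp⟩

theorem two_mul_le {n : ℕ} {M₁ M₂ X E₁ E₂ : Type*} [TopologicalSpace M₁] [TopologicalSpace M₂]
    [TopologicalSpace X] [TopologicalSpace E₁] [TopologicalSpace E₂] [T2Space M₁] [T2Space M₂]
    [CompactSpace M₁] [CompactSpace M₂] [ChartedSpace (EuclideanSpace ℝ (Fin n)) M₁]
    [ChartedSpace (EuclideanSpace ℝ (Fin n)) M₂] [ContractibleSpace E₁] [ContractibleSpace E₂]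
    [Nonempty X] {p₁ : E₁ → M₁} {p₂ : E₂ → M₂} (q₁ : IsCoveringMap p₁) (q₂ : IsCoveringMap p₂)
    (s₁ : Function.Surjective p₁) (s₂ : Function.Surjective p₂)
    {e₁ : EuclideanSpace ℝ (Fin n) → M₁} {e₂ : EuclideanSpace ℝ (Fin n) → M₂} {f₁ : X → M₁}
    {f₂ : X → M₂} (H : Half e₁ e₂ f₁ f₂) (H' : Half e₂ e₁ f₂ f₁) [Infinite M₁] [Infinite M₂]
    {k : ℕ} {U : Fin k → Set (X × X)} (hU : ∀ i, IsOpen (U i)) (hc : ⋃ i, U i = univ)
    (hs : ∀ i, ∃ s : C(U i, C(I, X)), ∀ x, s x 0 = x.1.1 ∧ s x 1 = x.1.2) : 2 * n ≤ k := by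
  classical
  by_contra hk
  have := H.t2 H'
  have := H.compact H'
  have := ChartedSpace.locallyPathConnectedSpace (EuclideanSpace ℝ (Fin n)) M₁
  have := ChartedSpace.locallyPathConnectedSpace (EuclideanSpace ℝ (Fin n)) M₂
  have c₁ := cov_deck q₁ s₁
  have c₂ := cov_deck q₂ s₂
  obtain ⟨H₁, y₁, k₁⟩ := exists_ctr E₁
  obtain ⟨H₂, y₂, k₂⟩ := exists_ctr E₂
  obtain ⟨μ₁, l1, m1⟩ := H.lift q₁ s₁ H'
  obtain ⟨μ₂, l2, m2⟩ := H'.lift q₂ s₂ H
  have o1 := (isOpen_compl_singleton (x := e₁ 0)).preimage H.cont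
  have o2 := (isOpen_compl_singleton (x := e₂ 0)).preimage H'.cont
  obtain ⟨L, K, a1, a2, a3, a4⟩ := exists_LK c₁ c₂ o1 o2 H.cov H.cont H'.cont l1 l2 m1 m2
  choose s hs using hs
  let γ (i : Fin k) (x : X × X) : C(I, X) := if h : x ∈ U i then s i ⟨x, h⟩ else .const _ x.1
  have g0 : ∀ i, ∀ x ∈ U i, γ i x 0 = x.1 ∧ γ i x 1 = x.2 := fun i x h => by
    simpa [γ, h] using hs i ⟨x, h⟩
  have g1 : ∀ i, ContinuousOn (γ i) (U i) := fun i => continuousOn_iff_continuous_domRestrict.2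
    ((s i).continuous.congr fun x => by simp [γ])
  obtain ⟨C₁, C₂, F, ν, l, b1, b2, b3, b4, b5, b6, b7, b8, b9, b0⟩ := decomp c₁ c₂ (Prod.map f₁ f₂)
    (O := fun a => a.elim {x | f₂ x.1 ≠ e₂ 0} fun i => U i ∩ {x | f₁ x.1 ≠ e₁ 0})
    (by
      rintro (_ | i)
      exacts [o2.preimage continuous_fst, (hU i).inter (o1.preimage continuous_fst)])
    (fun x => by
      obtain ⟨i, hi⟩ := mem_iUnion.1 (hc.ge (mem_univ x))
      exact (H.cov x.1).elim (fun h => ⟨some i, hi, h⟩) fun h => ⟨none, h⟩)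
    (μ := fun x => μ₁ x.1) (L := fun i x => L (γ i x)) (K := fun i j x => K (γ i x, γ j x))
    (fun x => l1 x.1) (fun i x h => (a1 _).trans (congrArg f₂ (g0 i x h.1).2))
    (fun i j x h => (a2 _).trans (congrArg f₁ (g0 i x h.1).1))
    (m1.comp continuousOn_fst fun _ h => h)
    (fun i => a3.comp ((g1 i).mono inter_subset_left) fun x h => by
      rw [mem_ofPred, (g0 i x h.1).1]; exact h.2)
    fun i j => a4.comp (((g1 i).mono fun _ h => h.1.1).prodMk ((g1 j).mono fun _ h => h.2.1.1))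
      fun x h => ⟨by rw [(g0 i x h.1.1).1]; exact h.1.2, (g0 j x h.2.1.1).1.trans
        (g0 i x h.1.1).1.symm, (g0 j x h.2.1.1).2.trans (g0 i x h.1.1).2.symm, h.2.2⟩
  obtain ⟨z, hz, hz'⟩ := exists_fund (locEuc_prod (H.locEuc (n := n) H') (H.locEuc (n := n) H'))
  obtain ⟨w₁, w1⟩ := Infinite.exists_notMem_finset {p₁ y₁, e₁ 0}
  obtain ⟨w₂, w2⟩ := Infinite.exists_notMem_finset {p₂ y₂, e₂ 0}
  simp only [Finset.mem_insert, Finset.mem_singleton, not_or] at w1 w2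
  have hf := H.cont.prodMap H'.cont
  have h1 := weight c₁ c₂ k₁ k₂ hf (w := (w₁, w₂)) (Ne.symm w1.1) (Ne.symm w2.1) (m := k)
    (by simp; omega) hz b1 b2 b3 b4 b5 (fun x => l1 x.1) b6 b7 b8 b9 b0
  obtain ⟨φ₁, rfl, u1, t1⟩ := H.chart
  obtain ⟨φ₂, rfl, u2, t2⟩ := H'.chart
  have w3 : (w₁, w₂) ∈ (φ₁.prod φ₂).target := ⟨t1.ge w1.2, t2.ge w2.2⟩
  have w4 := (φ₁.prod φ₂).map_target w3
  have w5 := (φ₁.prod φ₂).right_inv w3
  generalize (φ₁.prod φ₂).symm (w₁, w₂) = x₀ at w4 w5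
  obtain ⟨c, h2, h3⟩ := exc_surj (φ₁.prod φ₂).open_source (isOpen_compl_singleton (x := x₀))
    (by rw [← compl_subset_iff_union, compl_subset_compl, singleton_subset_iff]; exact w4)
    (Z_mono le_rfl (empty_subset _) hz)
  have h4 := map_B hf.continuousOn (subset_univ _) (mapsTo_univ _ _) (U := {x₀}ᶜ) (W := {(w₁, w₂)}ᶜ)
    (fun x hx h => hx ((φ₁.prod φ₂).injOn ⟨u1.ge fun e => w1.2 ((congrArg Prod.fst h).symm.trans e),
      u2.ge fun e => w2.2 ((congrArg Prod.snd h).symm.trans e)⟩ w4 (h.trans w5.symm))) h3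
  rw [map_sub] at h4
  exact hz' x₀ ((congr_B h3).2 ((chart_pt _ (mem_singleton x₀) w4 h2).2
    (w5 ▸ (congr_B h4).1 h1)))

end Pool.Agent.Lib.MP_c77dc5_gt
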