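import Pool.Agent.Lib.MP_c77dc5_gt.Zig
import Pool.Agent.Lib.MP_c77dc5_gt.Cov

/-! The weight of the top class of a product of two aspherical spaces. -/

set_option linter.unusedSectionVars false

namespace Pool.Agent.Lib.MP_c77dc5_gt

open Finsupp Set Pool.Agent.Shared.Sing Module

section coh

variable {R : Type} [CommRing R] {Q : Type*} [Group Q]
  {Y : Type*} [TopologicalSpace Y] [Nonempty Y] [MulAction Q Y] [ContinuousConstSMul Q Y]
  {E : Type*} [TopologicalSpace E] [Nonempty E] [MulAction Q E] [ContinuousConstSMul Q E]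
  {ψ : Y → E} (hψ : Continuous ψ) (he : ∀ (g : Q) y, ψ (g • y) = g • ψ y)
include hψ

lemma map_D' (c : C R Y) : map ψ (D c) = D (map ψ c) :=
  ext_univ (F := map ψ ∘ₗ D) (G := D ∘ₗ map ψ) (fun _ _ hc => map_D hψ.continuousOn hc) c

include he

lemma map_ρ (g : Q) (c : C R Y) : map ψ (ρ g c) = ρ g (map ψ c) :=
  ext_univ (F := map ψ ∘ₗ ρ g) (G := ρ g ∘ₗ map ψ) (fun _ _ hc =>
    (map_map (continuous_const_smul g).continuousOn hc).trans
      ((map_congr (fun y _ => he g y) hc).trans (map_map hψ.continuousOn hc).symm)) c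

lemma Coc.pull {U : List Q → Dual R (C R E)} (hU : Coc U) : Coc fun L => U L ∘ₗ map ψ :=
  ⟨fun g L c => by simp [map_ρ hψ he, hU.1 g], fun L c => by
    simp [map_D' hψ, hU.2, lc_apply]⟩

theorem coh_step {h : C R E →ₗ[R] C R E} (hh : ∀ c, D (h c) + h (D c) = c)
    {U : List Q → Dual R (C R E)} (hU : Coc U) {K : Type*} (act : Q → K → K)
    (H : K → E × ℝ → E) (h1 : ∀ k, ContinuousOn (H k) (univ ×ˢ Icc 0 1))
    (h2 : ∀ k e, H k (e, 0) = e) (h3 : ∀ k c, U [] (map (fun e => H k (e, 1)) c) = 0)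
    (h4 : ∀ g k e t, H (act g k) (g • e, t) = g • H k (e, t)) {A : Set Y} {κ : Y → K}
    (hA : ∀ (g : Q) y, g • y ∈ A ↔ y ∈ A) (hκ : ∀ g y, κ (g • y) = act g (κ y)) (hc : Cst A κ) :
    ∃ W, Inv W ∧ Van (modi (fun L => U L ∘ₗ map ψ) W) A 1 ∧ ∀ A', Disjoint A' A → Van W A' 0 := by
  obtain ⟨W, w1, w2⟩ := exists_null hh hU act (fun k => -U [] ∘ₗ P (H k)) (fun k =>
    ext_univ (F := (-U [] ∘ₗ P (H k)) ∘ₗ D) fun n c hc => by
      have := congrArg (U []) (D_P (h1 k) hc)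
      rw [map_self (g := fun e => H k (e, 0)) (fun e _ => h2 k e) hc, map_add, map_sub, h3,
        hU.2] at this
      simpa [bdL, neg_eq_iff_eq_neg] using this) fun g k =>
    ext_univ (F := (-U [] ∘ₗ P (H (act g k))) ∘ₗ ρ g) fun n c hc => by
      simp only [LinearMap.comp_apply, LinearMap.neg_apply, ρ,
        P_map _ (continuous_const_smul g).continuousOn hc, h4]
      rw [← hU.1 g [] (P (H k) c), ρ, map_P (h1 k) _ hc]
      rfl
  refine ⟨piece A κ fun k L => W k L ∘ₗ map ψ, piece_inv act hA hκ fun g k L c => by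
    simp [map_ρ hψ he, w1], fun n hn L c hc' => hc.van (fun A' hA' k hk c hc => ?_) hc',
    fun A' hA' n _ L c hc => piece_zero (fun k L c hc => ?_) hc L⟩
  · obtain ⟨n, rfl⟩ := Nat.exists_eq_add_one_of_ne_zero (n := n) (by omega)
    simp [modi, lc_apply, piece_eq hA' hk hc, piece_eq hA' hk (D_In hc), map_D' hψ, w2]
  · rw [hA'.inter_eq] at hc
    rw [In_empty hc, map_zero]

omit hψ he in
lemma Van.modi_add {U W W' : List Q → Dual R (C R Y)} {A : Set Y} (h : Van (modi U W) A 1)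
    (h' : Van W' A 0) : Van (modi U (W + W')) A 1 := by
  intro n hn L c hc
  obtain ⟨n, rfl⟩ := Nat.exists_eq_add_one_of_ne_zero (n := n) (by omega)
  have h1 := h _ hn L c hc
  have h2 : lc (W + W') (bdL R L) c = lc W (bdL R L) c := by
    simp [lc_apply, h' _ (Nat.zero_le _) _ c hc]
  simpa [modi, h2, h' _ (Nat.zero_le _) L _ (D_In hc)] using h1

end coh

variable {π₁ π₂ : Type*} [Group π₁] [Group π₂] {E₁ E₂ M₁ M₂ N : Type*} [TopologicalSpace E₁]
  [TopologicalSpace E₂] [TopologicalSpace M₁] [TopologicalSpace M₂] [TopologicalSpace N]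
  [MulAction π₁ E₁] [MulAction π₂ E₂] [ContinuousConstSMul π₁ E₁] [ContinuousConstSMul π₂ E₂]
  {p₁ : E₁ → M₁} {p₂ : E₂ → M₂}

instance prodAct : MulAction (π₁ × π₂) (E₁ × E₂) where
  smul g e := (g.1 • e.1, g.2 • e.2)
  one_smul e := Prod.ext (one_smul π₁ e.1) (one_smul π₂ e.2)
  mul_smul g g' e := Prod.ext (mul_smul g.1 g'.1 e.1) (mul_smul g.2 g'.2 e.2)

@[simp] lemma prodAct_fst (g : π₁ × π₂) (e : E₁ × E₂) : (g • e).1 = g.1 • e.1 := rfl

@[simp] lemma prodAct_snd (g : π₁ × π₂) (e : E₁ × E₂) : (g • e).2 = g.2 • e.2 := rfl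

instance : ContinuousConstSMul (π₁ × π₂) (E₁ × E₂) :=
  ⟨fun g => (continuous_const_smul g.1).prodMap (continuous_const_smul g.2)⟩

lemma Cov.prod (c₁ : Cov π₁ p₁) (c₂ : Cov π₂ p₂) : Cov (π₁ × π₂) (Prod.map p₁ p₂) where
  loc e := by
    obtain ⟨φ, h1, rfl⟩ := c₁.loc e.1
    obtain ⟨φ', h2, rfl⟩ := c₂.loc e.2
    exact ⟨φ.prod φ', ⟨h1, h2⟩, rfl⟩
  surj := c₁.surj.prodMap c₂.surj
  inv g e := Prod.ext (c₁.inv g.1 e.1) (c₂.inv g.2 e.2)
  trans e e' h := by
    obtain ⟨g, h1⟩ := c₁.trans _ _ (congrArg Prod.fst h)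
    obtain ⟨g', h2⟩ := c₂.trans _ _ (congrArg Prod.snd h)
    exact ⟨(g, g'), Prod.ext h1 h2⟩
  free g e h := Prod.ext (c₁.free _ _ (congrArg Prod.fst h)) (c₂.free _ _ (congrArg Prod.snd h))

section pull

variable {Q E W : Type*} [Group Q] [TopologicalSpace E] [TopologicalSpace W] [MulAction Q E]
  [ContinuousConstSMul Q E] {p : E → W} (c : Cov Q p) (f : N → W)

/-- The pulled back covering. -/
def Pull (_ : Cov Q p) (f : N → W) := {y : N × E // p y.2 = f y.1}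

instance : TopologicalSpace (Pull c f) := instTopologicalSpaceSubtype

instance : MulAction Q (Pull c f) where
  smul g y := ⟨(y.1.1, g • y.1.2), (c.inv g _).trans y.2⟩
  one_smul y := Subtype.ext (Prod.ext rfl (one_smul Q y.1.2))
  mul_smul g g' y := Subtype.ext (Prod.ext rfl (mul_smul g g' y.1.2))

lemma Pull.c1 : Continuous fun y : Pull c f => y.1.1 := continuous_subtype_val.fst

lemma Pull.c2 : Continuous fun y : Pull c f => y.1.2 := continuous_subtype_val.snd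

instance : ContinuousConstSMul Q (Pull c f) :=
  ⟨fun g => ((Pull.c1 c f).prodMk ((Pull.c2 c f).const_smul g)).subtype_mk _⟩

instance [Nonempty N] : Nonempty (Pull c f) :=
  ⟨⟨(Classical.arbitrary N, Function.surjInv c.surj (f _)), Function.surjInv_eq _ _⟩⟩

variable {R : Type} [CommRing R] [Nonempty N]

lemma Pull.kill {φ : Dual R (C R (Pull c f))} (hφ : ∀ (g : Q) a, φ (ρ g a) = φ a) {n : ℕ}
    {a : C R (Pull c f)} (ha : a ∈ In R univ (n + 1)) (h0 : map (fun y => y.1.1) a = 0) :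
    φ a = 0 := by
  classical
  have : Nonempty (Sx (Pull c f)) := ⟨mk 0 fun _ => Classical.arbitrary _⟩
  let pr : Sx (Pull c f) → Sx N := fun s => mk s.n ((fun y => y.1.1) ∘ s.f)
  rw [map_eq (F := φ) (G := φ ∘ₗ lmapDomain R R (Function.invFun pr) ∘ₗ map fun y => y.1.1)
    (fun s hs => ?_) ha]
  · simp [h0]
  simp only [LinearMap.comp_apply, map_single, lmapDomain_apply, mapDomain_single]
  have h1 : pr (Function.invFun pr (pr s)) = pr s := Function.invFun_eq ⟨s, rfl⟩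
  generalize Function.invFun pr (mk s.n ((fun y => y.1.1) ∘ s.f)) = s' at h1
  have h2 : s'.n = s.n := (congrArg Sx.n h1 :)
  have h3 : ∀ t ∈ Δ s.n, (s'.f t).1.1 = (s.f t).1.1 := fun t ht =>
    (mk_f ((Pull.c1 c f).comp_continuousOn s'.cont) (h2 ▸ ht)).symm.trans
      ((congrFun (congrArg Sx.f h1) t).trans (mk_f ((Pull.c1 c f).comp_continuousOn s.cont) ht))
  have h4 : ∀ t, p ((Δ s.n).piecewise (fun t => (s'.f t).1.2) (fun t => (s.f t).1.2) t) =
      p (s.f t).1.2 := fun t => by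
    by_cases ht : t ∈ Δ s.n
    · rw [piecewise_eq_of_mem _ _ _ ht, (s'.f t).2, (s.f t).2, h3 t ht]
    · rw [piecewise_eq_of_notMem _ _ _ ht]
  have h0 := e0_mem (n := s.n) (by rw [hs.1]; omega)
  rw [← hφ (quo Q (v0 s').1.2 (v0 s).1.2) (single s' 1), ρ, map_single, h2, mk_eq s fun t ht => ?_]
  have h5 := c.quo_cst (convex_Δ s.n).isPreconnected (((Pull.c2 c f).comp_continuousOn
    (h2 ▸ s'.cont)).congr (piecewise_eqOn _ _ _)) ((Pull.c2 c f).comp_continuousOn s.cont) h4 h0 ht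
  rw [piecewise_eq_of_mem _ _ _ ht, piecewise_eq_of_mem _ _ _ h0] at h5
  exact Subtype.ext (Prod.ext (h3 t ht) ((congrArg (· • (s'.f t).1.2) h5).trans
    (c.quo_smul ((s'.f t).2.trans ((congrArg f (h3 t ht)).trans (s.f t).2.symm)))))

lemma Pull.lift (hf : Continuous f) {ι : Type*} [Nonempty ι] {A : ι → Set N}
    (hA : ∀ i, IsOpen (A i)) (hc : ∀ x, ∃ i, x ∈ A i) {n : ℕ} {z : C R N} (hz : z ∈ In R univ n) :
    ∃ m, ∃ a ∈ ⨆ i, In R {y : Pull c f | y.1.1 ∈ A i} n,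
      map (fun y => y.1.1) a = (sd ^ m) z := by
  choose s hs O h1 h2 h3 using c.exists_lift hf
  have hU : univ ⊆ ⋃ q : ι × N, A q.1 ∩ O q.2 := fun x _ =>
    mem_iUnion.2 ⟨((hc x).choose, x), (hc x).choose_spec, h2 x⟩
  obtain ⟨m, hm⟩ := (Shared.Sing.small (U := fun q : ι × N => A q.1 ∩ O q.2)
    (fun q => (hA _).inter (h1 _)) (In_mono hU _ hz)).exists
  refine ⟨m, (iSup_le fun q a ha => ?_ : _ ≤ Submodule.map _ _) hm⟩
  let l : N → Pull c f := fun x => ⟨(x, s q.2 x), hs _ x⟩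
  have hl : ContinuousOn l (A q.1 ∩ O q.2) :=
    Topology.IsInducing.subtypeVal.continuousOn_iff.2
      (continuousOn_id.prodMk ((h3 _).mono inter_subset_right))
  exact ⟨map l a, Submodule.mem_iSup_of_mem q.1 (map_In hl (fun x hx => hx.1) ha),
    (map_map hl ha).trans (map_self (fun _ _ => rfl) ha)⟩

lemma Pull.cst {π E' M : Type*} [Group π] [TopologicalSpace E'] [TopologicalSpace M]
    [MulAction π E'] [ContinuousConstSMul π E'] {p' : E' → M} (c' : Cov π p') {A : Set N}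
    {ν : N → E'} (hν : ContinuousOn ν A) {r : E → E'} (hr : Continuous r)
    (h : ∀ y : Pull c f, p' (ν y.1.1) = p' (r y.1.2)) :
    Cst {y : Pull c f | y.1.1 ∈ A} fun y => quo π (ν y.1.1) (r y.1.2) := fun _ hS h1 _ hy _ hy' =>
  c'.quo_cst h1 (hν.comp (Pull.c1 c f).continuousOn hS)
    (hr.comp (Pull.c2 c f)).continuousOn h hy hy'

end pull

lemma exists_functional {W : Type*} [TopologicalSpace W] [Nonempty W] {R : Type} [Field R]
    {U : Set W} {d : ℕ} {z : C R W} (h1 : z ∈ In R univ (d + 1)) (h2 : z ∉ B R univ U d) :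
    ∃ u : Dual R (C R W), u z ≠ 0 ∧ (∀ c, u (D c) = 0) ∧ ∀ n, ∀ c ∈ In R U n, u c = 0 := by
  obtain ⟨u, u1, u2⟩ := Submodule.exists_dual_map_eq_bot_of_notMem h2 inferInstance
  have u3 : ∀ c ∈ B R univ U d, u c = 0 := fun c hc => u2.le ⟨c, hc, rfl⟩
  let u' : Dual R (C R W) := lc fun s => if s.n = d + 1 then u (single s 1) else 0
  have u4 : ∀ n, ∀ c ∈ In R univ n, u' c = if n = d + 1 then u c else 0 := fun n c hc => by
    split_ifs with h
    · exact map_eq (fun s hs => by simp [u', hs.1, h]) hc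
    · exact map_eq (G := 0) (fun s hs => by simp [u', hs.1, h]) hc
  refine ⟨u', by simpa [u4 _ _ h1], ext_univ (F := u' ∘ₗ D) (G := 0) fun n c hc => ?_,
    fun n c hc => ?_⟩
  · exact (u4 _ _ (D_In' hc)).trans (ite_eq_right_iff.2 fun h => u3 _ (D_mem_B
      (by rwa [show d + 2 = n by omega])))
  · exact (u4 _ _ (In_univ hc)).trans (ite_eq_right_iff.2 fun h => u3 _ (In_mem_B (h ▸ hc)))

/-- A contraction of a space. -/
structure Ctr {E : Type*} [TopologicalSpace E] (H : E × ℝ → E) (y : E) : Prop where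
  cont : Continuous H
  zero : ∀ e, H (e, 0) = e
  one : ∀ e, H (e, 1) = y

theorem weight [Nonempty N] [Nonempty M₁] [Nonempty M₂] {R : Type} [Field R] (c₁ : Cov π₁ p₁)
    (c₂ : Cov π₂ p₂) {H₁ : E₁ × ℝ → E₁} {H₂ : E₂ × ℝ → E₂} {y₁ : E₁} {y₂ : E₂} (k₁ : Ctr H₁ y₁)
    (k₂ : Ctr H₂ y₂) {f : N → M₁ × M₂} (hf : Continuous f) {w : M₁ × M₂} (w1 : p₁ y₁ ≠ w.1)
    (w2 : p₂ y₂ ≠ w.2) {d m : ℕ} (hm : m + 1 ≤ d) {z : C R N} (hz : z ∈ Z R univ ∅ d)
    {C₁ C₂ : Set N} {F : ℕ → Set N} (o1 : IsOpen C₁) (o2 : IsOpen C₂) (o3 : ∀ j, IsOpen (F j))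
    (hd : Disjoint C₁ C₂) (hc : ∀ x, x ∈ C₁ ∨ x ∈ C₂ ∨ ∃ j < m, x ∈ F j) {ν₁ : N → E₁}
    {ν₂ : N → E₂} {l : ℕ → N → E₁ × E₂} (l1 : ∀ x, p₁ (ν₁ x) = (f x).1)
    (l2 : ∀ x, p₂ (ν₂ x) = (f x).2) (l3 : ∀ j x, Prod.map p₁ p₂ (l j x) = f x)
    (n1 : ContinuousOn ν₁ C₂) (n2 : ContinuousOn ν₂ C₁) (n3 : ∀ j, ContinuousOn (l j) (F j)) :
    map f z ∈ B R univ {w}ᶜ d := by
  by_contra h0
  have : Nonempty (E₁ × E₂) := ⟨(y₁, y₂)⟩
  have c := c₁.prod c₂
  have hp := c.loc.continuous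
  obtain ⟨u, u1, u2, u3⟩ := exists_functional (map_In hf.continuousOn (mapsTo_univ _ _) hz.1) h0
  obtain ⟨h, hh⟩ := exists_contr (R := R) (A := univ) (y₀ := (y₁, y₂))
    (H := fun q => (H₁ (q.1.1, q.2), H₂ (q.1.2, q.2)))
    ((k₁.cont.comp (by fun_prop)).prodMk (k₂.cont.comp (by fun_prop))).continuousOn
    (mapsTo_univ _ _) trivial (fun e _ => by rw [k₁.zero, k₂.zero]) fun e _ => by rw [k₁.one, k₂.one]
  replace hh := ext_univ (F := D ∘ₗ h + h ∘ₗ D) (G := LinearMap.id) fun n c hc => (hh n c hc).2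
  obtain ⟨U, hU, U0⟩ := exists_coc (Q := π₁ × π₂) hh (u := u ∘ₗ map (Prod.map p₁ p₂))
    (fun a => by simp [map_D' hp, u2]) fun g => ext_univ (F := (u ∘ₗ map _) ∘ₗ ρ g) fun n a ha =>
      congrArg u ((map_map (continuous_const_smul g).continuousOn ha).trans
        (map_congr (fun e _ => c.inv g e) ha))
  have U1 : ∀ r : E₁ × E₂ → E₁ × E₂, Continuous r → (∀ e, Prod.map p₁ p₂ (r e) ≠ w) →
      ∀ a, U [] (map r a) = 0 := fun r hr h => ext_univ (F := U [] ∘ₗ map r) (G := 0) fun n a ha => by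
    rw [U0]
    exact u3 n _ (map_In hp.continuousOn (by rintro _ ⟨e, rfl⟩; exact h e)
      (map_In hr.continuousOn (mapsTo_range _ _) ha))
  have a1 : ∀ k : π₁, Continuous fun q : (E₁ × E₂) × ℝ => (k • H₁ (k⁻¹ • q.1.1, q.2), q.1.2) :=
    fun k => ((k₁.cont.comp (by fun_prop)).const_smul k).prodMk (by fun_prop)
  have a2 : ∀ k : π₂, Continuous fun q : (E₁ × E₂) × ℝ => (q.1.1, k • H₂ (k⁻¹ • q.1.2, q.2)) :=
    fun k => Continuous.prodMk (by fun_prop) ((k₂.cont.comp (by fun_prop)).const_smul k)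
  obtain ⟨W₁, a3, a4, a5⟩ := coh_step (Pull.c2 c f) (fun _ _ => rfl) hh hU (fun g k => g.1 * k) _
    (fun k => (a1 k).continuousOn) (fun k e => by simp [k₁.zero])
    (fun k => U1 _ ((a1 k).comp (by fun_prop)) fun e h => w1 (by
      simpa [k₁.one, c₁.inv] using congrArg Prod.fst h))
    (fun g k e t => Prod.ext (by simp [mul_smul]) rfl) (fun _ _ => Iff.rfl)
    (fun g y => c₁.quo_smul_right ((l1 _).trans (congrArg Prod.fst y.2).symm) g.1)
    (Pull.cst c f c₁ n1 continuous_fst fun y => (l1 _).trans (congrArg Prod.fst y.2).symm)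
  obtain ⟨W₂, b3, b4, b5⟩ := coh_step (Pull.c2 c f) (fun _ _ => rfl) hh hU (fun g k => g.2 * k) _
    (fun k => (a2 k).continuousOn) (fun k e => by simp [k₂.zero])
    (fun k => U1 _ ((a2 k).comp (by fun_prop)) fun e h => w2 (by
      simpa [k₂.one, c₂.inv] using congrArg Prod.snd h))
    (fun g k e t => Prod.ext rfl (by simp [mul_smul])) (fun _ _ => Iff.rfl)
    (fun g y => c₂.quo_smul_right ((l2 _).trans (congrArg Prod.snd y.2).symm) g.2)
    (Pull.cst c f c₂ n2 continuous_snd fun y => (l2 _).trans (congrArg Prod.snd y.2).symm)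
  let A : Bool ⊕ Fin m → Set N := Sum.elim (fun b => cond b C₁ C₂) fun j => F j
  obtain ⟨k, a, ha, e1⟩ := Pull.lift c f hf (A := A) (by rintro ((_ | _) | j) <;> simp [A, *])
    (fun x => by
      rcases hc x with h | h | ⟨j, hj, h⟩
      exacts [⟨.inl true, h⟩, ⟨.inl false, h⟩, ⟨.inr ⟨j, hj⟩, h⟩]) hz.1
  have ha' : a ∈ In R univ (d + 1) := (iSup_le fun i => In_mono (subset_univ _) _ :
    _ ≤ In R univ (d + 1)) ha
  obtain ⟨d, rfl⟩ := Nat.exists_eq_add_one_of_ne_zero (n := d) (by omega)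
  have z0 := In_empty (Z_D hz)
  have kill : ∀ φ : Dual R (C R (Pull c f)), (∀ (g : π₁ × π₂) c, φ (ρ g c) = φ c) → φ (D a) = 0 :=
    fun φ hφ => Pull.kill c f hφ (D_In ha') (by rw [map_D' (Pull.c1 c f), e1, D_sd, z0, map_zero])
  have hW : Inv (W₁ + W₂) := fun g L c => congrArg₂ (· + ·) (a3 g L c) (b3 g L c)
  obtain ⟨U', -, e2, e3, e4⟩ := zigzag ((hU.pull (Pull.c2 c f) fun _ _ => rfl).modi hW)
    (A := fun b => {y | y.1.1 ∈ cond b C₁ C₂}) (by
      rintro (_ | _)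
      · exact a4.modi_add (b5 _ (hd.symm.preimage _))
      · exact add_comm W₁ W₂ ▸ b4.modi_add (a5 _ (hd.preimage _))) m
    (κ := fun j y => quo (π₁ × π₂) (l j y.1.1) y.1.2)
    (fun j g y => c.quo_smul_right ((l3 _ _).trans y.2.symm) g)
    (fun j => Pull.cst c f c (n3 j) continuous_id fun y => (l3 _ _).trans y.2.symm) kill
  have e5 : U' [] a = 0 := (iSup_le (by
    rintro (b | j) a ha
    exacts [e3 b _ hm [] a ha, e4 j j.2 _ hm [] a ha]) : _ ≤ LinearMap.ker (U' [])) ha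
  obtain ⟨b, hb, e6⟩ := sub_sd_Bd hz.1 z0 k
  refine u1 ?_
  rw [← sub_add_cancel z ((sd ^ k) z), ← e6, ← e1, map_add, map_add, map_D' hf, u2, zero_add,
    map_map (Pull.c1 c f).continuousOn ha', ← e5, e2]
  simp only [modi, bdL, map_zero, sub_zero, LinearMap.sub_apply, LinearMap.comp_apply, U0,
    kill ((W₁ + W₂) []) fun g => hW g [], map_map (Pull.c2 c f).continuousOn ha']
  exact congrArg u (map_congr (fun y _ => y.2.symm) ha')

end Pool.Agent.Lib.MP_c77dc5_gt
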