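import Pool.Agent.Shared.Sing.Fund

/-! The zig-zag argument with invariant cochains in a double complex. -/

set_option linter.unusedSectionVars false

namespace Pool.Agent.Lib.MP_c77dc5_gt

open Finsupp Set Pool.Agent.Shared.Sing Module

variable {R : Type} [CommRing R] {Q : Type*} [Group Q]
  {Y : Type*} [TopologicalSpace Y] [Nonempty Y] [MulAction Q Y] [ContinuousConstSMul Q Y]

/-- The action on chains. -/
noncomputable def ρ (g : Q) : C R Y →ₗ[R] C R Y := map fun y => g • y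

lemma ρ_mul (g g' : Q) (c : C R Y) : ρ g (ρ g' c) = ρ (g * g') c :=
  ext_univ (F := ρ g ∘ₗ ρ g') (fun _ _ hc => (map_map (continuous_const_smul g').continuousOn
    hc).trans (map_congr (fun y _ => (mul_smul g g' y).symm) hc)) c

lemma ρ_one (c : C R Y) : ρ (1 : Q) c = c :=
  ext_univ (G := LinearMap.id) (fun _ _ hc => map_self (fun y _ => one_smul Q y) hc) c

lemma ρ_D (g : Q) (c : C R Y) : ρ g (D c) = D (ρ g c) :=
  ext_univ (F := ρ g ∘ₗ D) (G := D ∘ₗ ρ g)
    (fun _ _ hc => map_D (continuous_const_smul g).continuousOn hc) c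

/-- Invariance of a cochain of the double complex. -/
def Inv (U : List Q → Dual R (C R Y)) : Prop :=
  ∀ g L c, U (L.map (g * ·)) (ρ g c) = U L c

/-- Invariant cocycles of the double complex. -/
def Coc (U : List Q → Dual R (C R Y)) : Prop := Inv U ∧ ∀ L c, U L (D c) = lc U (bdL R L) c

/-- Modification by a coboundary. -/
noncomputable def modi (U W : List Q → Dual R (C R Y)) (L : List Q) : Dual R (C R Y) :=
  U L - lc W (bdL R L) - W L ∘ₗ D

lemma lc_apply {α : Type*} (W : α → Dual R (C R Y)) (a : α →₀ R) (c : C R Y) :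
    lc W a c = lc (fun l => W l c) a := map_lc (Dual.eval R _ c) W a

lemma Coc.modi {U W : List Q → Dual R (C R Y)} (hU : Coc U) (hW : Inv W) : Coc (modi U W) := by
  refine ⟨fun g L c => ?_, fun L c => ?_⟩
  · simp only [MP_c77dc5_gt.modi, LinearMap.sub_apply, LinearMap.comp_apply, ← ρ_D, hU.1 g, hW g,
      lc_apply, ← lmap_bdL, lc_lmap]
  · have := map_eq (F := lc (MP_c77dc5_gt.modi U W)) (G := lc U - lc W ∘ₗ bd -
      D.dualMap ∘ₗ lc W) (fun m _ => by ext; simp [MP_c77dc5_gt.modi]) (mem_top (bdL R L))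
    rw [this]
    simp [MP_c77dc5_gt.modi, hU.2, bd_bdL]

/-- The first vertex of a simplex. -/
def v0 (s : Sx Y) : Y := s.f (Pi.single 0 1)

open Classical in
/-- A cochain on nonempty simplices in `A` which depends on a label of the first vertex. -/
noncomputable def piece {K : Type*} (A : Set Y) (κ : Y → K) (W : K → List Q → Dual R (C R Y))
    (L : List Q) : Dual R (C R Y) :=
  lc fun s => if s.n ≠ 0 ∧ MapsTo s.f (Δ s.n) A then W (κ (v0 s)) L (single s 1) else 0

section piece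

variable {K : Type*} {A : Set Y} {κ : Y → K} {W : K → List Q → Dual R (C R Y)}

lemma e0_mem {n : ℕ} (h : n ≠ 0) : Pi.single 0 1 ∈ Δ n := single_mem_Δ (by omega)

lemma piece_inv (act : Q → K → K) (hA : ∀ (g : Q) y, g • y ∈ A ↔ y ∈ A)
    (hκ : ∀ g y, κ (g • y) = act g (κ y))
    (hW : ∀ g k L c, W (act g k) (L.map (g * ·)) (ρ g c) = W k L c) : Inv (piece A κ W) := by
  classical
  intro g L c
  refine map_eq (F := piece A κ W (L.map (g * ·)) ∘ₗ ρ g) (fun s _ => ?_) (mem_top c)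
  have h1 := mk_f ((continuous_const_smul g).comp_continuousOn s.cont)
  have h2 : ρ g (single s (1 : R)) = single (mk s.n ((g • ·) ∘ s.f)) 1 := map_single _ _ _
  simp only [LinearMap.comp_apply, h2, piece, linearCombination_single, one_smul, mk_n]
  refine if_ctx_congr (and_congr_right fun _ => forall₂_congr fun t ht => by
    rw [h1 ht]; exact hA g _) (fun h => ?_) fun _ => rfl
  rw [v0, h1 (e0_mem h.1), Function.comp_apply, hκ, ← h2, hW, v0]

lemma piece_eq {A' : Set Y} (h : A' ⊆ A) {k : K} (hk : ∀ y ∈ A', κ y = k) {n : ℕ} {c : C R Y}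
    (hc : c ∈ In R A' (n + 1)) (L : List Q) : piece A κ W L c = W k L c := by
  refine map_eq (fun s hs => ?_) hc
  have h0 : s.n ≠ 0 := by rw [hs.1]; omega
  simp only [piece, linearCombination_single, one_smul]
  rw [if_pos ⟨h0, hs.2.mono_right h⟩, hk (v0 s) (hs.2 (e0_mem h0))]

lemma piece_zero {A' : Set Y} {n : ℕ} (h : ∀ k L, ∀ c ∈ In R (A' ∩ A) (n + 1), W k L c = 0)
    {c : C R Y} (hc : c ∈ In R A' (n + 1)) (L : List Q) : piece A κ W L c = 0 := by
  classical
  refine map_eq (G := 0) (fun s hs => ?_) hc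
  simp only [piece, linearCombination_single, one_smul]
  exact ite_eq_right_iff.2 fun h1 => h _ _ _ (single_mem ⟨hs.1, hs.2.inter h1.2⟩)

end piece

/-- The label is constant along simplices in `A`. -/
def Cst {K : Type*} (A : Set Y) (κ : Y → K) : Prop :=
  ∀ S ⊆ A, IsPreconnected S → ∀ y ∈ S, ∀ y' ∈ S, κ y = κ y'

lemma Cst.van {K : Type*} {A : Set Y} {κ : Y → K} (h : Cst A κ) {φ : Dual R (C R Y)} {n : ℕ}
    (H : ∀ A' ⊆ A, ∀ k, (∀ y ∈ A', κ y = k) → ∀ c ∈ In R A' (n + 1), φ c = 0) {c : C R Y}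
    (hc : c ∈ In R A (n + 1)) : φ c = 0 :=
  map_eq (G := 0) (fun s hs => H _ hs.2.image_subset (κ (v0 s)) (fun y hy => h _ hs.2.image_subset
    ((convex_Δ _).isPreconnected.image _ s.cont) y hy _ ⟨_, e0_mem (by rw [hs.1]; omega), rfl⟩) _
    (single_mem ⟨hs.1, mapsTo_image _ _⟩)) hc

/-- Vanishing on chains in `A` with more than `j` vertices. -/
def Van (U : List Q → Dual R (C R Y)) (A : Set Y) (j : ℕ) : Prop :=
  ∀ n, j ≤ n → ∀ L, ∀ c ∈ In R A (n + 1), U L c = 0

theorem free_step {U : List Q → Dual R (C R Y)} (hU : Coc U) {F : Set Y} {κ : Y → Q}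
    (hκ : ∀ g y, κ (g • y) = g * κ y) (hF : Cst F κ) : ∃ W, Inv W ∧ Van (modi U W) F 1 ∧
      ∀ A j, Van U A j → Van (modi U W) A (j + 1) := by
  refine ⟨piece univ κ fun k L => U (k :: L), piece_inv (· * ·) (by simp) hκ
    fun g k L c => hU.1 g (k :: L) c, fun n hn L c hc => hF.van (fun A' _ k hk c hc => ?_) hc,
    fun A j h n hn L c hc => ?_⟩ <;> obtain ⟨n, rfl⟩ := Nat.exists_eq_add_one_of_ne_zero
      (n := n) (by omega)
  · simp only [modi, LinearMap.sub_apply, LinearMap.comp_apply, lc_apply,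
      piece_eq (subset_univ _) hk hc, piece_eq (subset_univ _) hk (D_In hc), hU.2, bdL, map_sub,
      linearCombination_single, one_smul]
    rw [map_eq (F := lc (fun l => U l c) ∘ₗ cone k) (G := lc fun l => U (k :: l) c)
      (fun m _ => by simp) (mem_top _) |>.symm]
    simp
  · have h1 := fun L => piece_zero (A := univ) (κ := κ) (W := fun k L => U (k :: L)) (fun k L c hc =>
      h (n + 1) (by omega) _ c (In_mono inter_subset_left _ hc)) hc L
    have h2 := piece_zero (A := univ) (κ := κ) (W := fun k L => U (k :: L)) (fun k L c hc =>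
      h n (by omega) _ c (In_mono inter_subset_left _ hc)) (D_In hc) L
    simp [modi, h1, h2, h (n + 1) (by omega) L c hc, linearCombination_apply]

theorem zigzag {U : List Q → Dual R (C R Y)} (hU : Coc U) {ι : Type*} {A : ι → Set Y}
    (hA : ∀ i, Van U (A i) 1) (m : ℕ) {F : ℕ → Set Y} {κ : ℕ → Y → Q}
    (hκ : ∀ j g y, κ j (g • y) = g * κ j y) (hF : ∀ j, Cst (F j) (κ j)) {z : C R Y}
    (hz : ∀ φ : Dual R (C R Y), (∀ (g : Q) c, φ (ρ g c) = φ c) → φ (D z) = 0) :
    ∃ U' : List Q → Dual R (C R Y), Coc U' ∧ U' [] z = U [] z ∧ (∀ i, Van U' (A i) (m + 1)) ∧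
      ∀ j < m, Van U' (F j) (m + 1) := by
  induction m with
  | zero => exact ⟨U, hU, rfl, hA, by simp⟩
  | succ m ih =>
    obtain ⟨U', h1, h2, h3, h4⟩ := ih
    obtain ⟨W, w1, w2, w3⟩ := free_step h1 (hκ m) (hF m)
    refine ⟨_, h1.modi w1, ?_, fun i => w3 _ _ (h3 i), fun j hj => ?_⟩
    · simp [modi, bdL, hz (W []) (fun g => w1 g []), h2]
    · rcases Nat.lt_succ_iff_lt_or_eq.1 hj with hj | rfl
      · exact w3 _ _ (h4 j hj)
      · exact fun n hn => w2 n (by omega)

section contr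

variable {h : C R Y →ₗ[R] C R Y} (hh : ∀ c, D (h c) + h (D c) = c)

/-- The translated contractions, dualised. -/
noncomputable def hd (h : C R Y →ₗ[R] C R Y) (L : List Q) : Dual R (C R Y) →ₗ[R] Dual R (C R Y) :=
  (ρ (L.headD 1) ∘ₗ h ∘ₗ ρ (L.headD 1)⁻¹).dualMap

include hh in
lemma hd_spec (L : List Q) (φ : Dual R (C R Y)) :
    D.dualMap (hd h L φ) + hd h L (D.dualMap φ) = φ := by
  refine LinearMap.ext fun c => ?_
  simp only [hd, LinearMap.add_apply, LinearMap.dualMap_apply, LinearMap.comp_apply, ← ρ_D]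
  rw [← map_add, ← map_add, ρ_D, add_comm, hh, ρ_mul, mul_inv_cancel, ρ_one]

lemma zig_inv {b b' : Dual R (C R Y)} {A : List Q → Dual R (C R Y)} (hA : Inv A) (s : R) (g : Q)
    (hb : ∀ c, b' (ρ g c) = b c) (L : List Q) (c : C R Y) :
    zig b' (hd h) A s (L.map (g * ·)) (ρ g c) = zig b (hd h) A s L c := by
  rw [← zig_nat (b := b) (h := hd h) (A := A) (g * ·) (ρ g⁻¹).dualMap (fun l hl x => by
    obtain ⟨a, l, rfl⟩ := List.exists_cons_of_ne_nil hl
    exact LinearMap.ext fun c => by simp [hd, ρ_mul])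
    (fun l => LinearMap.ext fun c => by
      rw [LinearMap.dualMap_apply, ← hA g, ρ_mul, mul_inv_cancel, ρ_one])
    (LinearMap.ext fun c => by rw [LinearMap.dualMap_apply, ← hb, ρ_mul, mul_inv_cancel, ρ_one]) L,
    LinearMap.dualMap_apply, ρ_mul, inv_mul_cancel, ρ_one]

include hh

theorem exists_coc {u : Dual R (C R Y)} (h1 : ∀ c, u (D c) = 0) (h2 : ∀ (g : Q) c, u (ρ g c) = u c) :
    ∃ U : List Q → Dual R (C R Y), Coc U ∧ U [] = u :=
  ⟨zig u (hd h) 0 1, ⟨fun g => zig_inv (fun _ _ _ => rfl) 1 g (h2 g), fun L c => by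
    simpa using DFunLike.congr_fun (zig_spec (b := u) (h := hd h) (A := 0) (s := 1) D.dualMap
      (fun l _ => hd_spec hh l) (by simp) (LinearMap.ext h1) L) c⟩, rfl⟩

theorem exists_null {U : List Q → Dual R (C R Y)} (hU : Coc U) {K : Type*} (act : Q → K → K)
    (b : K → Dual R (C R Y)) (h1 : ∀ k c, b k (D c) = U [] c)
    (h2 : ∀ g k c, b (act g k) (ρ g c) = b k c) : ∃ W : K → List Q → Dual R (C R Y),
      (∀ g k L c, W (act g k) (L.map (g * ·)) (ρ g c) = W k L c) ∧
      ∀ k L c, W k L (D c) = U L c - lc (W k) (bdL R L) c :=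
  ⟨fun k => zig (b k) (hd h) U (-1), fun g k => zig_inv hU.1 _ g (h2 g k), fun k L c => by
    simpa [sub_eq_add_neg] using DFunLike.congr_fun (zig_spec (b := b k) (h := hd h) (A := U)
      (s := -1) D.dualMap (fun l _ => hd_spec hh l) (fun l => LinearMap.ext fun c => by
        simp [hU.2]) (LinearMap.ext (h1 k)) L) c⟩

end contr

end Pool.Agent.Lib.MP_c77dc5_gt
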